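import Mathlib

/-!
# SMD.DenL: a density theorem for the scales

If the sets `G n` have for large `n` relative measure at least `c/2` in every small ball with centre in `[A, B]` (for `n` large in terms of the ball),
then for almost every `x` in `[A, B]` the set of the `n` with `x ∈ G n` has upper density at least `c/8`.

PROOF. `S` = the set of the `x` with `#{n < N : x ∈ G n} < (c/8) N` for all `N ≥ N0`. Let `x ∈ S ∩ [A, B]` be a point of density of `S` and `r` small. For `N ≥ N0`
`(N - n0) c r ≤ ∫_ball #{n < N : t ∈ G n} dt ≤ (c/8) N 2r + N vol(ball - S) ≤ (c/8) N 2 r + N c r/4 = N c r/2`, impossible for `N > 2 n0`.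
-/

namespace SMD

open MeasureTheory Filter

open Classical in
theorem dens_ae {G : ℕ → Set ℝ} (hG : ∀ n, MeasurableSet (G n)) {A B c ρ0 : ℝ} (hc : 0 < c) (hρ0 : 0 < ρ0)
    (hpos : ∀ μ ρ : ℝ, A ≤ μ → μ ≤ B → 0 < ρ → ρ ≤ ρ0 → ∀ᶠ n : ℕ in atTop,
      ENNReal.ofReal (c * ρ) ≤ volume (G n ∩ Metric.closedBall μ ρ)) :
    ∀ᵐ x : ℝ, A ≤ x → x ≤ B → ∃ᶠ N : ℕ in atTop,
      c / 8 * N ≤ (((Finset.range N).filter fun n => x ∈ G n).card : ℝ) := by
  -- the counting function
  let F : ℕ → ℝ → ENNReal := fun N x => ∑ n ∈ Finset.range N, (G n).indicator (fun _ => (1 : ENNReal)) x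
  have hF : ∀ N x, F N x = ((((Finset.range N).filter fun n => x ∈ G n).card : ℕ) : ENNReal) := by
    intro N x
    simp only [F, Finset.card_filter]
    push_cast
    refine Finset.sum_congr rfl fun n _ => ?_
    by_cases h : x ∈ G n
    · rw [Set.indicator_of_mem h, if_pos h]
    · rw [Set.indicator_of_notMem h, if_neg h]
  have hFm : ∀ N, Measurable (F N) := fun N =>
    Finset.measurable_sum _ fun n _ => measurable_const.indicator (hG n)
  have hFN : ∀ N x, F N x ≤ N := by
    intro N x
    rw [hF]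
    have : ((Finset.range N).filter fun n => x ∈ G n).card ≤ N :=
      (Finset.card_filter_le _ _).trans (by rw [Finset.card_range])
    exact_mod_cast this
  let S : ℕ → Set ℝ := fun N0 => ⋂ N : ℕ, {x : ℝ | N0 ≤ N → F N x ≤ ENNReal.ofReal (c / 8 * N)}
  have hS : ∀ N0, MeasurableSet (S N0) := by
    intro N0
    refine MeasurableSet.iInter fun N => ?_
    by_cases h : N0 ≤ N
    · have e : {x : ℝ | N0 ≤ N → F N x ≤ ENNReal.ofReal (c / 8 * N)} =
          {x : ℝ | F N x ≤ ENNReal.ofReal (c / 8 * N)} := by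
        ext x
        simp only [Set.mem_ofPred_eq, h, forall_true_left]
      rw [e]
      exact measurableSet_le (hFm N) measurable_const
    · have e : {x : ℝ | N0 ≤ N → F N x ≤ ENNReal.ofReal (c / 8 * N)} = Set.univ := by
        ext x
        simp only [Set.mem_ofPred_eq, h, false_imp_iff, Set.mem_univ]
      rw [e]
      exact MeasurableSet.univ
  have hae : ∀ᵐ x : ℝ, ∀ N0 : ℕ, Tendsto (fun r => volume (S N0 ∩ Metric.closedBall x r) /
      volume (Metric.closedBall x r)) (nhdsWithin 0 (Set.Ioi 0)) (nhds ((S N0).indicator 1 x)) := by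
    rw [ae_all_iff]
    intro N0
    exact Besicovitch.ae_tendsto_measure_inter_div_of_measurableSet (volume : Measure ℝ) (hS N0)
  filter_upwards [hae] with x hx hxA hxB
  by_contra hcon
  rw [not_frequently, eventually_atTop] at hcon
  obtain ⟨N0, hN0⟩ := hcon
  have hxS : x ∈ S N0 := by
    refine Set.mem_iInter.2 fun N => ?_
    intro hN
    have h1 := not_le.1 (hN0 N hN)
    rw [hF]
    rw [← ENNReal.ofReal_natCast]
    exact ENNReal.ofReal_le_ofReal h1.le
  have h1 := hx N0
  rw [Set.indicator_of_mem hxS, Pi.one_apply] at h1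
  have hlt : ENNReal.ofReal (1 - c / 8) < 1 := by
    rw [← ENNReal.ofReal_one]
    exact (ENNReal.ofReal_lt_ofReal_iff one_pos).2 (by linarith)
  have h2 := h1.eventually (lt_mem_nhds hlt)
  have h3 : ∀ᶠ r : ℝ in nhdsWithin 0 (Set.Ioi 0), r < ρ0 := nhdsWithin_le_nhds (Iio_mem_nhds hρ0)
  obtain ⟨r, ⟨hr2, hr3⟩, hr0⟩ := ((h2.and h3).and self_mem_nhdsWithin).exists
  have hr : 0 < r := hr0
  set D : Set ℝ := Metric.closedBall x r with hD
  have hDv : volume D = ENNReal.ofReal (2 * r) := by rw [hD, Real.volume_closedBall]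
  have hDm : MeasurableSet D := measurableSet_closedBall
  have hDf : volume D ≠ ⊤ := by rw [hDv]; exact ENNReal.ofReal_ne_top
  obtain ⟨n0, hn0⟩ := eventually_atTop.1 (hpos x r hxA hxB hr hr3.le)
  set N : ℕ := max N0 (2 * n0 + 1) with hNdef
  have hNN0 : N0 ≤ N := le_max_left _ _
  have hNn0 : 2 * n0 + 1 ≤ N := le_max_right _ _
  -- lower bound
  have hlow : ((N - n0 : ℕ) : ENNReal) * ENNReal.ofReal (c * r) ≤ ∫⁻ t in D, F N t := by
    have e : ∫⁻ t in D, F N t = ∑ n ∈ Finset.range N, volume (G n ∩ D) := by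
      simp only [F]
      rw [lintegral_finsetSum _ fun n _ => measurable_const.indicator (hG n)]
      refine Finset.sum_congr rfl fun n _ => ?_
      rw [lintegral_indicator (hG n), lintegral_const, one_mul, Measure.restrict_apply MeasurableSet.univ,
        Set.univ_inter, Measure.restrict_apply (hG n)]
    rw [e]
    calc ((N - n0 : ℕ) : ENNReal) * ENNReal.ofReal (c * r)
        = ∑ n ∈ Finset.Ico n0 N, ENNReal.ofReal (c * r) := by
          rw [Finset.sum_const, Nat.card_Ico, nsmul_eq_mul]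
      _ ≤ ∑ n ∈ Finset.Ico n0 N, volume (G n ∩ D) := by
          refine Finset.sum_le_sum fun n hn => ?_
          exact hn0 n (Finset.mem_Ico.1 hn).1
      _ ≤ ∑ n ∈ Finset.range N, volume (G n ∩ D) := by
          refine Finset.sum_le_sum_of_subset ?_
          intro n hn
          exact Finset.mem_range.2 (Finset.mem_Ico.1 hn).2
  -- upper bound
  have hup : ∫⁻ t in D, F N t ≤ ENNReal.ofReal (c / 8 * N) * volume (D ∩ S N0) + N * volume (D \ S N0) := by
    have e : ∫⁻ t in D, F N t = (∫⁻ t in D ∩ S N0, F N t) + ∫⁻ t in D \ S N0, F N t :=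
      (lintegral_inter_add_diff (μ := volume) (F N) D (hS N0)).symm
    rw [e]
    refine add_le_add ?_ ?_
    · calc ∫⁻ t in D ∩ S N0, F N t ≤ ∫⁻ _ in D ∩ S N0, ENNReal.ofReal (c / 8 * N) := by
            refine setLIntegral_mono' (hDm.inter (hS N0)) fun t ht => ?_
            exact Set.mem_iInter.1 ht.2 N hNN0
        _ = ENNReal.ofReal (c / 8 * N) * volume (D ∩ S N0) := by rw [setLIntegral_const]
    · calc ∫⁻ t in D \ S N0, F N t ≤ ∫⁻ _ in D \ S N0, (N : ENNReal) :=
            setLIntegral_mono' (hDm.diff (hS N0)) fun t _ => hFN N t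
        _ = N * volume (D \ S N0) := by rw [setLIntegral_const]
  -- real numbers
  have ha : volume (D ∩ S N0) ≠ ⊤ := ne_top_of_le_ne_top hDf (measure_mono Set.inter_subset_left)
  have hb : volume (D \ S N0) ≠ ⊤ := ne_top_of_le_ne_top hDf (measure_mono Set.diff_subset)
  set a : ℝ := (volume (D ∩ S N0)).toReal with hadef
  set b : ℝ := (volume (D \ S N0)).toReal with hbdef
  have hab : a + b = 2 * r := by
    rw [hadef, hbdef, ← ENNReal.toReal_add ha hb, measure_inter_add_diff D (hS N0), hDv,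
      ENNReal.toReal_ofReal (by linarith)]
  have haL : (1 - c / 8) * (2 * r) ≤ a := by
    rcases le_or_gt (1 - c / 8) 0 with h0 | h0
    · have : 0 ≤ a := ENNReal.toReal_nonneg
      nlinarith
    · have h4 : ENNReal.ofReal (1 - c / 8) * volume D ≤ volume (S N0 ∩ D) := by
        rw [← ENNReal.le_div_iff_mul_le]
        · exact hr2.le
        · left
          rw [hDv]
          exact (ENNReal.ofReal_pos.2 (by linarith)).ne'
        · left
          exact hDf
      rw [hDv, ← ENNReal.ofReal_mul h0.le, Set.inter_comm] at h4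
      exact (ENNReal.ofReal_le_iff_le_toReal ha).1 h4
  have hbU : b ≤ c * r / 4 := by nlinarith
  have haU : a ≤ 2 * r := by
    have : 0 ≤ b := ENNReal.toReal_nonneg
    linarith
  have hfin : ((N - n0 : ℕ) : ℝ) * (c * r) ≤ c / 8 * N * a + N * b := by
    have h5 := hlow.trans hup
    have e1 : ((N - n0 : ℕ) : ENNReal) * ENNReal.ofReal (c * r) =
        ENNReal.ofReal (((N - n0 : ℕ) : ℝ) * (c * r)) := by
      rw [ENNReal.ofReal_mul (p := ((N - n0 : ℕ) : ℝ)) (Nat.cast_nonneg _), ENNReal.ofReal_natCast]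
    have e2 : ENNReal.ofReal (c / 8 * N) * volume (D ∩ S N0) + N * volume (D \ S N0) =
        ENNReal.ofReal (c / 8 * N * a + N * b) := by
      rw [ENNReal.ofReal_add (by positivity) (by positivity),
        ENNReal.ofReal_mul (p := c / 8 * (N : ℝ)) (by positivity),
        ENNReal.ofReal_mul (p := (N : ℝ)) (Nat.cast_nonneg N), ENNReal.ofReal_natCast, hadef, hbdef,
        ENNReal.ofReal_toReal ha, ENNReal.ofReal_toReal hb]
    rw [e1, e2] at h5
    exact (ENNReal.ofReal_le_ofReal_iff (by positivity)).1 h5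
  have hNr : ((N - n0 : ℕ) : ℝ) = N - n0 := by
    rw [Nat.cast_sub (by omega)]
  have hN1 : (2 : ℝ) * n0 + 1 ≤ N := by exact_mod_cast hNn0
  have hN0' : (0 : ℝ) ≤ N := Nat.cast_nonneg N
  rw [hNr] at hfin
  have h6 : c / 8 * N * a + N * b ≤ N * (c * r) / 2 := by
    have h7 : c / 8 * N * a ≤ c / 8 * N * (2 * r) := mul_le_mul_of_nonneg_left haU (by positivity)
    have h8 : N * b ≤ N * (c * r / 4) := mul_le_mul_of_nonneg_left hbU hN0'
    linarith
  have h9 : ((N : ℝ) - n0) * (c * r) ≤ N * (c * r) / 2 := hfin.trans h6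
  have hcr : 0 < c * r := mul_pos hc hr
  nlinarith

end SMD
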