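import Pool.Agent.SMD.Pair6
import Pool.Agent.SMC.CardNE
import Pool.Agent.Lib.PNT

/-!
# SMD.SecM4: the second moment

PROOF. As `Pool/Agent/SMC/SecM.lean` (copy its private lemmas, in particular `card_SS`, `exp_diff`, `card_lim`) with `pair6` instead of `pair4`: `X = e^w`,
`N4 β γ σ w μ t = ∑_{m∈S} 1[t ∈ E_m]`, `S` = the primes `m` with `|log m - w - log μ| ≤ 4σ`, `E_m` = the `t` for which `⌊t m + β⌋₊`, `⌈(m - β)/t⌉₊`,
`⌊t² m + t β + γ⌋₊` are primes; `t ∈ E_m ∩ E_{m'}` iff `∀ i, (six β γ m m' i t).Prime`. Pairs with `NE X (1/40) m m'`: `≤ C (b-a)/w^6` each, at most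
`(20Bσ e^w/w)²` pairs. The other pairs: measure `≤ b-a`, at most `X^(2-1/40)` pairs (`SMC.card_ne`), `≤ σ² X²/w^8` for large `w`.
-/

namespace SMD

open MeasureTheory Filter SMC

private def EE (β γ : ℝ) (m : ℕ) : Set ℝ :=
  {t : ℝ | (⌊t * m + β⌋₊).Prime ∧ (⌈(m - β) / t⌉₊).Prime ∧ (⌊t ^ 2 * m + t * β + γ⌋₊).Prime}

private theorem EE_meas (β γ : ℝ) (m : ℕ) : MeasurableSet (EE β γ m) := by
  have h1 : Measurable fun t : ℝ => ⌊t * m + β⌋₊ := Nat.measurable_floor.comp (by fun_prop)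
  have h2 : Measurable fun t : ℝ => ⌈(m - β) / t⌉₊ := Nat.measurable_ceil.comp (by fun_prop)
  have h3 : Measurable fun t : ℝ => ⌊t ^ 2 * m + t * β + γ⌋₊ :=
    Nat.measurable_floor.comp (by fun_prop)
  exact (h1 (MeasurableSet.of_discrete (s := {n : ℕ | n.Prime}))).inter
    ((h2 (MeasurableSet.of_discrete (s := {n : ℕ | n.Prime}))).inter
      (h3 (MeasurableSet.of_discrete (s := {n : ℕ | n.Prime}))))

open Classical in
private noncomputable def SS (σ w μ : ℝ) : Finset ℕ :=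
  (Finset.Icc 1 ⌊Real.exp (w + Real.log μ + 4 * σ)⌋₊).filter fun m : ℕ =>
    m.Prime ∧ |Real.log m - w - Real.log μ| ≤ 4 * σ

open Classical in
private theorem N4_nat (β γ σ w μ t : ℝ) :
    N4 β γ σ w μ t = ∑ m ∈ SS σ w μ, (if t ∈ EE β γ m then 1 else 0) := by
  rw [← Finset.card_filter]
  unfold N4 SS EE
  rw [Finset.filter_filter]
  congr 1
  ext m
  simp only [Finset.mem_filter, Set.mem_ofPred_eq, and_assoc]

private theorem N4_enn (β γ σ w μ t : ℝ) :
    (N4 β γ σ w μ t : ENNReal) =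
      ∑ m ∈ SS σ w μ, (EE β γ m).indicator (fun _ => (1 : ENNReal)) t := by
  rw [N4_nat, Nat.cast_sum]
  apply Finset.sum_congr rfl
  intro m _
  by_cases h : t ∈ EE β γ m
  · rw [if_pos h, Set.indicator_of_mem h, Nat.cast_one]
  · rw [if_neg h, Set.indicator_of_notMem h, Nat.cast_zero]

theorem N4_meas (β γ σ w μ : ℝ) : Measurable fun t : ℝ => N4 β γ σ w μ t := by
  have h : (fun t : ℝ => N4 β γ σ w μ t) =
      fun t : ℝ => ∑ m ∈ SS σ w μ, (EE β γ m).indicator (fun _ => (1 : ℕ)) t := by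
    funext t
    rw [N4_nat]
    apply Finset.sum_congr rfl
    intro m _
    by_cases h : t ∈ EE β γ m
    · rw [if_pos h, Set.indicator_of_mem h]
    · rw [if_neg h, Set.indicator_of_notMem h]
  rw [h]
  exact Finset.measurable_fun_sum _ fun m _ => measurable_const.indicator (EE_meas β γ m)

private theorem N4_sq (β γ σ w μ a b : ℝ) :
    ∫⁻ t in Set.Icc a b, (N4 β γ σ w μ t : ENNReal) ^ 2 =
      ∑ p ∈ SS σ w μ ×ˢ SS σ w μ, volume (Set.Icc a b ∩ (EE β γ p.1 ∩ EE β γ p.2)) := by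
  have h1 : ∀ t : ℝ, (N4 β γ σ w μ t : ENNReal) ^ 2 =
      ∑ p ∈ SS σ w μ ×ˢ SS σ w μ,
        (EE β γ p.1 ∩ EE β γ p.2).indicator (fun _ => (1 : ENNReal)) t := by
    intro t
    rw [N4_enn, sq, Finset.sum_mul_sum, Finset.sum_product]
    apply Finset.sum_congr rfl
    intro m _
    apply Finset.sum_congr rfl
    intro m' _
    change _ = (EE β γ m ∩ EE β γ m').indicator (fun _ => (1 : ENNReal)) t
    by_cases h : t ∈ EE β γ m
    · by_cases h' : t ∈ EE β γ m'
      · have h3 : t ∈ EE β γ m ∩ EE β γ m' := ⟨h, h'⟩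
        rw [Set.indicator_of_mem h, Set.indicator_of_mem h', Set.indicator_of_mem h3, one_mul]
      · have h3 : t ∉ EE β γ m ∩ EE β γ m' := fun hh => h' hh.2
        rw [Set.indicator_of_notMem h', Set.indicator_of_notMem h3, mul_zero]
    · have h3 : t ∉ EE β γ m ∩ EE β γ m' := fun hh => h hh.1
      rw [Set.indicator_of_notMem h, Set.indicator_of_notMem h3, zero_mul]
  simp_rw [h1]
  rw [lintegral_finsetSum _ fun p _ =>
    measurable_const.indicator ((EE_meas β γ p.1).inter (EE_meas β γ p.2))]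
  apply Finset.sum_congr rfl
  intro p _
  rw [lintegral_indicator ((EE_meas β γ p.1).inter (EE_meas β γ p.2)), lintegral_const, one_mul,
    Measure.restrict_restrict ((EE_meas β γ p.1).inter (EE_meas β γ p.2)),
    Measure.restrict_apply MeasurableSet.univ, Set.univ_inter, Set.inter_comm]

private theorem exp_diff {σ : ℝ} (h0 : 0 < σ) (h1 : σ ≤ 1 / 12) :
    Real.exp (4 * σ) - Real.exp (-(4 * σ)) ≤ 10 * σ := by
  have h2 : |4 * σ| ≤ 1 := by rw [abs_of_pos (by linarith)]; linarith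
  have h3 := Real.abs_exp_sub_one_sub_id_le h2
  have h4 := Real.add_one_le_exp (-(4 * σ))
  rw [abs_le] at h3
  nlinarith [h3.2]

private theorem card_lim (μ σ : ℝ) (hμ : 1 ≤ μ) :
    Tendsto (fun w : ℝ => (Nat.primeCounting ⌊μ * Real.exp (w + σ)⌋₊ : ℝ) * w / Real.exp w) atTop
      (nhds (μ * Real.exp σ)) := by
  have hμ0 : 0 < μ := by linarith
  have h1 : Tendsto (fun w : ℝ => μ * Real.exp (w + σ)) atTop atTop :=
    (Real.tendsto_exp_atTop.comp (tendsto_atTop_add_const_right _ σ tendsto_id)).const_mul_atTop hμ0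
  have h2 := Pool.Agent.Lib.PNT.pi_real.comp h1
  have h3 : Tendsto (fun w : ℝ => w / (Real.log μ + (w + σ))) atTop (nhds 1) := by
    have h4 : Tendsto (fun w : ℝ => (Real.log μ + σ) / w + 1) atTop (nhds (0 + 1)) :=
      (tendsto_const_nhds.div_atTop tendsto_id).add_const 1
    have h5 := h4.inv₀ (by norm_num)
    rw [zero_add, inv_one] at h5
    refine h5.congr' ?_
    filter_upwards [eventually_gt_atTop 0] with w hw
    rw [← one_div, div_add_one hw.ne', one_div_div]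
    congr 1
    ring
  have h6 := (h2.mul h3).mul_const (μ * Real.exp σ)
  rw [one_mul, one_mul] at h6
  refine h6.congr' ?_
  filter_upwards [eventually_gt_atTop (|Real.log μ + σ|)] with w hw
  have hw0 : 0 < Real.log μ + (w + σ) := by
    have := neg_abs_le (Real.log μ + σ)
    linarith
  simp only [Function.comp]
  rw [Real.log_mul hμ0.ne' (Real.exp_pos _).ne', Real.log_exp, Real.exp_add]
  have e1 := (Real.exp_pos w).ne'
  have e2 := (Real.exp_pos σ).ne'
  field_simp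

private theorem card_SS {B μ σ : ℝ} (hμ : 1 ≤ μ) (hB : μ ≤ B) (h0 : 0 < σ) (h1 : σ ≤ 1 / 12) :
    ∀ᶠ w : ℝ in atTop, ((SS σ w μ).card : ℝ) ≤ 20 * B * σ * Real.exp w / w := by
  have hμ0 : 0 < μ := by linarith
  have l1 := card_lim μ (4 * σ) hμ
  have l2 := card_lim μ (-(4 * σ)) hμ
  have l3 : Tendsto (fun w : ℝ => w / Real.exp w) atTop (nhds 0) := by
    have := Real.tendsto_pow_mul_exp_neg_atTop_nhds_zero 1
    refine this.congr fun w => ?_
    rw [pow_one, Real.exp_neg, div_eq_mul_inv]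
  have l4 := (l1.sub l2).add l3
  have hlt : μ * Real.exp (4 * σ) - μ * Real.exp (-(4 * σ)) + 0 < 20 * B * σ := by
    have := exp_diff h0 h1
    nlinarith
  filter_upwards [l4.eventually_lt_const hlt, eventually_gt_atTop 0] with w hw hw0
  have hcard : ((SS σ w μ).card : ℝ) ≤ (Nat.primeCounting ⌊μ * Real.exp (w + 4 * σ)⌋₊ : ℝ) -
      (Nat.primeCounting ⌊μ * Real.exp (w + -(4 * σ))⌋₊ : ℝ) + 1 := by
    set n1 := ⌊μ * Real.exp (w + 4 * σ)⌋₊ with hn1
    set n2 := ⌊μ * Real.exp (w + -(4 * σ))⌋₊ with hn2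
    have hsub : SS σ w μ ⊆ ((Nat.primesLE n1) \ (Nat.primesLE n2)) ∪ {n2} := by
      intro m hm
      unfold SS at hm
      rw [Finset.mem_filter, Finset.mem_Icc] at hm
      obtain ⟨⟨hm1, hm2⟩, hp, ha⟩ := hm
      rw [abs_le] at ha
      have hm0 : (0 : ℝ) < m := by exact_mod_cast hm1
      have e1 : Real.exp (w + Real.log μ + 4 * σ) = μ * Real.exp (w + 4 * σ) := by
        rw [show w + Real.log μ + 4 * σ = Real.log μ + (w + 4 * σ) by ring, Real.exp_add,
          Real.exp_log hμ0]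
      rw [e1] at hm2
      have hge : μ * Real.exp (w + -(4 * σ)) ≤ m := by
        have h3 : Real.log μ + (w + -(4 * σ)) ≤ Real.log m := by linarith [ha.1]
        have h4 := Real.exp_le_exp.mpr h3
        rwa [Real.exp_add, Real.exp_log hμ0, Real.exp_log hm0] at h4
      have hge2 : n2 ≤ m := by
        have := Nat.floor_le_floor hge
        rwa [Nat.floor_natCast] at this
      rw [Finset.mem_union, Finset.mem_sdiff, Finset.mem_singleton]
      by_cases hc : m = n2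
      · exact Or.inr hc
      · refine Or.inl ⟨?_, ?_⟩
        · rw [Nat.mem_primesLE]
          exact ⟨hm2, hp⟩
        · rw [Nat.mem_primesLE]
          intro hh
          omega
    have hle : n2 ≤ n1 := by
      apply Nat.floor_le_floor
      apply mul_le_mul_of_nonneg_left _ hμ0.le
      exact Real.exp_le_exp.mpr (by linarith)
    have hsub2 : Nat.primesLE n2 ⊆ Nat.primesLE n1 := by
      intro m hm
      rw [Nat.mem_primesLE] at hm ⊢
      exact ⟨hm.1.trans hle, hm.2⟩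
    have h5 := Finset.card_le_card hsub
    have h6 := Finset.card_union_le ((Nat.primesLE n1) \ (Nat.primesLE n2)) {n2}
    rw [Finset.card_sdiff_of_subset hsub2, Finset.card_singleton,
      Nat.primesLE_card_eq_primeCounting, Nat.primesLE_card_eq_primeCounting] at h6
    have h7 : Nat.primeCounting n2 ≤ Nat.primeCounting n1 := Nat.monotone_primeCounting hle
    have h8 : (SS σ w μ).card + Nat.primeCounting n2 ≤ Nat.primeCounting n1 + 1 := by omega
    have h9 : ((SS σ w μ).card : ℝ) + (Nat.primeCounting n2 : ℝ) ≤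
        (Nat.primeCounting n1 : ℝ) + 1 := by exact_mod_cast h8
    linarith
  have he := Real.exp_pos w
  have h10 : ((Nat.primeCounting ⌊μ * Real.exp (w + 4 * σ)⌋₊ : ℝ) -
      (Nat.primeCounting ⌊μ * Real.exp (w + -(4 * σ))⌋₊ : ℝ) + 1) * w / Real.exp w <
      20 * B * σ := by
    refine lt_of_eq_of_lt ?_ hw
    field_simp
  rw [div_lt_iff₀ he] at h10
  rw [le_div_iff₀ hw0]
  nlinarith

theorem sec_m4 {B : ℝ} (hB : 1 ≤ B) : ∃ C : ℝ, 0 < C ∧ ∀ β γ a b μ σ : ℝ, 0 < a → a < b → 1 ≤ μ → μ ≤ B → 0 < σ →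
    σ ≤ 1 / 12 → ∀ᶠ w : ℝ in atTop,
      ∫⁻ t in Set.Icc a b, (N4 β γ σ w μ t : ENNReal) ^ 2 ≤
        ENNReal.ofReal (C * σ ^ 2 * (b - a) * Real.exp (2 * w) / w ^ 8) := by
  obtain ⟨C, hC, hpair⟩ := pair6 (η := 1 / 40) (by norm_num) le_rfl
  refine ⟨C * (20 * B) ^ 2 + 1, by positivity, ?_⟩
  intro β γ a b μ σ ha hab hμ hμB hσ hσ1
  have hμ0 : 0 < μ := by linarith
  obtain ⟨X0, hX0⟩ := hpair a b (1 / 2) (2 * B) β γ ha hab (by norm_num)
  obtain ⟨X1, hX1⟩ := card_ne (η := 1 / 40) (κ2 := 2 * B) (by norm_num) le_rfl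
  have hdec : Tendsto (fun w : ℝ => w ^ 8 * Real.exp (-(1 / 40) * w)) atTop (nhds 0) := by
    have := (isLittleO_pow_exp_pos_mul_atTop 8 (show (0 : ℝ) < 1 / 40 by norm_num)).tendsto_div_nhds_zero
    refine this.congr fun w => ?_
    rw [div_eq_mul_inv, ← Real.exp_neg]
    congr 2
    ring
  have hba : 0 < b - a := by linarith
  filter_upwards [card_SS hμ hμB hσ hσ1, Real.tendsto_exp_atTop.eventually_ge_atTop X0,
    Real.tendsto_exp_atTop.eventually_ge_atTop X1, eventually_gt_atTop 0,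
    hdec.eventually_lt_const (show (0 : ℝ) < σ ^ 2 by positivity)] with w hcard hw0 hw1 hw hd
  have hX := hX0 (Real.exp w) hw0
  have hNE := hX1 (Real.exp w) hw1
  rw [Real.log_exp] at hX
  have hB0 : 0 < B := by linarith
  -- bounds for the elements of `S`
  have hlow : ∀ m ∈ SS σ w μ, (1 / 2 : ℝ) * Real.exp w ≤ m := by
    intro m hm
    unfold SS at hm
    rw [Finset.mem_filter, Finset.mem_Icc] at hm
    obtain ⟨⟨hm1, hm2⟩, hp, hh⟩ := hm
    rw [abs_le] at hh
    have hm0 : (0 : ℝ) < m := by exact_mod_cast hm1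
    have h3 : w + -(1 / 3) ≤ Real.log m := by
      have := Real.log_nonneg hμ
      linarith [hh.1]
    have h4 := Real.exp_le_exp.mpr h3
    rw [Real.exp_log hm0, Real.exp_add] at h4
    have h5 := Real.add_one_le_exp (-(1 / 3 : ℝ))
    nlinarith [Real.exp_pos w]
  have hup : ∀ m ∈ SS σ w μ, (m : ℝ) ≤ 2 * B * Real.exp w := by
    intro m hm
    unfold SS at hm
    rw [Finset.mem_filter, Finset.mem_Icc] at hm
    obtain ⟨⟨hm1, hm2⟩, hp, hh⟩ := hm
    rw [abs_le] at hh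
    have hm0 : (0 : ℝ) < m := by exact_mod_cast hm1
    have h3 : Real.log m ≤ Real.log μ + (w + 1 / 3) := by linarith [hh.2]
    have h4 := Real.exp_le_exp.mpr h3
    rw [Real.exp_log hm0, Real.exp_add, Real.exp_log hμ0, Real.exp_add] at h4
    have h5 : Real.exp (1 / 3) ≤ 2 := by
      have h6 : |(1 / 3 : ℝ)| ≤ 1 := by norm_num
      have h7 := Real.abs_exp_sub_one_sub_id_le h6
      rw [abs_le] at h7
      nlinarith [h7.2]
    have h8 : Real.exp w * Real.exp (1 / 3) ≤ Real.exp w * 2 :=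
      mul_le_mul_of_nonneg_left h5 (Real.exp_pos w).le
    have h9 : μ * (Real.exp w * Real.exp (1 / 3)) ≤ B * (Real.exp w * 2) :=
      mul_le_mul hμB h8 (by positivity) hB0.le
    linarith
  rw [N4_sq]
  classical
  set P := SS σ w μ ×ˢ SS σ w μ with hP
  rw [← Finset.sum_filter_add_sum_filter_not P (fun x : ℕ × ℕ => MCC.NE (Real.exp w) (1 / 40) x.1 x.2)]
  have hS1 : ∑ p ∈ P.filter (fun x : ℕ × ℕ => MCC.NE (Real.exp w) (1 / 40) x.1 x.2),
      volume (Set.Icc a b ∩ (EE β γ p.1 ∩ EE β γ p.2)) ≤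
      ENNReal.ofReal ((20 * B * σ * Real.exp w / w) ^ 2 * (C * (b - a) / w ^ 6)) := by
    have h1 : ∀ p ∈ P.filter (fun x : ℕ × ℕ => MCC.NE (Real.exp w) (1 / 40) x.1 x.2),
        volume (Set.Icc a b ∩ (EE β γ p.1 ∩ EE β γ p.2)) ≤ ENNReal.ofReal (C * (b - a) / w ^ 6) := by
      intro p hp
      rw [Finset.mem_filter, hP, Finset.mem_product] at hp
      obtain ⟨⟨hp1, hp2⟩, hne⟩ := hp
      refine le_trans (measure_mono ?_) (hX p.1 p.2 (hlow _ hp1) (hup _ hp1) (hlow _ hp2)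
        (hup _ hp2) hne)
      rintro t ⟨ht1, ⟨ht2, ht3, ht4⟩, ht5, ht6, ht7⟩
      refine ⟨ht1, fun i => ?_⟩
      fin_cases i
      · exact ht2
      · exact ht3
      · exact ht4
      · exact ht5
      · exact ht6
      · exact ht7
    refine (Finset.sum_le_sum h1).trans ?_
    rw [Finset.sum_const, nsmul_eq_mul, ← ENNReal.ofReal_natCast,
      ← ENNReal.ofReal_mul (by positivity)]
    apply ENNReal.ofReal_le_ofReal
    apply mul_le_mul_of_nonneg_right _ (by positivity)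
    have h2 : ((P.filter (fun x : ℕ × ℕ => MCC.NE (Real.exp w) (1 / 40) x.1 x.2)).card : ℝ) ≤
        (P.card : ℝ) := by exact_mod_cast Finset.card_filter_le _ _
    refine h2.trans ?_
    rw [hP, Finset.card_product, Nat.cast_mul, sq]
    exact mul_le_mul hcard hcard (by positivity) (le_trans (Nat.cast_nonneg _) hcard)
  have hS2 : ∑ p ∈ P.filter (fun x : ℕ × ℕ => ¬ MCC.NE (Real.exp w) (1 / 40) x.1 x.2),
      volume (Set.Icc a b ∩ (EE β γ p.1 ∩ EE β γ p.2)) ≤
      ENNReal.ofReal (Real.exp w ^ (2 - 1 / 40 : ℝ) * (b - a)) := by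
    have h1 : ∀ p ∈ P.filter (fun x : ℕ × ℕ => ¬ MCC.NE (Real.exp w) (1 / 40) x.1 x.2),
        volume (Set.Icc a b ∩ (EE β γ p.1 ∩ EE β γ p.2)) ≤ ENNReal.ofReal (b - a) := by
      intro p _
      refine le_trans (measure_mono Set.inter_subset_left) ?_
      rw [Real.volume_Icc]
    refine (Finset.sum_le_sum h1).trans ?_
    rw [Finset.sum_const, nsmul_eq_mul, ← ENNReal.ofReal_natCast,
      ← ENNReal.ofReal_mul (by positivity)]
    apply ENNReal.ofReal_le_ofReal
    apply mul_le_mul_of_nonneg_right _ hba.le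
    refine le_trans ?_ hNE
    have hsub : P.filter (fun x : ℕ × ℕ => ¬ MCC.NE (Real.exp w) (1 / 40) x.1 x.2) ⊆
        ((Finset.Icc 1 ⌊2 * B * Real.exp w⌋₊) ×ˢ (Finset.Icc 1 ⌊2 * B * Real.exp w⌋₊)).filter
          fun x : ℕ × ℕ => ¬ MCC.NE (Real.exp w) (1 / 40) x.1 x.2 := by
      intro p hp
      rw [Finset.mem_filter, hP, Finset.mem_product] at hp
      rw [Finset.mem_filter, Finset.mem_product, Finset.mem_Icc, Finset.mem_Icc]
      have e1 : ∀ m ∈ SS σ w μ, 1 ≤ m := by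
        intro m hm
        unfold SS at hm
        rw [Finset.mem_filter, Finset.mem_Icc] at hm
        exact hm.1.1
      exact ⟨⟨⟨e1 _ hp.1.1, Nat.le_floor (hup _ hp.1.1)⟩, e1 _ hp.1.2,
        Nat.le_floor (hup _ hp.1.2)⟩, hp.2⟩
    have h2 := Finset.card_le_card hsub
    have h3 : ((P.filter (fun x : ℕ × ℕ => ¬ MCC.NE (Real.exp w) (1 / 40) x.1 x.2)).card : ℝ) ≤
        ((((Finset.Icc 1 ⌊2 * B * Real.exp w⌋₊) ×ˢ (Finset.Icc 1 ⌊2 * B * Real.exp w⌋₊)).filter
          fun x : ℕ × ℕ => ¬ MCC.NE (Real.exp w) (1 / 40) x.1 x.2).card : ℝ) := by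
      exact_mod_cast h2
    refine h3.trans (le_of_eq ?_)
    congr
  refine (add_le_add hS1 hS2).trans ?_
  rw [← ENNReal.ofReal_add (by positivity) (by positivity)]
  apply ENNReal.ofReal_le_ofReal
  have e2 : Real.exp w ^ (2 - 1 / 40 : ℝ) = Real.exp (2 * w) * Real.exp (-(1 / 40) * w) := by
    rw [← Real.exp_mul, ← Real.exp_add]
    congr 1
    ring
  have e3 : Real.exp (2 * w) = Real.exp w ^ 2 := by
    rw [← Real.exp_nat_mul]
    norm_num
  have e4 : Real.exp w ^ (2 - 1 / 40 : ℝ) ≤ σ ^ 2 * Real.exp (2 * w) / w ^ 8 := by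
    rw [e2, le_div_iff₀ (by positivity)]
    have := mul_le_mul_of_nonneg_left hd.le (Real.exp_pos (2 * w)).le
    calc Real.exp (2 * w) * Real.exp (-(1 / 40) * w) * w ^ 8
        = Real.exp (2 * w) * (w ^ 8 * Real.exp (-(1 / 40) * w)) := by ring
      _ ≤ Real.exp (2 * w) * σ ^ 2 := this
      _ = σ ^ 2 * Real.exp (2 * w) := by ring
  have e5 : Real.exp w ^ (2 - 1 / 40 : ℝ) * (b - a) ≤
      σ ^ 2 * Real.exp (2 * w) / w ^ 8 * (b - a) := mul_le_mul_of_nonneg_right e4 hba.le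
  have e6 : (20 * B * σ * Real.exp w / w) ^ 2 * (C * (b - a) / w ^ 6) =
      C * (20 * B) ^ 2 * σ ^ 2 * (b - a) * Real.exp (2 * w) / w ^ 8 := by
    rw [e3]
    field_simp
  rw [e6]
  refine (add_le_add_right e5 _).trans (le_of_eq ?_)
  ring

end SMD
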