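import Pool.Agent.SMD.MainQ4
import Pool.Agent.SMD.DenL
import Pool.Agent.SMC.FinQ

/-!
# SMD.DenQ4: exact length 4 on a set of scales of positive upper density

PROOF. As `FinQ4`, with `dens_ae` (file `DenL`) in place of the limsup of the sets: for almost every `α > 1` and all `β` the set of the `n` for which at least
`c e^n/n^4` of the `p ≤ e^n` start a chain of exact length `4` has upper density at least `c`.
-/

namespace SMD

open MeasureTheory Filter SMC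

/-- One step of the map, with a margin. -/
private theorem T_eqQ4 {ε β β' α : ℝ} {q m : ℕ} (hβ : |β' - β| < ε) (h1 : (m : ℝ) + ε ≤ α * q + β)
    (h2 : α * q + β ≤ m + 1 - ε) : T α β' q = m := by
  have h3 := abs_lt.1 hβ
  have h4 : (m : ℝ) ≤ α * q + β' := by linarith [h3.1]
  have h5 : α * q + β' < m + 1 := by linarith [h3.2]
  have h0 : (0 : ℝ) ≤ α * q + β' := le_trans (Nat.cast_nonneg m) h4
  exact (Nat.floor_eq_iff h0).2 ⟨h4, h5⟩

private theorem rob_measQ4 (ε β : ℝ) (p m l r : ℕ) : MeasurableSet {t : ℝ | Rob4 ε β t p m l r} := by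
  have e : {t : ℝ | Rob4 ε β t p m l r} = {t : ℝ | p.Prime} ∩ ({t : ℝ | m.Prime} ∩ ({t : ℝ | l.Prime} ∩
      ({t : ℝ | r.Prime} ∩ ({t : ℝ | (m : ℝ) + ε ≤ t * p + β} ∩ ({t : ℝ | t * p + β ≤ m + 1 - ε} ∩
      ({t : ℝ | (l : ℝ) + ε ≤ t * m + β} ∩ ({t : ℝ | t * m + β ≤ l + 1 - ε} ∩
      ({t : ℝ | (r : ℝ) + ε ≤ t * l + β} ∩ ({t : ℝ | t * l + β ≤ r + 1 - ε} ∩
      ⋃ s : ℕ, ({t : ℝ | Even s} ∩ ({t : ℝ | 4 ≤ s} ∩ ({t : ℝ | (s : ℝ) + ε ≤ t * r + β} ∩
        {t : ℝ | t * r + β ≤ s + 1 - ε})))))))))))) := by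
    ext t
    simp only [Set.mem_ofPred_eq, Rob4, Ch4, Ch, Set.mem_inter_iff, Set.mem_iUnion]
  rw [e]
  have m1 : ∀ (a b c : ℝ), MeasurableSet {t : ℝ | c ≤ t * a + b} := fun a b c =>
    measurableSet_le measurable_const (by fun_prop)
  have m2 : ∀ (a b c : ℝ), MeasurableSet {t : ℝ | t * a + b ≤ c} := fun a b c =>
    measurableSet_le (by fun_prop) measurable_const
  refine (MeasurableSet.const _).inter ((MeasurableSet.const _).inter ((MeasurableSet.const _).inter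
    ((MeasurableSet.const _).inter ((m1 _ _ _).inter ((m2 _ _ _).inter ((m1 _ _ _).inter ((m2 _ _ _).inter
      ((m1 _ _ _).inter ((m2 _ _ _).inter
      (MeasurableSet.iUnion fun s => ?_))))))))))
  exact (MeasurableSet.const _).inter ((MeasurableSet.const _).inter ((m1 _ _ _).inter (m2 _ _ _)))

private theorem cnt_meas4 (ε β w : ℝ) : Measurable fun t : ℝ => (cntR4 ε β w t : ℝ) := by
  classical
  have e : (fun t : ℝ => (cntR4 ε β w t : ℝ)) = fun t : ℝ => ∑ p ∈ Finset.Icc 1 ⌊Real.exp (w + 2)⌋₊,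
      Set.indicator {t : ℝ | ∃ m l r : ℕ, Rob4 ε β t p m l r} (fun _ => (1 : ℝ)) t := by
    funext t
    unfold cntR4
    rw [Finset.card_filter]
    push_cast
    refine Finset.sum_congr rfl fun p _ => ?_
    by_cases h : ∃ m l r : ℕ, Rob4 ε β t p m l r
    · rw [if_pos h, Set.indicator_of_mem (show t ∈ {t : ℝ | ∃ m l r : ℕ, Rob4 ε β t p m l r} from h)]
    · rw [if_neg h, Set.indicator_of_notMem (show t ∉ {t : ℝ | ∃ m l r : ℕ, Rob4 ε β t p m l r} from h)]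
  rw [e]
  refine Finset.measurable_sum _ fun p _ => measurable_const.indicator ?_
  have e2 : {t : ℝ | ∃ m l r : ℕ, Rob4 ε β t p m l r} =
      ⋃ m : ℕ, ⋃ l : ℕ, ⋃ r : ℕ, {t : ℝ | Rob4 ε β t p m l r} := by
    ext t
    simp only [Set.mem_ofPred_eq, Set.mem_iUnion]
  rw [e2]
  exact MeasurableSet.iUnion fun m => MeasurableSet.iUnion fun l => MeasurableSet.iUnion fun r =>
    rob_measQ4 ε β p m l r

private theorem ae_oneQ4 {A B ε : ℝ} (hA : 1 < A) (hAB : A < B) (hε : 0 < ε) (hε1 : ε ≤ 1 / 4)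
    (hε2 : ε ≤ (A - 1) / (8 * (A + 1))) : ∃ c1 d1 : ℝ, 0 < c1 ∧ 0 < d1 ∧ ∀ β : ℝ,
    ∀ᵐ α : ℝ, A ≤ α → α ≤ B → ∃ᶠ N : ℕ in atTop,
      d1 * N ≤ (((Finset.range N).filter fun n : ℕ =>
        c1 * (Real.exp (n : ℝ) / (n : ℝ) ^ 4) ≤ (cntR4 ε β (n : ℝ) α : ℝ)).card : ℝ) := by
  obtain ⟨c1, c, hc1, hc, hmain⟩ := main_pos4 hA hAB hε hε1 hε2
  refine ⟨c1, c / 8, hc1, by positivity, fun β => ?_⟩
  obtain ⟨ρ0, hρ0, hpos⟩ := hmain β
  let G : ℕ → Set ℝ := fun n => {t : ℝ | c1 * (Real.exp (n : ℝ) / (n : ℝ) ^ 4) ≤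
    (cntR4 ε β (n : ℝ) t : ℝ)}
  have hG : ∀ n, MeasurableSet (G n) := fun n =>
    measurableSet_le measurable_const (cnt_meas4 ε β (n : ℝ))
  have h1 := dens_ae hG (A := A) (B := B) hc hρ0 (fun μ ρ h1 h2 h3 h4 => by
    have hev := tendsto_natCast_atTop_atTop.eventually (hpos μ ρ h1 h2 h3 h4)
    filter_upwards [hev] with n hn
    refine hn.trans (measure_mono ?_)
    rintro t ⟨h5, h6⟩
    refine ⟨h6, ?_⟩
    rw [Metric.mem_closedBall, Real.dist_eq]
    exact h5)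
  filter_upwards [h1] with x hx hxA hxB
  refine (hx hxA hxB).mono fun N hN => ?_
  refine hN.trans (le_of_eq ?_)
  congr 2

/-- A robust chain of length four starts a chain of exact length four. -/
private theorem starts4 {ε β β' α : ℝ} (hβ : |β' - β| < ε) {p m l r : ℕ} (h : Rob4 ε β α p m l r) :
    StartsExact α β' p 4 := by
  obtain ⟨hpp, hmp, hlp, hrp, h1, h2, h3, h4, h7, h8, s, hs, hs4, h5, h6⟩ := h
  have t1 := T_eqQ4 hβ h1 h2
  have t2 := T_eqQ4 hβ h3 h4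
  have t3 := T_eqQ4 hβ h7 h8
  have t4 := T_eqQ4 hβ h5 h6
  have hsn : ¬ s.Prime := by
    intro hsp
    have := (hsp.even_iff).1 hs
    omega
  have e4 : (T α β')^[4] p = s := by
    rw [Function.iterate_succ_apply, Function.iterate_succ_apply, Function.iterate_succ_apply,
      Function.iterate_one, t1, t2, t3, t4]
  refine ⟨?_, ?_, ?_⟩
  · intro i hi
    have : i = 0 ∨ i = 1 ∨ i = 2 ∨ i = 3 := by omega
    rcases this with rfl | rfl | rfl | rfl
    · exact hpp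
    · rw [Function.iterate_one, t1]; exact hmp
    · rw [Function.iterate_succ_apply, Function.iterate_one, t1, t2]; exact hlp
    · rw [Function.iterate_succ_apply, Function.iterate_succ_apply, Function.iterate_one, t1, t2, t3]
      exact hrp
  · rw [e4]; omega
  · rw [e4]; exact hsn

private theorem cnt_le4 {ε β β' α : ℝ} (hβ : |β' - β| < ε) (w : ℝ) {X : ℕ}
    (hX : Real.exp (w + 2) ≤ X) : cntR4 ε β w α ≤ count α β' 4 X := by
  classical
  have hexp := Real.exp_pos (w + 2)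
  unfold cntR4 count
  refine Finset.card_le_card ?_
  intro p hp
  rw [Finset.mem_filter, Finset.mem_Icc] at hp
  obtain ⟨⟨hp1, hp2⟩, m, l, r, hr⟩ := hp
  have hp3 : (p : ℝ) ≤ Real.exp (w + 2) := (Nat.le_floor_iff hexp.le).1 hp2
  rw [Finset.mem_filter, Finset.mem_Icc]
  refine ⟨⟨hp1, ?_⟩, starts4 hβ hr⟩
  exact_mod_cast hp3.trans hX

theorem final4d : ∀ᵐ α : ℝ, 1 < α → ∃ c : ℝ, 0 < c ∧ ∀ β : ℝ,
    ∃ᶠ N : ℕ in atTop, c * N ≤ (((Finset.range N).filter fun n : ℕ =>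
      c * (Real.exp (n : ℝ) / (n : ℝ) ^ 4) ≤ (count α β 4 ⌊Real.exp (n : ℝ)⌋₊ : ℝ)).card : ℝ) := by
  let A : ℕ → ℝ := fun k => 1 + 1 / ((k : ℝ) + 1)
  let B : ℕ → ℝ := fun k => (k : ℝ) + 3
  let e : ℕ → ℝ := fun k => min (1 / 4) ((A k - 1) / (8 * (A k + 1)))
  have hA : ∀ k, 1 < A k := fun k => by
    have : (0 : ℝ) < 1 / ((k : ℝ) + 1) := by positivity
    simp only [A]; linarith
  have hAB : ∀ k, A k < B k := fun k => by
    have h1 : (1 : ℝ) / ((k : ℝ) + 1) ≤ 1 := by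
      rw [div_le_one (by positivity)]
      have : (0 : ℝ) ≤ k := Nat.cast_nonneg k
      linarith
    have : (0 : ℝ) ≤ k := Nat.cast_nonneg k
    simp only [A, B]; linarith
  have he : ∀ k, 0 < e k := fun k => by
    have h1 := hA k
    refine lt_min (by norm_num) (div_pos (by linarith) (by linarith))
  choose c1 d1 hc1 hd1 hae using fun k => ae_oneQ4 (hA k) (hAB k) (he k) (min_le_left _ _) (min_le_right _ _)
  have key : ∀ᵐ α : ℝ, ∀ (k : ℕ) (j : ℤ), A k ≤ α → α ≤ B k → ∃ᶠ N : ℕ in atTop,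
      d1 k * N ≤ (((Finset.range N).filter fun n : ℕ =>
        c1 k * (Real.exp (n : ℝ) / (n : ℝ) ^ 4) ≤ (cntR4 (e k) (e k / 2 * j) (n : ℝ) α : ℝ)).card : ℝ) := by
    rw [ae_all_iff]
    intro k
    rw [ae_all_iff]
    intro j
    exact hae k _
  filter_upwards [key] with α hα h1
  obtain ⟨k1, hk1⟩ := exists_nat_gt (1 / (α - 1))
  obtain ⟨k2, hk2⟩ := exists_nat_gt α
  let k := max k1 k2
  have hk1' : (k1 : ℝ) ≤ k := by exact_mod_cast le_max_left k1 k2
  have hk2' : (k2 : ℝ) ≤ k := by exact_mod_cast le_max_right k1 k2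
  have hAk : A k ≤ α := by
    have h2 : 0 < α - 1 := by linarith
    have h3 : 1 / (α - 1) < (k : ℝ) + 1 := by linarith
    have h4 : 1 / ((k : ℝ) + 1) < α - 1 := by
      rw [div_lt_comm₀ (by positivity) h2]
      exact h3
    simp only [A]; linarith
  have hBk : α ≤ B k := by simp only [B]; linarith
  have hek := he k
  have hc1k := hc1 k
  have hd1k := hd1 k
  set c : ℝ := min (c1 k / 32) (d1 k / 2) with hcdef
  have hc0 : 0 < c := lt_min (by positivity) (by positivity)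
  have hcc : c ≤ c1 k / 32 := min_le_left _ _
  have hcd : c ≤ d1 k / 2 := min_le_right _ _
  refine ⟨c, hc0, fun β' => ?_⟩
  let j : ℤ := round (β' / (e k / 2))
  have hj : |β' - e k / 2 * j| < e k := by
    have h2 := abs_sub_round (β' / (e k / 2))
    have h3 : β' - e k / 2 * j = (e k / 2) * (β' / (e k / 2) - j) := by
      field_simp
    rw [h3, abs_mul, abs_of_pos (by linarith : (0 : ℝ) < e k / 2)]
    have h4 : (e k / 2) * |β' / (e k / 2) - j| ≤ (e k / 2) * (1 / 2) :=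
      mul_le_mul_of_nonneg_left h2 (by linarith)
    linarith
  have hfreq := hα k j hAk hBk
  -- the scale `n` becomes `n + 3`
  have hstep : ∀ n : ℕ, c1 k * (Real.exp (n : ℝ) / (n : ℝ) ^ 4) ≤ (cntR4 (e k) (e k / 2 * j) (n : ℝ) α : ℝ) →
      1 ≤ n → c * (Real.exp ((n + 3 : ℕ) : ℝ) / ((n + 3 : ℕ) : ℝ) ^ 4) ≤
        (count α β' 4 ⌊Real.exp ((n + 3 : ℕ) : ℝ)⌋₊ : ℝ) := by
    intro n hn hn1
    have hn0 : (0 : ℝ) < n := by exact_mod_cast hn1
    have hX : Real.exp ((n : ℝ) + 2) ≤ (⌊Real.exp ((n + 3 : ℕ) : ℝ)⌋₊ : ℝ) := by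
      have h2 : Real.exp ((n + 3 : ℕ) : ℝ) = Real.exp 1 * Real.exp ((n : ℝ) + 2) := by
        rw [← Real.exp_add]
        congr 1
        push_cast
        ring
      have h3 : Real.exp ((n + 3 : ℕ) : ℝ) < (⌊Real.exp ((n + 3 : ℕ) : ℝ)⌋₊ : ℝ) + 1 := Nat.lt_floor_add_one _
      have h4 := Real.exp_one_gt_d9
      have h5 : (1 : ℝ) ≤ Real.exp ((n : ℝ) + 2) := Real.one_le_exp (by positivity)
      nlinarith
    have h4 : (cntR4 (e k) (e k / 2 * j) (n : ℝ) α : ℝ) ≤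
        (count α β' 4 ⌊Real.exp ((n + 3 : ℕ) : ℝ)⌋₊ : ℝ) := by
      exact_mod_cast cnt_le4 hj (n : ℝ) hX
    refine le_trans (le_trans ?_ hn) h4
    have h5 : Real.exp ((n + 3 : ℕ) : ℝ) ≤ 32 * Real.exp (n : ℝ) := by
      have h6 : Real.exp ((n + 3 : ℕ) : ℝ) = Real.exp 1 * Real.exp 1 * Real.exp 1 * Real.exp (n : ℝ) := by
        rw [← Real.exp_add, ← Real.exp_add, ← Real.exp_add]
        congr 1
        push_cast
        ring
      rw [h6]
      refine mul_le_mul_of_nonneg_right ?_ (Real.exp_pos _).le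
      have h9 := Real.exp_one_lt_d9
      have h10 := Real.exp_pos 1
      have h11 : Real.exp 1 ≤ 3 := by linarith
      calc Real.exp 1 * Real.exp 1 * Real.exp 1 ≤ 3 * 3 * 3 := by gcongr
        _ ≤ 32 := by norm_num
    have h7 : Real.exp ((n + 3 : ℕ) : ℝ) / ((n + 3 : ℕ) : ℝ) ^ 4 ≤ 32 * Real.exp (n : ℝ) / (n : ℝ) ^ 4 := by
      refine div_le_div₀ (by positivity) h5 (by positivity) ?_
      refine pow_le_pow_left₀ hn0.le ?_ 4
      push_cast
      linarith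
    calc c * (Real.exp ((n + 3 : ℕ) : ℝ) / ((n + 3 : ℕ) : ℝ) ^ 4)
        ≤ c1 k / 32 * (32 * Real.exp (n : ℝ) / (n : ℝ) ^ 4) := by gcongr
      _ = c1 k * (Real.exp (n : ℝ) / (n : ℝ) ^ 4) := by ring
  -- the numbers of the scales
  have hten : Tendsto (fun N : ℕ => N + 3) atTop atTop := tendsto_add_atTop_nat 3
  refine hten.frequently ?_
  refine (hfreq.and_eventually (eventually_ge_atTop (⌈(2 + 6 * c) / d1 k⌉₊ + 3))).mono ?_
  rintro N ⟨h2, hN1⟩
  have hN3 : (3 : ℝ) ≤ N := by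
    have : 3 ≤ N := by omega
    exact_mod_cast this
  have hN4 : (2 + 6 * c) / d1 k ≤ N := by
    refine (Nat.le_ceil _).trans ?_
    have : ⌈(2 + 6 * c) / d1 k⌉₊ ≤ N := by omega
    exact_mod_cast this
  have hN5 : 2 + 6 * c ≤ d1 k * N := by
    rw [div_le_iff₀ hd1k] at hN4
    linarith
  have hcard : (((Finset.range N).filter fun n : ℕ =>
      c1 k * (Real.exp (n : ℝ) / (n : ℝ) ^ 4) ≤ (cntR4 (e k) (e k / 2 * j) (n : ℝ) α : ℝ)).card) ≤
      (((Finset.range (N + 3)).filter fun n : ℕ =>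
        c * (Real.exp (n : ℝ) / (n : ℝ) ^ 4) ≤ (count α β' 4 ⌊Real.exp (n : ℝ)⌋₊ : ℝ)).card) + 1 := by
    have h3 : ((Finset.range N).filter fun n : ℕ =>
        c1 k * (Real.exp (n : ℝ) / (n : ℝ) ^ 4) ≤ (cntR4 (e k) (e k / 2 * j) (n : ℝ) α : ℝ)).card ≤
        (insert 0 (((Finset.range N).filter fun n : ℕ =>
          c1 k * (Real.exp (n : ℝ) / (n : ℝ) ^ 4) ≤ (cntR4 (e k) (e k / 2 * j) (n : ℝ) α : ℝ)).erase 0)).card := by
      refine Finset.card_le_card ?_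
      intro n hn
      by_cases h0 : n = 0
      · rw [h0]
        exact Finset.mem_insert_self _ _
      · exact Finset.mem_insert_of_mem (Finset.mem_erase.2 ⟨h0, hn⟩)
    refine h3.trans ((Finset.card_insert_le _ _).trans (Nat.add_le_add_right ?_ 1))
    refine Finset.card_le_card_of_injOn (fun n => n + 3) ?_ ?_
    · intro n hn
      rw [Finset.mem_coe, Finset.mem_erase, Finset.mem_filter, Finset.mem_range] at hn
      obtain ⟨h4, h5, h6⟩ := hn
      rw [Finset.mem_coe, Finset.mem_filter, Finset.mem_range]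
      refine ⟨?_, hstep n h6 (by omega)⟩
      show n + 3 < N + 3
      omega
    · intro a _ b _ hab
      exact Nat.add_right_cancel hab
  have hcard' : (((Finset.range N).filter fun n : ℕ =>
      c1 k * (Real.exp (n : ℝ) / (n : ℝ) ^ 4) ≤ (cntR4 (e k) (e k / 2 * j) (n : ℝ) α : ℝ)).card : ℝ) ≤
      (((Finset.range (N + 3)).filter fun n : ℕ =>
        c * (Real.exp (n : ℝ) / (n : ℝ) ^ 4) ≤ (count α β' 4 ⌊Real.exp (n : ℝ)⌋₊ : ℝ)).card : ℝ) + 1 := by
    exact_mod_cast hcard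
  have h8 : c * ((N + 3 : ℕ) : ℝ) ≤ d1 k * N - 1 := by
    push_cast
    have h9 : c * N ≤ d1 k / 2 * N := mul_le_mul_of_nonneg_right hcd (by linarith)
    linarith
  linarith

end SMD
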