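import Pool.Agent.SMD.Defs

/-!
# SMD.BoxQ: from the weighted sum over the box to the number of the prime quadruples

`BX4` is the box of `PQ` without the condition that the numbers are primes. `pq_of_box`: if
`3 δ ≤ e^(2w) ∑_{q ∈ BX4} tw tw tw tw` for all large `w` then the number of the prime quadruples in the box is
`≥ c δ e^(2w)/w^4`.

PROOF. In the box all `log q_i` are between `w - 2` and `w + 3 log μ + 2`, so the weights are `≤ (2w e^(2-w))^4`. A quadruple of the box with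
`Λ ≠ 0` which is not in `PQ` contains a proper prime power. Two of the numbers (one of them the prime power) determine the other two up to
`(D+1)²` possibilities, so there are at most `C w e^(3w/2)` such quadruples.
-/

namespace SMD

open MeasureTheory ArithmeticFunction Filter SMC

/-- The box. -/
def BX4 (σ κ w μ h1 h2 : ℝ) : Set (ℕ × ℕ × ℕ × ℕ) :=
  {q | 1 ≤ q.1 ∧ 1 ≤ q.2.1 ∧ 1 ≤ q.2.2.1 ∧ 1 ≤ q.2.2.2 ∧ |Real.log q.1 - w| ≤ 4 * σ ∧
    |Real.log q.2.1 - w - Real.log μ| ≤ 4 * σ ∧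
    |Real.exp w * (Real.log q.1 - 2 * Real.log q.2.1 + Real.log q.2.2.1) - h1| ≤ 4 * κ ∧
    |Real.exp w * (2 * Real.log q.1 - 3 * Real.log q.2.1 + Real.log q.2.2.2) - h2| ≤ 4 * κ}

/-- The weight of a quadruple. -/
noncomputable def tw4 (q : ℕ × ℕ × ℕ × ℕ) : ℝ := tw q.1 * tw q.2.1 * tw q.2.2.1 * tw q.2.2.2

theorem tw_nonneg' (n : ℕ) : 0 ≤ tw n := by
  unfold tw
  exact div_nonneg vonMangoldt_nonneg (Nat.cast_nonneg n)

theorem tw4_nonneg (q : ℕ × ℕ × ℕ × ℕ) : 0 ≤ tw4 q :=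
  mul_nonneg (mul_nonneg (mul_nonneg (tw_nonneg' _) (tw_nonneg' _)) (tw_nonneg' _)) (tw_nonneg' _)

private theorem win {w v h k : ℝ} (hv : |Real.exp w * v - h| ≤ k) :
    (h - k) * Real.exp (-w) ≤ v ∧ v ≤ (h + k) * Real.exp (-w) := by
  have e2 : Real.exp (-w) * Real.exp w = 1 := by
    rw [← Real.exp_add, neg_add_cancel, Real.exp_zero]
  have e3 : v = Real.exp (-w) * (Real.exp w * v) := by
    rw [← mul_assoc, e2, one_mul]
  obtain ⟨a1, a2⟩ := abs_le.1 hv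
  have hp := (Real.exp_pos (-w)).le
  constructor
  · rw [e3, mul_comm]
    exact mul_le_mul_of_nonneg_left (by linarith) hp
  · rw [e3, mul_comm]
    rw [mul_comm (h + k)]
    rw [mul_comm (Real.exp w * v)]
    exact mul_le_mul_of_nonneg_left (by linarith) hp

theorem BX4_finite (σ κ w μ h1 h2 : ℝ) : (BX4 σ κ w μ h1 h2).Finite := by
  have le_of_log : ∀ {n : ℕ}, 1 ≤ n → ∀ {z : ℝ}, Real.log n ≤ z → n ≤ ⌊Real.exp z⌋₊ := by
    intro n hn z h
    apply Nat.le_floor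
    have hn0 : (0 : ℝ) < n := by exact_mod_cast hn
    exact (Real.log_le_iff_le_exp hn0).1 h
  obtain ⟨K, hK⟩ : ∃ K : ℝ, K = |w| + |Real.log μ| + |4 * σ| + |(h1 + 4 * κ) * Real.exp (-w)| +
    |(h2 + 4 * κ) * Real.exp (-w)| := ⟨_, rfl⟩
  refine Set.Finite.subset (((Finset.range (⌊Real.exp (5 * K)⌋₊ + 1)) ×ˢ
    ((Finset.range (⌊Real.exp (5 * K)⌋₊ + 1)) ×ˢ
      ((Finset.range (⌊Real.exp (5 * K)⌋₊ + 1)) ×ˢ
      (Finset.range (⌊Real.exp (5 * K)⌋₊ + 1))))).finite_toSet) ?_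
  rintro ⟨a, b, c, d⟩ ⟨u1, u2, u3, u4, u5, u6, u7, u8⟩
  simp only at u1 u2 u3 u4 u5 u6 u7 u8
  obtain ⟨v1, v2⟩ := abs_le.1 u5
  obtain ⟨v3, v4⟩ := abs_le.1 u6
  have v5 := (win u7).2
  have v6 := (win u8).2
  have n1 := abs_nonneg w
  have n2 := abs_nonneg (Real.log μ)
  have n3 := abs_nonneg (4 * σ)
  have n4 := abs_nonneg ((h1 + 4 * κ) * Real.exp (-w))
  have n5 := abs_nonneg ((h2 + 4 * κ) * Real.exp (-w))
  have p1 := le_abs_self w
  have p1' := neg_abs_le w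
  have p2 := le_abs_self (Real.log μ)
  have p3 := le_abs_self (4 * σ)
  have p4 := le_abs_self ((h1 + 4 * κ) * Real.exp (-w))
  have p5 := le_abs_self ((h2 + 4 * κ) * Real.exp (-w))
  have e1 := le_of_log u1 (z := 5 * K) (by linarith)
  have e2 := le_of_log u2 (z := 5 * K) (by linarith)
  have e3 := le_of_log u3 (z := 5 * K) (by linarith)
  have e4 := le_of_log u4 (z := 5 * K) (by linarith)
  simp only [Finset.coe_product, Set.mem_prod, Finset.mem_coe, Finset.mem_range]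
  exact ⟨by omega, by omega, by omega, by omega⟩

theorem PQ_sub (σ κ w μ h1 h2 : ℝ) : PQ σ κ w μ h1 h2 ⊆ BX4 σ κ w μ h1 h2 := by
  rintro q ⟨a1, a2, a3, a4, a5⟩
  exact ⟨a1.one_lt.le, a2.one_lt.le, a3.one_lt.le, a4.one_lt.le, a5⟩

/-- The proper prime powers up to `Y`. -/
private noncomputable def LPP (Y : ℝ) : Finset ℕ :=
  open Classical in (Finset.Ioc 0 ⌊Y⌋₊).filter fun n => ¬ n.Prime ∧ vonMangoldt n ≠ 0

private theorem LPP_card {Y : ℝ} (hY : 1 ≤ Y) : ((LPP Y).card : ℝ) ≤ 4 * √Y * Real.log Y := by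
  classical
  have h1 : ((LPP Y).card : ℝ) * Real.log 2 ≤ Chebyshev.psi Y - Chebyshev.theta Y := by
    rw [Chebyshev.psi_sub_theta_eq_sum_not_prime, ← nsmul_eq_mul]
    calc (LPP Y).card • Real.log 2 ≤ ∑ n ∈ LPP Y, vonMangoldt n := by
          refine Finset.card_nsmul_le_sum _ _ _ fun n hn => ?_
          have h2 : ¬ n.Prime ∧ vonMangoldt n ≠ 0 := (Finset.mem_filter.1 hn).2
          have h3 : IsPrimePow n := vonMangoldt_ne_zero_iff.1 h2.2
          rw [vonMangoldt_apply, if_pos h3]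
          have h4 : 2 ≤ n.minFac := (Nat.minFac_prime h3.ne_one).two_le
          exact Real.log_le_log (by norm_num) (by exact_mod_cast h4)
      _ ≤ _ := by
          refine Finset.sum_le_sum_of_subset_of_nonneg ?_ fun _ _ _ => vonMangoldt_nonneg
          intro n hn
          obtain ⟨h2, h3, -⟩ := Finset.mem_filter.1 hn
          exact Finset.mem_filter.2 ⟨h2, h3⟩
  have h2 := Chebyshev.psi_sub_theta_le hY
  have h3 : (1 : ℝ) / 2 ≤ Real.log 2 := by
    have := Real.log_two_gt_d9; linarith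
  have h4 : (0 : ℝ) ≤ (LPP Y).card := by positivity
  nlinarith

/-- A finite set of natural numbers of small diameter. -/
private theorem card_of_diam {S : Finset ℕ} {D : ℕ} (h : ∀ x ∈ S, ∀ y ∈ S, (y : ℝ) - x ≤ D) :
    S.card ≤ D + 1 := by
  rcases S.eq_empty_or_nonempty with rfl | hne
  · simp
  · have h1 : S ⊆ Finset.Icc (S.min' hne) (S.min' hne + D) := by
      intro y hy
      rw [Finset.mem_Icc]
      refine ⟨S.min'_le y hy, ?_⟩
      have h2 := h _ (S.min'_mem hne) y hy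
      have h3 : (y : ℝ) ≤ ((S.min' hne + D : ℕ) : ℝ) := by push_cast; linarith
      exact_mod_cast h3
    refine (Finset.card_le_card h1).trans ?_
    rw [Nat.card_Icc]; omega

/-- Two coordinates of small diameter. -/
private theorem card_two {S : Finset (ℕ × ℕ × ℕ × ℕ)} {D : ℕ} (g k : ℕ × ℕ × ℕ × ℕ → ℕ)
    (hg : ∀ x ∈ S, ∀ y ∈ S, (g y : ℝ) - g x ≤ D)
    (hk : ∀ x ∈ S, ∀ y ∈ S, g x = g y → (k y : ℝ) - k x ≤ D)
    (hinj : ∀ x ∈ S, ∀ y ∈ S, g x = g y → k x = k y → x = y) : S.card ≤ (D + 1) ^ 2 := by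
  have h1 : S.card ≤ (D + 1) * (S.image g).card := by
    refine Finset.card_le_mul_card_image _ _ fun c _ => ?_
    have hi : Set.InjOn k (S.filter fun q => g q = c : Finset (ℕ × ℕ × ℕ × ℕ)) := by
      intro q hq q' hq' hqq
      rw [Finset.mem_coe, Finset.mem_filter] at hq hq'
      exact hinj q hq.1 q' hq'.1 (hq.2.trans hq'.2.symm) hqq
    rw [← Finset.card_image_of_injOn hi]
    refine card_of_diam ?_
    intro x hx y hy
    obtain ⟨q, hq, rfl⟩ := Finset.mem_image.1 hx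
    obtain ⟨q', hq', rfl⟩ := Finset.mem_image.1 hy
    rw [Finset.mem_filter] at hq hq'
    exact hk q hq.1 q' hq'.1 (hq.2.trans hq'.2.symm)
  have h2 : (S.image g).card ≤ D + 1 := by
    refine card_of_diam ?_
    intro x hx y hy
    obtain ⟨q, hq, rfl⟩ := Finset.mem_image.1 hx
    obtain ⟨q', hq', rfl⟩ := Finset.mem_image.1 hy
    exact hg q hq q' hq'
  calc S.card ≤ (D + 1) * (S.image g).card := h1
    _ ≤ (D + 1) * (D + 1) := Nat.mul_le_mul_left _ h2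
    _ = (D + 1) ^ 2 := by ring

private theorem sub_le_of_log {x y : ℕ} {Y E : ℝ} (hx : 1 ≤ x) (hy : 1 ≤ y) (hyY : (y : ℝ) ≤ Y)
    (hE : 0 ≤ E) (h : Real.log y - Real.log x ≤ E) : (y : ℝ) - x ≤ Y * E := by
  have hx0 : (0 : ℝ) < x := by exact_mod_cast hx
  have hy0 : (0 : ℝ) < y := by exact_mod_cast hy
  have h1 : 1 - (x : ℝ) / y ≤ Real.log y - Real.log x := by
    have h2 := Real.one_sub_inv_le_log_of_pos (x := (y : ℝ) / x) (by positivity)
    rw [inv_div, Real.log_div hy0.ne' hx0.ne'] at h2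
    exact h2
  have h3 : (y : ℝ) - x = y * (1 - (x : ℝ) / y) := by field_simp
  rw [h3]
  by_cases h4 : 0 ≤ 1 - (x : ℝ) / y
  · exact mul_le_mul hyY (h1.trans h) h4 (hy0.le.trans hyY)
  · have : y * (1 - (x : ℝ) / y) ≤ 0 := mul_nonpos_of_nonneg_of_nonpos hy0.le (not_le.1 h4).le
    exact this.trans (mul_nonneg (hy0.le.trans hyY) hE)

private theorem le_exp_of_log {n : ℕ} (hn : 1 ≤ n) {a : ℝ} (h : Real.log n ≤ a) :
    (n : ℝ) ≤ Real.exp a := by
  have h0 : (0 : ℝ) < n := by exact_mod_cast hn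
  rw [← Real.exp_log h0]
  exact Real.exp_le_exp.2 h

private theorem tw_le {n : ℕ} (hn : 1 ≤ n) {a b : ℝ} (h1 : a ≤ Real.log n) (h2 : Real.log n ≤ b) :
    tw n ≤ b * Real.exp (-a) := by
  have h0 : (0 : ℝ) < n := by exact_mod_cast hn
  have hl : 0 ≤ Real.log n := Real.log_nonneg (by exact_mod_cast hn)
  unfold tw
  rw [div_eq_mul_inv]
  have h3 : ((n : ℝ))⁻¹ ≤ Real.exp (-a) := by
    rw [Real.exp_neg]
    refine inv_anti₀ (Real.exp_pos a) ?_
    rw [← Real.exp_log h0]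
    exact Real.exp_le_exp.2 h1
  exact mul_le_mul (vonMangoldt_le_log.trans h2) h3 (by positivity) (hl.trans h2)

private theorem tendsto_aux (C : ℝ) :
    Tendsto (fun w : ℝ => C * (w ^ 5 * Real.exp (-(w / 2)))) atTop (nhds 0) := by
  have h1 := Real.tendsto_pow_mul_exp_neg_atTop_nhds_zero 5
  have h2 : Tendsto (fun w : ℝ => w / 2) atTop atTop := tendsto_id.atTop_div_const (by norm_num)
  have h3 := (h1.comp h2).const_mul (C * 32)
  rw [mul_zero] at h3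
  refine h3.congr fun w => ?_
  simp only [Function.comp_apply]
  ring

theorem pq_of_box {σ κ μ h1 h2 δ : ℝ} (hσ : 0 < σ) (hσ1 : σ ≤ 1 / 12) (hκ : 0 < κ) (hμ : 1 ≤ μ)
    (hδ : 0 < δ) (hbox : ∀ᶠ w : ℝ in atTop, 3 * δ ≤ Real.exp (2 * w) *
      ∑ q ∈ (BX4_finite σ κ w μ h1 h2).toFinset, tw4 q) :
    ∀ᶠ w : ℝ in atTop, (PQ σ κ w μ h1 h2).Finite ∧
      1 / (8 * Real.exp 8) * δ * Real.exp (2 * w) / w ^ 4 ≤
        ((PQ σ κ w μ h1 h2).ncard : ℝ) := by
  classical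
  have hlμ : 0 ≤ Real.log μ := Real.log_nonneg hμ
  have hμ0 : 0 < μ := lt_of_lt_of_le one_pos hμ
  set D : ℕ := ⌈μ ^ 3 * Real.exp 2 * (8 * κ)⌉₊ with hD
  set C1 : ℝ := 4 * (((D + 1 : ℕ) : ℝ)) ^ 2 * 8 * (μ ^ 3 * Real.exp 2 * √(μ ^ 3 * Real.exp 2))
    with hC1
  have hC1p : 0 ≤ C1 := by positivity
  have hev1 : ∀ᶠ w : ℝ in atTop, 16 * Real.exp 8 * C1 * (w ^ 5 * Real.exp (-(w / 2))) <
      δ := (tendsto_aux _).eventually_lt_const hδ
  have hev2 : ∀ᶠ w : ℝ in atTop, Real.exp (-w) * (|h1| + |h2| + 4 * κ) ≤ 1 / 3 := by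
    have : Tendsto (fun w : ℝ => Real.exp (-w) * (|h1| + |h2| + 4 * κ)) atTop
        (nhds (0 * (|h1| + |h2| + 4 * κ))) := Real.tendsto_exp_neg_atTop_nhds_zero.mul_const _
    rw [zero_mul] at this
    exact this.eventually_le_const (by norm_num)
  filter_upwards [hbox, hev1, hev2, eventually_ge_atTop (3 * Real.log μ + 2),
    eventually_ge_atTop (1 : ℝ)] with w hbox hw1 hwV hw2 hw3
  have hfin : (PQ σ κ w μ h1 h2).Finite := (BX4_finite σ κ w μ h1 h2).subset (PQ_sub σ κ w μ h1 h2)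
  refine ⟨hfin, ?_⟩
  set Y : ℝ := μ ^ 3 * Real.exp 2 * Real.exp w with hY
  have hYexp : Real.exp (w + 3 * Real.log μ + 2) = Y := by
    have e1 : Real.exp (3 * Real.log μ) = μ ^ 3 := by
      rw [show 3 * Real.log μ = Real.log μ + Real.log μ + Real.log μ by ring, Real.exp_add,
        Real.exp_add, Real.exp_log hμ0]
      ring
    rw [hY, Real.exp_add, Real.exp_add, e1]; ring
  have hY1 : 1 ≤ Y := by
    rw [← hYexp]; exact Real.one_le_exp (by linarith)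
  have hY0 : 0 < Y := lt_of_lt_of_le one_pos hY1
  have hlogY : Real.log Y ≤ 2 * w := by
    rw [← hYexp, Real.log_exp]; linarith
  have hen := (Real.exp_pos (-w)).le
  -- the second differences are small
  have hV : ∀ v h : ℝ, |Real.exp w * v - h| ≤ 4 * κ → |h| ≤ |h1| + |h2| →
      -(1 / 3) ≤ v ∧ v ≤ 1 / 3 := by
    intro v h hv hh
    obtain ⟨a1, a2⟩ := win hv
    obtain ⟨b1, b2⟩ := abs_le.1 hh
    have e1 : (h + 4 * κ) * Real.exp (-w) ≤ Real.exp (-w) * (|h1| + |h2| + 4 * κ) := by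
      rw [mul_comm]
      exact mul_le_mul_of_nonneg_left (by linarith) hen
    have e2 : -(Real.exp (-w) * (|h1| + |h2| + 4 * κ)) ≤ (h - 4 * κ) * Real.exp (-w) := by
      rw [mul_comm (h - 4 * κ), ← mul_neg]
      exact mul_le_mul_of_nonneg_left (by linarith) hen
    constructor <;> linarith
  -- bounds in the box
  have hlog : ∀ q ∈ BX4 σ κ w μ h1 h2, (w - 2 ≤ Real.log q.1 ∧ Real.log q.1 ≤ w + 3 * Real.log μ + 2) ∧
      (w - 2 ≤ Real.log q.2.1 ∧ Real.log q.2.1 ≤ w + 3 * Real.log μ + 2) ∧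
      (w - 2 ≤ Real.log q.2.2.1 ∧ Real.log q.2.2.1 ≤ w + 3 * Real.log μ + 2) ∧
      (w - 2 ≤ Real.log q.2.2.2 ∧ Real.log q.2.2.2 ≤ w + 3 * Real.log μ + 2) := by
    rintro q ⟨a1, a2, a3, a4, a5, a6, a7, a8⟩
    obtain ⟨b1, b2⟩ := abs_le.1 a5
    obtain ⟨b3, b4⟩ := abs_le.1 a6
    obtain ⟨b5, b6⟩ := hV _ _ a7 (by linarith [abs_nonneg h2])
    obtain ⟨b7, b8⟩ := hV _ _ a8 (by linarith [abs_nonneg h1])
    refine ⟨⟨?_, ?_⟩, ⟨?_, ?_⟩, ⟨?_, ?_⟩, ⟨?_, ?_⟩⟩ <;> linarith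
  have hbx : ∀ q ∈ BX4 σ κ w μ h1 h2, (q.1 : ℝ) ≤ Y ∧ (q.2.1 : ℝ) ≤ Y ∧ (q.2.2.1 : ℝ) ≤ Y ∧
      (q.2.2.2 : ℝ) ≤ Y := by
    intro q hq
    obtain ⟨l1, l2, l3, l4⟩ := hlog q hq
    obtain ⟨a1, a2, a3, a4, -⟩ := hq
    rw [← hYexp]
    exact ⟨le_exp_of_log a1 l1.2, le_exp_of_log a2 l2.2, le_exp_of_log a3 l3.2,
      le_exp_of_log a4 l4.2⟩
  set M : ℝ := 16 * Real.exp 8 * w ^ 4 * Real.exp (-(4 * w)) with hM
  have hM0 : 0 < M := by positivity
  have htw : ∀ q ∈ BX4 σ κ w μ h1 h2, tw4 q ≤ M := by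
    intro q hq
    obtain ⟨l1, l2, l3, l4⟩ := hlog q hq
    obtain ⟨a1, a2, a3, a4, -⟩ := hq
    have e1 : tw q.1 ≤ 2 * w * Real.exp (-(w - 2)) := tw_le a1 l1.1 (by linarith [l1.2])
    have e2 : tw q.2.1 ≤ 2 * w * Real.exp (-(w - 2)) := tw_le a2 l2.1 (by linarith [l2.2])
    have e3 : tw q.2.2.1 ≤ 2 * w * Real.exp (-(w - 2)) := tw_le a3 l3.1 (by linarith [l3.2])
    have e4 : tw q.2.2.2 ≤ 2 * w * Real.exp (-(w - 2)) := tw_le a4 l4.1 (by linarith [l4.2])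
    have hb : 0 ≤ 2 * w * Real.exp (-(w - 2)) := by positivity
    unfold tw4
    calc tw q.1 * tw q.2.1 * tw q.2.2.1 * tw q.2.2.2 ≤ 2 * w * Real.exp (-(w - 2)) *
          (2 * w * Real.exp (-(w - 2))) * (2 * w * Real.exp (-(w - 2))) *
          (2 * w * Real.exp (-(w - 2))) := by
          refine mul_le_mul (mul_le_mul (mul_le_mul e1 e2 (tw_nonneg' _) hb) e3 (tw_nonneg' _) ?_)
            e4 (tw_nonneg' _) ?_ <;> positivity
      _ = M := by
          rw [hM]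
          have : Real.exp (-(w - 2)) * Real.exp (-(w - 2)) * Real.exp (-(w - 2)) *
              Real.exp (-(w - 2)) = Real.exp 8 * Real.exp (-(4 * w)) := by
            rw [← Real.exp_add, ← Real.exp_add, ← Real.exp_add, ← Real.exp_add]; congr 1; ring
          calc _ = 16 * w ^ 4 * (Real.exp (-(w - 2)) * Real.exp (-(w - 2)) *
                Real.exp (-(w - 2)) * Real.exp (-(w - 2))) := by ring
            _ = _ := by rw [this]; ring
  -- the bad quadruples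
  set BF := (BX4_finite σ κ w μ h1 h2).toFinset with hBF
  set Bad := BF.filter fun q => q ∉ PQ σ κ w μ h1 h2 ∧ tw4 q ≠ 0 with hBad
  have hmemBF : ∀ q, q ∈ BF ↔ q ∈ BX4 σ κ w μ h1 h2 := fun q => Set.Finite.mem_toFinset _
  set A := Finset.Ioc 0 ⌊Y⌋₊ with hA
  have hmemA : ∀ n : ℕ, 1 ≤ n → (n : ℝ) ≤ Y → n ∈ A := fun n h1 h2 =>
    Finset.mem_Ioc.2 ⟨h1, Nat.le_floor h2⟩
  have hcardA : (A.card : ℝ) ≤ Y := by
    rw [hA, Nat.card_Ioc, Nat.sub_zero]; exact Nat.floor_le hY0.le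
  have hmemP : ∀ n : ℕ, n ∈ A → ¬ n.Prime → tw n ≠ 0 → n ∈ LPP Y := by
    intro n h1 h2 h3
    refine Finset.mem_filter.2 ⟨h1, h2, fun h4 => h3 ?_⟩
    unfold tw; rw [h4, zero_div]
  have hDle : Y * (8 * κ * Real.exp (-w)) ≤ D := by
    have e1 : Y * (8 * κ * Real.exp (-w)) = μ ^ 3 * Real.exp 2 * (8 * κ) := by
      have : Real.exp w * Real.exp (-w) = 1 := by rw [← Real.exp_add, add_neg_cancel, Real.exp_zero]
      calc _ = μ ^ 3 * Real.exp 2 * (8 * κ) * (Real.exp w * Real.exp (-w)) := by rw [hY]; ring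
        _ = _ := by rw [this, mul_one]
    rw [e1]; exact Nat.le_ceil _
  have hE0 : 0 ≤ 8 * κ * Real.exp (-w) := by positivity
  -- the windows
  have hwin1 : ∀ q ∈ BX4 σ κ w μ h1 h2, ∀ q' ∈ BX4 σ κ w μ h1 h2,
      (Real.log q'.1 - 2 * Real.log q'.2.1 + Real.log q'.2.2.1) -
        (Real.log q.1 - 2 * Real.log q.2.1 + Real.log q.2.2.1) ≤ 8 * κ * Real.exp (-w) := by
    rintro q ⟨-, -, -, -, -, -, b1, -⟩ q' ⟨-, -, -, -, -, -, b2, -⟩
    have c1 := (win b1).1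
    have c2 := (win b2).2
    have e : (h1 + 4 * κ) * Real.exp (-w) - (h1 - 4 * κ) * Real.exp (-w) =
        8 * κ * Real.exp (-w) := by ring
    linarith
  have hwin2 : ∀ q ∈ BX4 σ κ w μ h1 h2, ∀ q' ∈ BX4 σ κ w μ h1 h2,
      (2 * Real.log q'.1 - 3 * Real.log q'.2.1 + Real.log q'.2.2.2) -
        (2 * Real.log q.1 - 3 * Real.log q.2.1 + Real.log q.2.2.2) ≤ 8 * κ * Real.exp (-w) := by
    rintro q ⟨-, -, -, -, -, -, -, b1⟩ q' ⟨-, -, -, -, -, -, -, b2⟩
    have c1 := (win b1).1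
    have c2 := (win b2).2
    have e : (h2 + 4 * κ) * Real.exp (-w) - (h2 - 4 * κ) * Real.exp (-w) =
        8 * κ * Real.exp (-w) := by ring
    linarith
  have hmemB : ∀ q ∈ Bad, q ∈ BX4 σ κ w μ h1 h2 := fun q hq =>
    (hmemBF q).1 (Finset.mem_filter.1 hq).1
  -- four parts
  set B1 := Bad.filter fun q => q.1 ∈ LPP Y with hB1
  set B2 := Bad.filter fun q => q.2.1 ∈ LPP Y with hB2
  set B3 := Bad.filter fun q => q.2.2.1 ∈ LPP Y with hB3
  set B4 := Bad.filter fun q => q.2.2.2 ∈ LPP Y with hB4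
  have hcov : Bad ⊆ B1 ∪ B2 ∪ B3 ∪ B4 := by
    intro q hq
    obtain ⟨hq1, hq2, hq3⟩ := Finset.mem_filter.1 hq
    have hqB := (hmemBF q).1 hq1
    obtain ⟨y1, y2, y3, y4⟩ := hbx q hqB
    obtain ⟨a1, a2, a3, a4, a5⟩ := hqB
    unfold tw4 at hq3
    have t1 : tw q.1 ≠ 0 := fun h0 => hq3 (by rw [h0]; ring)
    have t2 : tw q.2.1 ≠ 0 := fun h0 => hq3 (by rw [h0]; ring)
    have t3 : tw q.2.2.1 ≠ 0 := fun h0 => hq3 (by rw [h0]; ring)
    have t4 : tw q.2.2.2 ≠ 0 := fun h0 => hq3 (by rw [h0]; ring)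
    simp only [Finset.mem_union]
    by_cases p1 : q.1.Prime
    · by_cases p2 : q.2.1.Prime
      · by_cases p3 : q.2.2.1.Prime
        · by_cases p4 : q.2.2.2.Prime
          · exact absurd ⟨p1, p2, p3, p4, a5⟩ hq2
          · exact Or.inr (Finset.mem_filter.2 ⟨hq, hmemP _ (hmemA _ a4 y4) p4 t4⟩)
        · exact Or.inl (Or.inr (Finset.mem_filter.2 ⟨hq, hmemP _ (hmemA _ a3 y3) p3 t3⟩))
      · exact Or.inl (Or.inl (Or.inr (Finset.mem_filter.2 ⟨hq, hmemP _ (hmemA _ a2 y2) p2 t2⟩)))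
    · exact Or.inl (Or.inl (Or.inl (Finset.mem_filter.2 ⟨hq, hmemP _ (hmemA _ a1 y1) p1 t1⟩)))
  have fibA : ∀ (S : Finset (ℕ × ℕ × ℕ × ℕ)), (∀ q ∈ S, q ∈ BX4 σ κ w μ h1 h2) → ∀ b : ℕ × ℕ,
      (S.filter fun q => (q.1, q.2.1) = b).card ≤ (D + 1) ^ 2 := by
    intro S hS b
    have hb : ∀ q ∈ S.filter (fun q => (q.1, q.2.1) = b), ∀ q' ∈ S.filter (fun q => (q.1, q.2.1) = b),
        q.1 = q'.1 ∧ q.2.1 = q'.2.1 := by
      intro q hq q' hq'
      have e3 : (q.1, q.2.1) = (q'.1, q'.2.1) :=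
        (Finset.mem_filter.1 hq).2.trans (Finset.mem_filter.1 hq').2.symm
      rwa [Prod.mk.injEq] at e3
    refine card_two (fun q => q.2.2.1) (fun q => q.2.2.2) ?_ ?_ ?_
    · intro q hq q' hq'
      obtain ⟨e1, e2⟩ := hb q hq q' hq'
      have b1 := hS q (Finset.mem_filter.1 hq).1
      have b2 := hS q' (Finset.mem_filter.1 hq').1
      have hw := hwin1 q b1 q' b2
      rw [e1, e2] at hw
      exact (sub_le_of_log b1.2.2.1 b2.2.2.1 (hbx q' b2).2.2.1 hE0 (by linarith)).trans hDle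
    · intro q hq q' hq' _
      obtain ⟨e1, e2⟩ := hb q hq q' hq'
      have b1 := hS q (Finset.mem_filter.1 hq).1
      have b2 := hS q' (Finset.mem_filter.1 hq').1
      have hw := hwin2 q b1 q' b2
      rw [e1, e2] at hw
      exact (sub_le_of_log b1.2.2.2.1 b2.2.2.2.1 (hbx q' b2).2.2.2 hE0 (by linarith)).trans hDle
    · intro q hq q' hq' e3 e4
      obtain ⟨e1, e2⟩ := hb q hq q' hq'
      exact Prod.ext e1 (Prod.ext e2 (Prod.ext e3 e4))
  have fibB : ∀ (S : Finset (ℕ × ℕ × ℕ × ℕ)), (∀ q ∈ S, q ∈ BX4 σ κ w μ h1 h2) → ∀ b : ℕ × ℕ,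
      (S.filter fun q => (q.2.1, q.2.2.1) = b).card ≤ (D + 1) ^ 2 := by
    intro S hS b
    have hb : ∀ q ∈ S.filter (fun q => (q.2.1, q.2.2.1) = b),
        ∀ q' ∈ S.filter (fun q => (q.2.1, q.2.2.1) = b), q.2.1 = q'.2.1 ∧ q.2.2.1 = q'.2.2.1 := by
      intro q hq q' hq'
      have e3 : (q.2.1, q.2.2.1) = (q'.2.1, q'.2.2.1) :=
        (Finset.mem_filter.1 hq).2.trans (Finset.mem_filter.1 hq').2.symm
      rwa [Prod.mk.injEq] at e3
    refine card_two (fun q => q.1) (fun q => q.2.2.2) ?_ ?_ ?_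
    · intro q hq q' hq'
      obtain ⟨e1, e2⟩ := hb q hq q' hq'
      have b1 := hS q (Finset.mem_filter.1 hq).1
      have b2 := hS q' (Finset.mem_filter.1 hq').1
      have hw := hwin1 q b1 q' b2
      rw [e1, e2] at hw
      exact (sub_le_of_log b1.1 b2.1 (hbx q' b2).1 hE0 (by linarith)).trans hDle
    · intro q hq q' hq' e0
      obtain ⟨e1, e2⟩ := hb q hq q' hq'
      have b1 := hS q (Finset.mem_filter.1 hq).1
      have b2 := hS q' (Finset.mem_filter.1 hq').1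
      have hw := hwin2 q b1 q' b2
      rw [e1, e0] at hw
      exact (sub_le_of_log b1.2.2.2.1 b2.2.2.2.1 (hbx q' b2).2.2.2 hE0 (by linarith)).trans hDle
    · intro q hq q' hq' e3 e4
      obtain ⟨e1, e2⟩ := hb q hq q' hq'
      exact Prod.ext e3 (Prod.ext e1 (Prod.ext e2 e4))
  have fibC : ∀ (S : Finset (ℕ × ℕ × ℕ × ℕ)), (∀ q ∈ S, q ∈ BX4 σ κ w μ h1 h2) → ∀ b : ℕ × ℕ,
      (S.filter fun q => (q.2.1, q.2.2.2) = b).card ≤ (D + 1) ^ 2 := by
    intro S hS b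
    have hb : ∀ q ∈ S.filter (fun q => (q.2.1, q.2.2.2) = b),
        ∀ q' ∈ S.filter (fun q => (q.2.1, q.2.2.2) = b), q.2.1 = q'.2.1 ∧ q.2.2.2 = q'.2.2.2 := by
      intro q hq q' hq'
      have e3 : (q.2.1, q.2.2.2) = (q'.2.1, q'.2.2.2) :=
        (Finset.mem_filter.1 hq).2.trans (Finset.mem_filter.1 hq').2.symm
      rwa [Prod.mk.injEq] at e3
    refine card_two (fun q => q.1) (fun q => q.2.2.1) ?_ ?_ ?_
    · intro q hq q' hq'
      obtain ⟨e1, e2⟩ := hb q hq q' hq'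
      have b1 := hS q (Finset.mem_filter.1 hq).1
      have b2 := hS q' (Finset.mem_filter.1 hq').1
      have hw := hwin2 q b1 q' b2
      rw [e1, e2] at hw
      exact (sub_le_of_log b1.1 b2.1 (hbx q' b2).1 hE0 (by linarith)).trans hDle
    · intro q hq q' hq' e0
      obtain ⟨e1, e2⟩ := hb q hq q' hq'
      have b1 := hS q (Finset.mem_filter.1 hq).1
      have b2 := hS q' (Finset.mem_filter.1 hq').1
      have hw := hwin1 q b1 q' b2
      rw [e1, e0] at hw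
      exact (sub_le_of_log b1.2.2.1 b2.2.2.1 (hbx q' b2).2.2.1 hE0 (by linarith)).trans hDle
    · intro q hq q' hq' e3 e4
      obtain ⟨e1, e2⟩ := hb q hq q' hq'
      exact Prod.ext e3 (Prod.ext e1 (Prod.ext e4 e2))
  set P := LPP Y with hP
  have hsub : ∀ q ∈ Bad, q.1 ∈ A ∧ q.2.1 ∈ A ∧ q.2.2.1 ∈ A ∧ q.2.2.2 ∈ A := by
    intro q hq
    have hb := hmemB q hq
    obtain ⟨y1, y2, y3, y4⟩ := hbx q hb
    exact ⟨hmemA _ hb.1 y1, hmemA _ hb.2.1 y2, hmemA _ hb.2.2.1 y3, hmemA _ hb.2.2.2.1 y4⟩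
  have c1 : B1.card ≤ (D + 1) ^ 2 * (P ×ˢ A).card :=
    Finset.card_le_mul_card_image_of_maps_to (f := fun q => (q.1, q.2.1)) (fun q hq =>
      Finset.mem_product.2 ⟨(Finset.mem_filter.1 hq).2, (hsub q (Finset.mem_filter.1 hq).1).2.1⟩)
      _ fun b _ => fibA B1 (fun q hq => hmemB q (Finset.mem_filter.1 hq).1) b
  have c2 : B2.card ≤ (D + 1) ^ 2 * (A ×ˢ P).card :=
    Finset.card_le_mul_card_image_of_maps_to (f := fun q => (q.1, q.2.1)) (fun q hq =>
      Finset.mem_product.2 ⟨(hsub q (Finset.mem_filter.1 hq).1).1, (Finset.mem_filter.1 hq).2⟩)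
      _ fun b _ => fibA B2 (fun q hq => hmemB q (Finset.mem_filter.1 hq).1) b
  have c3 : B3.card ≤ (D + 1) ^ 2 * (A ×ˢ P).card :=
    Finset.card_le_mul_card_image_of_maps_to (f := fun q => (q.2.1, q.2.2.1)) (fun q hq =>
      Finset.mem_product.2 ⟨(hsub q (Finset.mem_filter.1 hq).1).2.1, (Finset.mem_filter.1 hq).2⟩)
      _ fun b _ => fibB B3 (fun q hq => hmemB q (Finset.mem_filter.1 hq).1) b
  have c4 : B4.card ≤ (D + 1) ^ 2 * (A ×ˢ P).card :=
    Finset.card_le_mul_card_image_of_maps_to (f := fun q => (q.2.1, q.2.2.2)) (fun q hq =>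
      Finset.mem_product.2 ⟨(hsub q (Finset.mem_filter.1 hq).1).2.1, (Finset.mem_filter.1 hq).2⟩)
      _ fun b _ => fibC B4 (fun q hq => hmemB q (Finset.mem_filter.1 hq).1) b
  have hBadcard : (Bad.card : ℝ) ≤ C1 * w * (Real.exp w * Real.exp (w / 2)) := by
    have e1 : Bad.card ≤ 4 * ((D + 1) ^ 2 * (A.card * P.card)) := by
      refine (Finset.card_le_card hcov).trans ?_
      have u0 := Finset.card_union_le (B1 ∪ B2 ∪ B3) B4
      have u1 := Finset.card_union_le (B1 ∪ B2) B3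
      have u2 := Finset.card_union_le B1 B2
      rw [Finset.card_product] at c1 c2 c3 c4
      rw [mul_comm P.card A.card] at c1
      omega
    have e2 : (Bad.card : ℝ) ≤ 4 * (((D + 1 : ℕ) : ℝ) ^ 2 * ((A.card : ℝ) * P.card)) := by
      exact_mod_cast e1
    have e3 : (P.card : ℝ) ≤ 4 * √Y * (2 * w) :=
      (LPP_card hY1).trans (mul_le_mul_of_nonneg_left hlogY (by positivity))
    have e4 : √Y = √(μ ^ 3 * Real.exp 2) * Real.exp (w / 2) := by
      rw [hY, Real.sqrt_mul (by positivity), ← Real.exp_half]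
    have e5 : (A.card : ℝ) * P.card ≤ Y * (4 * √Y * (2 * w)) :=
      mul_le_mul hcardA e3 (Nat.cast_nonneg _) hY0.le
    have e6 : 4 * (((D + 1 : ℕ) : ℝ) ^ 2 * ((A.card : ℝ) * P.card)) ≤
        4 * (((D + 1 : ℕ) : ℝ) ^ 2 * (Y * (4 * √Y * (2 * w)))) := by gcongr
    refine e2.trans (e6.trans (le_of_eq ?_))
    rw [e4, hY, hC1]; ring
  -- the contribution of the bad quadruples
  have hbad : ∑ q ∈ Bad, tw4 q ≤ δ * Real.exp (-(2 * w)) := by
    have e1 : ∑ q ∈ Bad, tw4 q ≤ (Bad.card : ℝ) * M := by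
      rw [← nsmul_eq_mul]
      exact Finset.sum_le_card_nsmul _ _ _ fun q hq => htw q (hmemB q hq)
    have e2 : (Bad.card : ℝ) * M ≤ C1 * w * (Real.exp w * Real.exp (w / 2)) * M :=
      mul_le_mul_of_nonneg_right hBadcard hM0.le
    have e3 : C1 * w * (Real.exp w * Real.exp (w / 2)) * M =
        16 * Real.exp 8 * C1 * (w ^ 5 * Real.exp (-(w / 2))) * Real.exp (-(2 * w)) := by
      have e4 : Real.exp w * Real.exp (w / 2) * Real.exp (-(4 * w)) =
          Real.exp (-(w / 2)) * Real.exp (-(2 * w)) := by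
        rw [← Real.exp_add, ← Real.exp_add, ← Real.exp_add]; congr 1; ring
      rw [hM]
      calc _ = 16 * Real.exp 8 * C1 * w ^ 5 *
            (Real.exp w * Real.exp (w / 2) * Real.exp (-(4 * w))) := by ring
        _ = _ := by rw [e4]; ring
    rw [e3] at e2
    exact e1.trans (e2.trans (mul_le_mul_of_nonneg_right hw1.le (Real.exp_pos _).le))
  -- the good quadruples
  set G := BF.filter fun q => q ∈ PQ σ κ w μ h1 h2 with hG
  have hsplit : ∑ q ∈ BF, tw4 q ≤ ∑ q ∈ G, tw4 q + ∑ q ∈ Bad, tw4 q := by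
    rw [← Finset.sum_filter_add_sum_filter_not BF fun q => q ∈ PQ σ κ w μ h1 h2]
    refine add_le_add le_rfl (le_of_eq ?_)
    symm
    refine Finset.sum_subset ?_ ?_
    · intro q hq
      obtain ⟨h1, h2, -⟩ := Finset.mem_filter.1 hq
      exact Finset.mem_filter.2 ⟨h1, h2⟩
    · intro q hq hq'
      obtain ⟨h1, h2⟩ := Finset.mem_filter.1 hq
      by_contra h3
      exact hq' (Finset.mem_filter.2 ⟨h1, h2, h3⟩)
  have hgood : ∑ q ∈ G, tw4 q ≤ ((PQ σ κ w μ h1 h2).ncard : ℝ) * M := by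
    have e1 : ∑ q ∈ G, tw4 q ≤ (G.card : ℝ) * M := by
      rw [← nsmul_eq_mul]
      exact Finset.sum_le_card_nsmul _ _ _ fun q hq =>
        htw q ((hmemBF q).1 (Finset.mem_filter.1 hq).1)
    have e2 : (G.card : ℝ) ≤ ((PQ σ κ w μ h1 h2).ncard : ℝ) := by
      rw [Set.ncard_eq_toFinset_card _ hfin]
      have : G ⊆ hfin.toFinset := fun q hq => by
        rw [Set.Finite.mem_toFinset]; exact (Finset.mem_filter.1 hq).2
      exact_mod_cast Finset.card_le_card this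
    exact e1.trans (mul_le_mul_of_nonneg_right e2 hM0.le)
  have hfinal : 2 * δ * Real.exp (-(2 * w)) ≤ ((PQ σ κ w μ h1 h2).ncard : ℝ) * M := by
    have e1 : 3 * δ * Real.exp (-(2 * w)) ≤ ∑ q ∈ BF, tw4 q := by
      have e2 := mul_le_mul_of_nonneg_left hbox (Real.exp_pos (-(2 * w))).le
      have e4 : Real.exp (-(2 * w)) * Real.exp (2 * w) = 1 := by
        rw [← Real.exp_add, neg_add_cancel, Real.exp_zero]
      calc 3 * δ * Real.exp (-(2 * w)) = Real.exp (-(2 * w)) * (3 * δ) := by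
            ring
        _ ≤ _ := e2
        _ = (Real.exp (-(2 * w)) * Real.exp (2 * w)) * ∑ q ∈ BF, tw4 q := by
            rw [mul_assoc]
        _ = _ := by rw [e4, one_mul]
    have e3 := e1.trans hsplit
    nlinarith [hgood, hbad]
  -- conclusion
  have hw0 : 0 < w := by linarith
  have hM' : M = 16 * Real.exp 8 * w ^ 4 / Real.exp (4 * w) := by
    rw [hM, Real.exp_neg]; rfl
  have e1 : 1 / (8 * Real.exp 8) * δ * Real.exp (2 * w) / w ^ 4 =
      2 * δ * Real.exp (-(2 * w)) / M := by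
    have e2 : Real.exp (2 * w) = Real.exp (-(2 * w)) * Real.exp (4 * w) := by
      rw [← Real.exp_add]; congr 1; ring
    rw [hM', e2]
    have := (Real.exp_pos (4 * w)).ne'
    have h9 := (Real.exp_pos 8).ne'
    field_simp
    ring
  rw [e1, div_le_iff₀ hM0]
  exact hfinal

end SMD
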