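import Pool.Agent.SMC.Defs

/-!
# SMD: exact length 4 for almost every single multiplier.  Definitions (continues the folder SMC)

For real `α > 1` and real `β` let `T q = ⌊α q + β⌋`. THEOREM (this folder, half B): for almost every `α > 1` there is `c > 0`
such that for every real `β` for infinitely many `X` at least `c X/(log X)^4` numbers `p ≤ X` start a `T`-chain
of exact length `4`.

METHOD. The chain `p, m, l, r` is centred at `m`: `p = ⌈(m - β)/α⌉`, `l = ⌊α m + β⌋`, `r = ⌊α² m + α β + β⌋ - j` with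
`0 ≤ j ≤ α + 1`.
(1) First moment (`pq_count`): the number of prime quadruples `(p, m, l, r)` whose two second differences of
logarithms are in windows of length `≍ 1/X`. (2) every such quadruple gives an interval of `α` of length `≫ 1/X` on which
the chain is `p, m, l, r, s` with `s` EVEN (`Geo4`). (3) Second moment: Selberg's sieve for the six numbers `⌊α m + β⌋`,
`⌈(m - β)/α⌉`, `⌊α² m + α β + γ⌋` and the same with `m'` (`γ = β - j`), whose joint distribution modulo small numbers comes from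
van der Corput's estimates for `∫ e(u α + v/α + s α² + c) dα` (`Osc3`, `Equi6`, `Pair6`, `SecM4`).
(4) So the `α` with many such chains have measure `≥ c ρ` in `|α - μ| ≤ ρ`, `c` independent of `ρ` (`MainQ4`);
Lebesgue's density theorem (`FinQ4`).
-/

namespace SMD

open MeasureTheory SMC

/-- The prime quadruples `(p, m, l, r)` in the box, nearly a geometric progression. -/
def PQ (σ κ w μ h1 h2 : ℝ) : Set (ℕ × ℕ × ℕ × ℕ) :=
  {q | q.1.Prime ∧ q.2.1.Prime ∧ q.2.2.1.Prime ∧ q.2.2.2.Prime ∧ |Real.log q.1 - w| ≤ 4 * σ ∧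
    |Real.log q.2.1 - w - Real.log μ| ≤ 4 * σ ∧
    |Real.exp w * (Real.log q.1 - 2 * Real.log q.2.1 + Real.log q.2.2.1) - h1| ≤ 4 * κ ∧
    |Real.exp w * (2 * Real.log q.1 - 3 * Real.log q.2.1 + Real.log q.2.2.2) - h2| ≤ 4 * κ}

/-- For this `α` and all `β'` with `|β' - β| < ε` the chain of `p` is `p, m, l, r, s` with an even `s ≥ 4`. -/
def Ch4 (ε β α : ℝ) (p m l r : ℕ) : Prop :=
  (m : ℝ) + ε ≤ α * p + β ∧ α * p + β ≤ m + 1 - ε ∧ Ch ε β α m l r

/-- The same with primes `p`, `m`, `l`, `r`. -/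
def Rob4 (ε β α : ℝ) (p m l r : ℕ) : Prop :=
  p.Prime ∧ m.Prime ∧ l.Prime ∧ r.Prime ∧ Ch4 ε β α p m l r

open Classical in
/-- The number of primes `m` in the box for which `⌊t m + β⌋`, `⌈(m - β)/t⌉` and `⌊t² m + t β + γ⌋` are primes. -/
noncomputable def N4 (β γ σ w μ t : ℝ) : ℕ :=
  ((Finset.Icc 1 ⌊Real.exp (w + Real.log μ + 4 * σ)⌋₊).filter fun m : ℕ =>
    m.Prime ∧ |Real.log m - w - Real.log μ| ≤ 4 * σ ∧ (⌊t * m + β⌋₊).Prime ∧ (⌈(m - β) / t⌉₊).Prime ∧
      (⌊t ^ 2 * m + t * β + γ⌋₊).Prime).card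

/-- The six numbers of the sieve. -/
noncomputable def six (β γ : ℝ) (m m' : ℕ) : Fin 6 → ℝ → ℕ :=
  ![fun t => ⌊t * m + β⌋₊, fun t => ⌈((m : ℝ) - β) / t⌉₊, fun t => ⌊t ^ 2 * m + t * β + γ⌋₊,
    fun t => ⌊t * m' + β⌋₊, fun t => ⌈((m' : ℝ) - β) / t⌉₊, fun t => ⌊t ^ 2 * m' + t * β + γ⌋₊]

open Classical in
/-- The number of the `p ≤ e^(w+2)` with a robust chain. -/
noncomputable def cntR4 (ε β w t : ℝ) : ℕ :=
  ((Finset.Icc 1 ⌊Real.exp (w + 2)⌋₊).filter fun p : ℕ => ∃ m l r : ℕ, Rob4 ε β t p m l r).card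

end SMD
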