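import Mathlib

/-!
# SMD.Osc3: van der Corput's estimates for `∫ e(u t + v/t + s t² + c) dt`

PROOF. (See `Pool/Agent/SMC/Osc.lean`, `osc_fd`, for the first step.) General facts for a real phase `φ` on `[p, q]` with derivatives
`φ1`, `φ2`, `φ3` (`HasDerivAt`, continuous):
(FD) `φ2` of one sign (`≥ 0` everywhere or `≤ 0` everywhere) and `|φ1| ≥ l > 0`: `‖∫ e(φ)‖ ≤ 1/l` (integration by parts as in `osc_fd`:
`e(φ) = (e(φ)/(2πi φ1))' + e(φ) φ2/(2πi φ1²)`, `∫ |φ2|/φ1² = |∫ (1/φ1)'|`; total `(1/2π)(4/l) ≤ 1/l`).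
(SD) `φ2 ≥ λ > 0` everywhere (or `≤ -λ` everywhere; conjugate or treat by symmetry): `‖∫ e(φ)‖ ≤ 4/√λ`: `φ1` is increasing with slope `≥ λ`, so the
`t` with `|φ1 t| < √λ` lie in an interval of length `≤ 2/√λ` (trivial bound), on the two remaining intervals use (FD) with `l = √λ`.
(TD) `φ3 ≥ λ > 0` everywhere (or `≤ -λ`): `‖∫ e(φ)‖ ≤ 10/λ^(1/3)`: the `t` with `|φ2 t| < λ^(2/3)` lie in an interval of length `≤ 2 λ^(-1/3)`, on the
two remaining intervals `φ2` has one sign and `|φ2| ≥ λ^(2/3)`; (SD).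
Here `φ = u t + v/t + s t² + c`, `φ1 = u - v/t² + 2 s t`, `φ2 = 2 v/t³ + 2 s`, `φ3 = -6 v/t⁴`. Cases: `v ≠ 0`: (TD) with `λ = 6U/B⁴`. `v = 0`, `s ≠ 0`: (SD) with
`λ = 2U`. `v = s = 0`: (FD) with `l = U`. `U ≥ 1`, so `1/U, 1/√U ≤ 1/U^(1/3)`.
(It is enough to prove (FD), (SD), (TD) for this special `φ`.)
-/

namespace SMD

open MeasureTheory

/-- the oscillating factor of a real phase -/
noncomputable def oscP (f : ℝ → ℝ) (t : ℝ) : ℂ :=
  Complex.exp (2 * Real.pi * Complex.I * ((f t : ℝ) : ℂ))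

private theorem oscP_norm (f : ℝ → ℝ) (t : ℝ) : ‖oscP f t‖ = 1 := by
  unfold oscP
  have : 2 * (Real.pi : ℂ) * Complex.I * ((f t : ℝ) : ℂ) =
      ((2 * Real.pi * f t : ℝ) : ℂ) * Complex.I := by
    push_cast
    ring
  rw [this, Complex.norm_exp_ofReal_mul_I]

private theorem oscP_deriv {f : ℝ → ℝ} {f1 t : ℝ} (h : HasDerivAt f f1 t) :
    HasDerivAt (oscP f) (oscP f t * (2 * Real.pi * Complex.I * ((f1 : ℝ) : ℂ))) t :=
  (h.ofReal_comp.const_mul (2 * (Real.pi : ℂ) * Complex.I)).cexp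

/-- first derivative test -/
private theorem fdT {f f1 f2 : ℝ → ℝ} {a b l : ℝ} (hab : a ≤ b) (hl : 0 < l)
    (h1 : ∀ t ∈ Set.Icc a b, HasDerivAt f (f1 t) t)
    (h2 : ∀ t ∈ Set.Icc a b, HasDerivAt f1 (f2 t) t)
    (hc2 : ContinuousOn f2 (Set.Icc a b))
    (hsg : (∀ t ∈ Set.Icc a b, 0 ≤ f2 t) ∨ (∀ t ∈ Set.Icc a b, f2 t ≤ 0))
    (h : ∀ t ∈ Set.Icc a b, l ≤ |f1 t|) :
    ‖∫ t in a..b, oscP f t‖ ≤ 1 / l := by
  have hu : Set.uIcc a b = Set.Icc a b := Set.uIcc_of_le hab
  have hne : ∀ t ∈ Set.Icc a b, f1 t ≠ 0 := by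
    intro t ht h0
    have := h t ht
    rw [h0, abs_zero] at this
    linarith
  have hpi := Real.pi_pos
  have hpi3 := Real.pi_gt_three
  have hcE : ContinuousOn (oscP f) (Set.Icc a b) := fun t ht =>
    (oscP_deriv (h1 t ht)).continuousAt.continuousWithinAt
  have hcpsi : ContinuousOn f1 (Set.Icc a b) := fun t ht =>
    (h2 t ht).continuousAt.continuousWithinAt
  have h2pi : (2 * (Real.pi : ℂ) * Complex.I) ≠ 0 := by
    simp [hpi.ne']
  -- the correction term
  set R : ℝ → ℂ := fun t => oscP f t * ((f2 t / (f1 t) ^ 2 : ℝ) : ℂ) /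
    (2 * Real.pi * Complex.I) with hR
  have hcR : ContinuousOn R (Set.Icc a b) := by
    refine (hcE.mul ?_).div_const _
    refine Complex.continuous_ofReal.comp_continuousOn ?_
    refine hc2.div (hcpsi.pow 2) fun t ht => pow_ne_zero 2 (hne t ht)
  have hG : ∀ t ∈ Set.uIcc a b, HasDerivAt
      (fun t => oscP f t * (((f1 t)⁻¹ : ℝ) : ℂ) / (2 * Real.pi * Complex.I))
      (oscP f t - R t) t := by
    intro t ht
    rw [hu] at ht
    have h1' := oscP_deriv (h1 t ht)
    have h2' := ((h2 t ht).inv (hne t ht)).ofReal_comp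
    have h3 := (h1'.mul h2').div_const (2 * (Real.pi : ℂ) * Complex.I)
    refine h3.congr_deriv ?_
    have hne' : ((f1 t : ℝ) : ℂ) ≠ 0 := Complex.ofReal_ne_zero.2 (hne t ht)
    have e1 : (((f1 t)⁻¹ : ℝ) : ℂ) = ((f1 t : ℝ) : ℂ)⁻¹ := by push_cast; rfl
    have e2 : ((-(f2 t) / (f1 t) ^ 2 : ℝ) : ℂ) =
        -((f2 t / (f1 t) ^ 2 : ℝ) : ℂ) := by
      push_cast
      ring
    have e3 : ((f2 t / (f1 t) ^ 2 : ℝ) : ℂ) = (f2 t : ℂ) / (f1 t : ℂ) ^ 2 := by push_cast; rfl
    simp only [Pi.inv_apply] at *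
    rw [hR]
    simp only
    rw [e1, e2, e3]
    generalize ((f1 t : ℝ) : ℂ) = p at *
    generalize ((f2 t : ℝ) : ℂ) = q at *
    generalize (2 * (Real.pi : ℂ) * Complex.I) = k at *
    field_simp
    ring
  have hint : IntervalIntegrable (fun t => oscP f t - R t) volume a b := by
    refine ContinuousOn.intervalIntegrable ?_
    rw [hu]
    exact hcE.sub hcR
  have hFTC := intervalIntegral.integral_eq_sub_of_hasDerivAt hG hint
  have hiE : IntervalIntegrable (oscP f) volume a b := by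
    refine ContinuousOn.intervalIntegrable ?_
    rw [hu]
    exact hcE
  have hiR : IntervalIntegrable R volume a b := by
    refine ContinuousOn.intervalIntegrable ?_
    rw [hu]
    exact hcR
  rw [intervalIntegral.integral_sub hiE hiR] at hFTC
  -- the real comparison
  obtain ⟨s, hs1, hs2⟩ : ∃ s : ℝ, |s| = 1 ∧ ∀ t ∈ Set.Icc a b, |f2 t| = s * f2 t := by
    rcases hsg with hv | hv
    · exact ⟨1, by simp, fun t ht => by rw [abs_of_nonneg (hv t ht), one_mul]⟩
    · exact ⟨-1, by simp, fun t ht => by rw [abs_of_nonpos (hv t ht)]; ring⟩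
  have hK : ∀ t ∈ Set.uIcc a b, HasDerivAt
      (fun t => -(s / (2 * Real.pi)) * (f1 t)⁻¹)
      (s / (2 * Real.pi) * (f2 t / (f1 t) ^ 2)) t := by
    intro t ht
    rw [hu] at ht
    have h2' := ((h2 t ht).inv (hne t ht)).const_mul (-(s / (2 * Real.pi)))
    refine h2'.congr_deriv ?_
    ring
  have hiK : IntervalIntegrable
      (fun t : ℝ => s / (2 * Real.pi) * (f2 t / (f1 t) ^ 2)) volume a b := by
    refine ContinuousOn.intervalIntegrable ?_
    rw [hu]
    refine continuousOn_const.mul ?_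
    exact hc2.div (hcpsi.pow 2) fun t ht => pow_ne_zero 2 (hne t ht)
  have hKint := intervalIntegral.integral_eq_sub_of_hasDerivAt hK hiK
  have e3 : ‖(2 * (Real.pi : ℂ) * Complex.I)‖ = 2 * Real.pi := by
    rw [norm_mul, norm_mul, Complex.norm_I, Complex.norm_real, Real.norm_of_nonneg hpi.le]
    simp
  have hbound : ‖∫ t in a..b, R t‖ ≤
      ∫ t in a..b, s / (2 * Real.pi) * (f2 t / (f1 t) ^ 2) := by
    refine intervalIntegral.norm_integral_le_of_norm_le hab ?_ hiK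
    refine Filter.Eventually.of_forall fun t ht => ?_
    have ht' : t ∈ Set.Icc a b := Set.Ioc_subset_Icc_self ht
    rw [hR]
    simp only
    rw [norm_div, norm_mul, oscP_norm, one_mul, Complex.norm_real]
    rw [e3, Real.norm_eq_abs, abs_div,
      abs_of_nonneg (sq_nonneg (f1 t)), hs2 t ht']
    apply le_of_eq
    ring
  have hinv : ∀ t ∈ Set.Icc a b, |(f1 t)⁻¹| ≤ 1 / l := by
    intro t ht
    rw [abs_inv, ← one_div]
    exact one_div_le_one_div_of_le hl (h t ht)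
  have hba := hinv a (Set.left_mem_Icc.2 hab)
  have hbb := hinv b (Set.right_mem_Icc.2 hab)
  have hKle : ∫ t in a..b, s / (2 * Real.pi) * (f2 t / (f1 t) ^ 2) ≤
      1 / (2 * Real.pi) * (2 / l) := by
    rw [hKint]
    have e4 : -(s / (2 * Real.pi)) * (f1 b)⁻¹ - -(s / (2 * Real.pi)) * (f1 a)⁻¹ =
        1 / (2 * Real.pi) * (s * ((f1 a)⁻¹ - (f1 b)⁻¹)) := by ring
    rw [e4]
    refine mul_le_mul_of_nonneg_left ?_ (by positivity)
    calc s * ((f1 a)⁻¹ - (f1 b)⁻¹)
        ≤ |s * ((f1 a)⁻¹ - (f1 b)⁻¹)| := le_abs_self _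
      _ = |(f1 a)⁻¹ - (f1 b)⁻¹| := by rw [abs_mul, hs1, one_mul]
      _ ≤ |(f1 a)⁻¹| + |(f1 b)⁻¹| := abs_sub _ _
      _ ≤ 2 / l := by
        have : 2 / l = 1 / l + 1 / l := by ring
        linarith
  have hGb : ∀ t ∈ Set.Icc a b,
      ‖oscP f t * (((f1 t)⁻¹ : ℝ) : ℂ) / (2 * Real.pi * Complex.I)‖ ≤
      1 / (2 * Real.pi) * (1 / l) := by
    intro t ht
    rw [norm_div, norm_mul, oscP_norm, one_mul, Complex.norm_real]
    rw [e3, Real.norm_eq_abs]
    have := hinv t ht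
    calc |(f1 t)⁻¹| / (2 * Real.pi) ≤ 1 / l / (2 * Real.pi) := by gcongr
      _ = 1 / (2 * Real.pi) * (1 / l) := by ring
  have hfin : ∫ t in a..b, oscP f t =
      (oscP f b * (((f1 b)⁻¹ : ℝ) : ℂ) / (2 * Real.pi * Complex.I) -
      oscP f a * (((f1 a)⁻¹ : ℝ) : ℂ) / (2 * Real.pi * Complex.I)) +
      ∫ t in a..b, R t := by
    rw [← hFTC]
    ring
  rw [hfin]
  refine (norm_add_le _ _).trans ?_
  have h7 := norm_sub_le (oscP f b * (((f1 b)⁻¹ : ℝ) : ℂ) / (2 * Real.pi * Complex.I))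
      (oscP f a * (((f1 a)⁻¹ : ℝ) : ℂ) / (2 * Real.pi * Complex.I))
  have h8 := hGb a (Set.left_mem_Icc.2 hab)
  have h9 := hGb b (Set.right_mem_Icc.2 hab)
  have h10 : 1 / (2 * Real.pi) * (1 / l) + 1 / (2 * Real.pi) * (1 / l) +
      1 / (2 * Real.pi) * (2 / l) ≤ 1 / l := by
    have : 1 / (2 * Real.pi) * (1 / l) + 1 / (2 * Real.pi) * (1 / l) +
      1 / (2 * Real.pi) * (2 / l) = 2 / Real.pi * (1 / l) := by
      field_simp
      ring
    rw [this]
    have h11 : 2 / Real.pi ≤ 1 := by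
      rw [div_le_one hpi]
      linarith
    have h12 : 0 < 1 / l := by positivity
    nlinarith
  linarith

/-- a point where a monotone continuous function crosses a level -/
private theorem crossP {f : ℝ → ℝ} {a b : ℝ} (hab : a ≤ b) (hc : ContinuousOn f (Set.Icc a b))
    (hm : MonotoneOn f (Set.Icc a b)) (c : ℝ) :
    ∃ p, a ≤ p ∧ p ≤ b ∧ (a = p ∨ ∀ t ∈ Set.Icc a p, f t ≤ c) ∧
      (p = b ∨ ∀ t ∈ Set.Icc p b, c ≤ f t) := by
  rcases le_total c (f a) with h | h
  · refine ⟨a, le_rfl, hab, Or.inl rfl, Or.inr fun t ht => ?_⟩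
    exact h.trans (hm (Set.left_mem_Icc.2 hab) ht ht.1)
  rcases le_total (f b) c with h' | h'
  · refine ⟨b, hab, le_rfl, Or.inr fun t ht => ?_, Or.inl rfl⟩
    exact (hm ht (Set.right_mem_Icc.2 hab) ht.2).trans h'
  obtain ⟨p, hp, hpc⟩ := intermediate_value_Icc hab hc ⟨h, h'⟩
  refine ⟨p, hp.1, hp.2, Or.inr fun t ht => ?_, Or.inr fun t ht => ?_⟩
  · rw [← hpc]
    exact hm ⟨ht.1, ht.2.trans hp.2⟩ hp ht.2
  · rw [← hpc]
    exact hm hp ⟨hp.1.trans ht.1, ht.2⟩ ht.1

/-- the splitting step of van der Corput's method -/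
private theorem splitT {f f' : ℝ → ℝ} {g : ℝ → ℂ} {a b l r K : ℝ} (hab : a ≤ b) (hl : 0 < l)
    (hr : 0 < r) (hK : 0 ≤ K)
    (hf : ∀ t ∈ Set.Icc a b, HasDerivAt f (f' t) t)
    (hf' : ∀ t ∈ Set.Icc a b, r ≤ f' t)
    (hg1 : ∀ t, ‖g t‖ ≤ 1) (hgc : ContinuousOn g (Set.Icc a b))
    (hG : ∀ x y, a ≤ x → x ≤ y → y ≤ b →
      ((∀ t ∈ Set.Icc x y, f t ≤ -l) ∨ (∀ t ∈ Set.Icc x y, l ≤ f t)) →
      ‖∫ t in x..y, g t‖ ≤ K) :
    ‖∫ t in a..b, g t‖ ≤ 2 * K + 2 * l / r := by
  have hcf : ContinuousOn f (Set.Icc a b) := fun t ht => (hf t ht).continuousAt.continuousWithinAt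
  -- slope
  have hslope : ∀ x ∈ Set.Icc a b, ∀ y ∈ Set.Icc a b, x ≤ y → r * (y - x) ≤ f y - f x := by
    intro x hx y hy hxy
    have hsub : Set.Icc x y ⊆ Set.Icc a b := Set.Icc_subset_Icc hx.1 hy.2
    refine (convex_Icc x y).mul_sub_le_image_sub_of_le_deriv (hcf.mono hsub) ?_ ?_
      x (Set.left_mem_Icc.2 hxy) y (Set.right_mem_Icc.2 hxy) hxy
    · intro t ht
      rw [interior_Icc] at ht
      exact (hf t (hsub (Set.Ioo_subset_Icc_self ht))).differentiableAt.differentiableWithinAt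
    · intro t ht
      rw [interior_Icc] at ht
      rw [(hf t (hsub (Set.Ioo_subset_Icc_self ht))).deriv]
      exact hf' t (hsub (Set.Ioo_subset_Icc_self ht))
  have hm : MonotoneOn f (Set.Icc a b) := by
    intro x hx y hy hxy
    have := hslope x hx y hy hxy
    nlinarith
  obtain ⟨p, hap, hpb, hp1, hp2⟩ := crossP hab hcf hm (-l)
  have hsubp : Set.Icc p b ⊆ Set.Icc a b := Set.Icc_subset_Icc hap le_rfl
  obtain ⟨q, hpq, hqb, hq1, hq2⟩ := crossP hpb (hcf.mono hsubp) (hm.mono hsubp) l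
  have hii : ∀ x y : ℝ, a ≤ x → x ≤ y → y ≤ b → IntervalIntegrable g volume x y := by
    intro x y hx hxy hy
    refine ContinuousOn.intervalIntegrable ?_
    rw [Set.uIcc_of_le hxy]
    exact hgc.mono (Set.Icc_subset_Icc hx hy)
  have hsplit : ∫ t in a..b, g t = (∫ t in a..p, g t) +
      (∫ t in p..q, g t) + ∫ t in q..b, g t := by
    rw [intervalIntegral.integral_add_adjacent_intervals (hii a p le_rfl hap hpb)
        (hii p q hap hpq hqb),
      intervalIntegral.integral_add_adjacent_intervals (hii a q le_rfl (hap.trans hpq) hqb)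
        (hii q b (hap.trans hpq) hqb le_rfl)]
  have h1 : ‖∫ t in a..p, g t‖ ≤ K := by
    rcases hp1 with h | h
    · rw [← h, intervalIntegral.integral_same, norm_zero]
      exact hK
    · exact hG a p le_rfl hap hpb (Or.inl h)
  have h3 : ‖∫ t in q..b, g t‖ ≤ K := by
    rcases hq2 with h | h
    · rw [h, intervalIntegral.integral_same, norm_zero]
      exact hK
    · exact hG q b (hap.trans hpq) hqb le_rfl (Or.inr h)
  have h2 : ‖∫ t in p..q, g t‖ ≤ 2 * l / r := by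
    have h4 : ‖∫ t in p..q, g t‖ ≤ q - p := by
      have := intervalIntegral.norm_integral_le_of_norm_le_const (a := p) (b := q)
        (f := g) (C := 1) fun t _ => hg1 t
      rwa [one_mul, abs_of_nonneg (by linarith)] at this
    refine h4.trans ?_
    rcases hp2 with h | h
    · have : q - p = 0 := by
        have : q = b := le_antisymm hqb (by rw [← h]; exact hpq)
        rw [this, h]
        ring
      rw [this]
      positivity
    rcases hq1 with h' | h'
    · rw [← h', sub_self]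
      positivity
    · have h5 := hslope p ⟨hap, hpb⟩ q ⟨hap.trans hpq, hqb⟩ hpq
      have h6 := h p (Set.left_mem_Icc.2 hpb)
      have h7 := h' q (Set.right_mem_Icc.2 hpq)
      rw [le_div_iff₀ hr]
      nlinarith
  rw [hsplit]
  refine (norm_add₃_le).trans ?_
  linarith

/-- second derivative test -/
private theorem sdT {f f1 f2 : ℝ → ℝ} {a b r : ℝ} (hab : a ≤ b) (hr : 0 < r)
    (h1 : ∀ t ∈ Set.Icc a b, HasDerivAt f (f1 t) t)
    (h2 : ∀ t ∈ Set.Icc a b, HasDerivAt f1 (f2 t) t)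
    (hc2 : ContinuousOn f2 (Set.Icc a b))
    (hsg : (∀ t ∈ Set.Icc a b, f2 t ≤ -r) ∨ (∀ t ∈ Set.Icc a b, r ≤ f2 t)) :
    ‖∫ t in a..b, oscP f t‖ ≤ 4 / Real.sqrt r := by
  have hsr : 0 < Real.sqrt r := Real.sqrt_pos.2 hr
  have hgc : ContinuousOn (oscP f) (Set.Icc a b) := fun t ht =>
    (oscP_deriv (h1 t ht)).continuousAt.continuousWithinAt
  have hgn : ∀ t, ‖oscP f t‖ ≤ 1 := fun t => (oscP_norm f t).le
  have hcal : 2 * (1 / Real.sqrt r) + 2 * Real.sqrt r / r = 4 / Real.sqrt r := by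
    have : Real.sqrt r / r = 1 / Real.sqrt r := by
      rw [div_eq_div_iff hr.ne' hsr.ne', Real.mul_self_sqrt hr.le, one_mul]
    rw [mul_div_assoc, this]
    ring
  rw [← hcal]
  have hsub : ∀ x y, a ≤ x → y ≤ b → Set.Icc x y ⊆ Set.Icc a b := fun x y hx hy =>
    Set.Icc_subset_Icc hx hy
  rcases hsg with h | h
  · refine splitT (f := fun t => -f1 t) (f' := fun t => -f2 t) hab hsr hr (by positivity)
      (fun t ht => (h2 t ht).neg) (fun t ht => by have := h t ht; linarith) hgn hgc ?_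
    intro x y hx hxy hy hxy'
    have hs := hsub x y hx hy
    refine fdT hxy hsr (fun t ht => h1 t (hs ht)) (fun t ht => h2 t (hs ht)) (hc2.mono hs)
      (Or.inr fun t ht => by have := h t (hs ht); linarith) ?_
    intro t ht
    rw [← abs_neg]
    rcases hxy' with h' | h'
    · refine le_trans ?_ (neg_le_abs _)
      have := h' t ht
      linarith
    · exact le_trans (h' t ht) (le_abs_self _)
  · refine splitT (f := f1) (f' := f2) hab hsr hr (by positivity)
      h2 h hgn hgc ?_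
    intro x y hx hxy hy hxy'
    have hs := hsub x y hx hy
    refine fdT hxy hsr (fun t ht => h1 t (hs ht)) (fun t ht => h2 t (hs ht)) (hc2.mono hs)
      (Or.inl fun t ht => by have := h t (hs ht); linarith) ?_
    intro t ht
    rcases hxy' with h' | h'
    · refine le_trans ?_ (neg_le_abs _)
      have := h' t ht
      linarith
    · exact le_trans (h' t ht) (le_abs_self _)

/-- third derivative test -/
private theorem tdT {f f1 f2 f3 : ℝ → ℝ} {a b r : ℝ} (hab : a ≤ b) (hr : 0 < r)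
    (h1 : ∀ t ∈ Set.Icc a b, HasDerivAt f (f1 t) t)
    (h2 : ∀ t ∈ Set.Icc a b, HasDerivAt f1 (f2 t) t)
    (h3 : ∀ t ∈ Set.Icc a b, HasDerivAt f2 (f3 t) t)
    (hsg : (∀ t ∈ Set.Icc a b, f3 t ≤ -r) ∨ (∀ t ∈ Set.Icc a b, r ≤ f3 t)) :
    ‖∫ t in a..b, oscP f t‖ ≤ 10 / r ^ (1 / 3 : ℝ) := by
  set k := r ^ (1 / 3 : ℝ) with hk
  have hk0 : 0 < k := Real.rpow_pos_of_pos hr _
  have hk3 : k ^ 3 = r := by
    rw [hk, ← Real.rpow_natCast, ← Real.rpow_mul hr.le]
    norm_num
  have hl : 0 < k ^ 2 := by positivity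
  have hsq : Real.sqrt (k ^ 2) = k := Real.sqrt_sq hk0.le
  have hgc : ContinuousOn (oscP f) (Set.Icc a b) := fun t ht =>
    (oscP_deriv (h1 t ht)).continuousAt.continuousWithinAt
  have hgn : ∀ t, ‖oscP f t‖ ≤ 1 := fun t => (oscP_norm f t).le
  have hc2 : ContinuousOn f2 (Set.Icc a b) := fun t ht => (h3 t ht).continuousAt.continuousWithinAt
  have hcal : 2 * (4 / k) + 2 * k ^ 2 / r = 10 / k := by
    rw [← hk3]
    field_simp
    ring
  rw [← hcal]
  have hsub : ∀ x y, a ≤ x → y ≤ b → Set.Icc x y ⊆ Set.Icc a b := fun x y hx hy =>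
    Set.Icc_subset_Icc hx hy
  rcases hsg with h | h
  · refine splitT (f := fun t => -f2 t) (f' := fun t => -f3 t) hab hl hr (by positivity)
      (fun t ht => (h3 t ht).neg) (fun t ht => by have := h t ht; linarith) hgn hgc ?_
    intro x y hx hxy hy hxy'
    have hs := hsub x y hx hy
    have := sdT hxy hl (fun t ht => h1 t (hs ht)) (fun t ht => h2 t (hs ht)) (hc2.mono hs)
      (by
        rcases hxy' with h' | h'
        · exact Or.inr fun t ht => by have := h' t ht; linarith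
        · exact Or.inl fun t ht => by have := h' t ht; linarith)
    rwa [hsq] at this
  · refine splitT (f := f2) (f' := f3) hab hl hr (by positivity)
      h3 h hgn hgc ?_
    intro x y hx hxy hy hxy'
    have hs := hsub x y hx hy
    have := sdT hxy hl (fun t ht => h1 t (hs ht)) (fun t ht => h2 t (hs ht)) (hc2.mono hs) hxy'
    rwa [hsq] at this

private theorem ph1 (u v s c : ℝ) {t : ℝ} (ht : 0 < t) :
    HasDerivAt (fun t : ℝ => u * t + v / t + s * t ^ 2 + c) (u - v / t ^ 2 + 2 * s * t) t := by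
  have h1 : HasDerivAt (fun t : ℝ => u * t) u t := by
    simpa using (hasDerivAt_id t).const_mul u
  have h2 : HasDerivAt (fun t : ℝ => v / t) (-(v / t ^ 2)) t := by
    have := (hasDerivAt_inv ht.ne').const_mul v
    refine (this.congr_of_eventuallyEq ?_).congr_deriv ?_
    · exact Filter.Eventually.of_forall fun x => by simp [div_eq_mul_inv]
    · rw [div_eq_mul_inv]
      ring
  have h3 : HasDerivAt (fun t : ℝ => s * t ^ 2) (s * (2 * t)) t := by
    have := (hasDerivAt_pow 2 t).const_mul s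
    refine this.congr_deriv ?_
    simp
  refine (((h1.add h2).add h3).add_const c).congr_deriv ?_
  ring

private theorem ph2 (u v s : ℝ) {t : ℝ} (ht : 0 < t) :
    HasDerivAt (fun t : ℝ => u - v / t ^ 2 + 2 * s * t) (2 * v / t ^ 3 + 2 * s) t := by
  have h1 : HasDerivAt (fun t : ℝ => (t ^ 2)⁻¹) (-(2 * t) / (t ^ 2) ^ 2) t := by
    have := (hasDerivAt_pow 2 t).inv (by positivity)
    refine this.congr_deriv ?_
    simp
  have h2 := (h1.const_mul v).const_sub u
  have h3 : HasDerivAt (fun t : ℝ => 2 * s * t) (2 * s) t := by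
    simpa using (hasDerivAt_id t).const_mul (2 * s)
  refine ((h2.add h3).congr_of_eventuallyEq ?_).congr_deriv ?_
  · exact Filter.Eventually.of_forall fun x => by simp [div_eq_mul_inv]
  · field_simp

private theorem ph3 (v s : ℝ) {t : ℝ} (ht : 0 < t) :
    HasDerivAt (fun t : ℝ => 2 * v / t ^ 3 + 2 * s) (-(6 * v / t ^ 4)) t := by
  have h1 : HasDerivAt (fun t : ℝ => (t ^ 3)⁻¹) (-(3 * t ^ 2) / (t ^ 3) ^ 2) t := by
    have := (hasDerivAt_pow 3 t).inv (by positivity)
    refine this.congr_deriv ?_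
    simp
  have h2 := (h1.const_mul (2 * v)).add_const (2 * s)
  refine (h2.congr_of_eventuallyEq ?_).congr_deriv ?_
  · exact Filter.Eventually.of_forall fun x => by simp [div_eq_mul_inv]
  · field_simp
    ring

theorem osc3 {B : ℝ} (hB : 0 < B) : ∃ C : ℝ, 1 ≤ C ∧ ∀ a b u v s c U : ℝ, 0 < a → a ≤ b → b ≤ B → 1 ≤ U →
    (v = 0 ∨ U ≤ |v|) → (s = 0 ∨ U ≤ |s|) → (v = 0 → s = 0 → U ≤ |u|) →
    ‖∫ t in a..b, Complex.exp (2 * Real.pi * Complex.I * ((u * t + v / t + s * t ^ 2 + c : ℝ) : ℂ))‖ ≤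
      C / U ^ (1 / 3 : ℝ) := by
  set D := 10 / (6 / B ^ 4) ^ (1 / 3 : ℝ) with hD
  have hD0 : 0 < D := by
    rw [hD]
    have : (0 : ℝ) < (6 / B ^ 4) ^ (1 / 3 : ℝ) := Real.rpow_pos_of_pos (by positivity) _
    positivity
  refine ⟨D + 4, by linarith, ?_⟩
  intro a b u v s c U ha hab hb hU hv hs huv
  have hU0 : 0 < U := by linarith
  have hk0 : 0 < U ^ (1 / 3 : ℝ) := Real.rpow_pos_of_pos hU0 _
  have hkU : U ^ (1 / 3 : ℝ) ≤ U := by
    calc U ^ (1 / 3 : ℝ) ≤ U ^ (1 : ℝ) := Real.rpow_le_rpow_of_exponent_le hU (by norm_num)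
      _ = U := Real.rpow_one U
  have hkS : U ^ (1 / 3 : ℝ) ≤ Real.sqrt U := by
    rw [Real.sqrt_eq_rpow]
    exact Real.rpow_le_rpow_of_exponent_le hU (by norm_num)
  have hpos : ∀ t ∈ Set.Icc a b, 0 < t := fun t ht => lt_of_lt_of_le ha ht.1
  set f : ℝ → ℝ := fun t => u * t + v / t + s * t ^ 2 + c with hf
  have h1 : ∀ t ∈ Set.Icc a b, HasDerivAt f (u - v / t ^ 2 + 2 * s * t) t := fun t ht =>
    ph1 u v s c (hpos t ht)
  have h2 : ∀ t ∈ Set.Icc a b,
      HasDerivAt (fun t : ℝ => u - v / t ^ 2 + 2 * s * t) (2 * v / t ^ 3 + 2 * s) t := fun t ht =>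
    ph2 u v s (hpos t ht)
  have h3 : ∀ t ∈ Set.Icc a b,
      HasDerivAt (fun t : ℝ => 2 * v / t ^ 3 + 2 * s) (-(6 * v / t ^ 4)) t := fun t ht =>
    ph3 v s (hpos t ht)
  have hc2 : ContinuousOn (fun t : ℝ => 2 * v / t ^ 3 + 2 * s) (Set.Icc a b) := fun t ht =>
    (h3 t ht).continuousAt.continuousWithinAt
  change ‖∫ t in a..b, oscP f t‖ ≤ _
  rcases eq_or_ne v 0 with hv0 | hv0
  · rcases eq_or_ne s 0 with hs0 | hs0
    · have hUu := huv hv0 hs0
      have h4 : ‖∫ t in a..b, oscP f t‖ ≤ 1 / U := by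
        refine fdT hab hU0 h1 h2 hc2 (Or.inl fun t _ => ?_) fun t _ => ?_
        · simp [hv0, hs0]
        · simpa [hv0, hs0] using hUu
      refine h4.trans ?_
      rw [div_le_div_iff₀ hU0 hk0]
      nlinarith
    · have hUs : U ≤ |s| := by
        rcases hs with h | h
        · exact absurd h hs0
        · exact h
      have h4 : ‖∫ t in a..b, oscP f t‖ ≤ 4 / Real.sqrt U := by
        refine sdT hab hU0 h1 h2 hc2 ?_
        rcases le_total 0 s with h5 | h5
        · rw [abs_of_nonneg h5] at hUs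
          refine Or.inr fun t _ => ?_
          simp only [hv0, mul_zero, zero_div, zero_add]
          linarith
        · rw [abs_of_nonpos h5] at hUs
          refine Or.inl fun t _ => ?_
          simp only [hv0, mul_zero, zero_div, zero_add]
          linarith
      refine h4.trans ?_
      have h5 : 4 / Real.sqrt U ≤ 4 / U ^ (1 / 3 : ℝ) := by gcongr
      refine h5.trans ?_
      gcongr
      linarith
  · have hUv : U ≤ |v| := by
      rcases hv with h | h
      · exact absurd h hv0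
      · exact h
    have hr : 0 < 6 / B ^ 4 * U := by positivity
    have h4 : ‖∫ t in a..b, oscP f t‖ ≤ 10 / (6 / B ^ 4 * U) ^ (1 / 3 : ℝ) := by
      refine tdT hab hr h1 h2 h3 ?_
      have hkey : ∀ t ∈ Set.Icc a b, 6 / B ^ 4 * U ≤ 6 * |v| / t ^ 4 := by
        intro t ht
        have ht0 := hpos t ht
        have htB : t ≤ B := ht.2.trans hb
        have e1 : 6 / B ^ 4 * U = 6 * U / B ^ 4 := by ring
        rw [e1]
        gcongr
      rcases le_total 0 v with h5 | h5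
      · rw [abs_of_nonneg h5] at hkey
        exact Or.inl fun t ht => neg_le_neg (hkey t ht)
      · rw [abs_of_nonpos h5] at hkey
        refine Or.inr fun t ht => ?_
        have h6 := hkey t ht
        have e2 : 6 * -v / t ^ 4 = -(6 * v / t ^ 4) := by ring
        rwa [e2] at h6
    refine h4.trans ?_
    rw [Real.mul_rpow (by positivity) hU0.le, ← div_div]
    gcongr
    rw [← hD]
    linarith

end SMD
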