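import Pool.Agent.SMD.Defs
import Pool.Agent.SMD.Osc3
import Pool.Agent.SMC.EquiF
import Pool.Agent.MCC.Defs

/-!
# SMD.Equi6: joint distribution of the six numbers `six β γ m m'` modulo small numbers

PROOF. Exactly as `Pool/Agent/SMC/Equi4.lean` (copy its private lemmas; `Equi4_floor`, `Equi4_ceil`, `Equi4_lin`) with `r = 6` in
`SMC.equi_fejer`: `f = ![(t m + β)/d0, -((m-β)/t)/d1, (t² m + t β + γ)/d2, (t m' + β)/d3, -((m'-β)/t)/d4, (t² m' + t β + γ)/d5]`, `θ i = 1/d i`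
(all the six numbers inside the roundings are `≥ 0` for `t ∈ [a,b]` and large `X`) and
`∑ h_i f_i = u t + v/t + s t² + c` with `s = h2 m/d2 + h5 m'/d5`, `v = -(h1 (m-β)/d1 + h4 (m'-β)/d4)`,
`u = h0 m/d0 + h3 m'/d3 + β (h2/d2 + h5/d5)`. `n = ⌊X^(η/4)⌋₊`, so `|h_i| ≤ n² ≤ X^(η/2)`. `U = X^(1-6η)`: if `(h2, h5) ≠ 0`, then `|s| ≥ 2U` (`Equi4_lin`), otherwise
`s = 0`; if `(h1, h4) ≠ 0` then `|v| ≥ U` (the terms with `β` are `≤ 2|β| X^(η/2)`), otherwise `v = 0`; if all four vanish, then `(h0, h3) ≠ 0` and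
`u = h0 m/d0 + h3 m'/d3`, `|u| ≥ 2U`; but if `v = 0` and `s = 0` then `h1 = h4 = 0` and `h2 = h5 = 0`. So `osc3` (with `B = b`) gives
`ω = C X^(-(1-6η)/3)`, and `equi_fejer` the error `C' ((b-a) 2 X^(-η/4) + X^(3η) C X^(-(1-6η)/3)) ≤ X^(-η/5)` for large `X`
(`5η - 1/3 ≤ -1/5 < -η/5` as `η ≤ 1/40`).
-/

namespace SMD

open MeasureTheory Filter SMC

private theorem Equi6_dvd {e : ℕ} (he : 1 ≤ e) (y : ℝ) :
    (e : ℤ) ∣ ⌊y⌋ ↔ Int.fract (y / e) < 1 / e := by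
  have he' : (0 : ℝ) < e := by exact_mod_cast he
  have he1 : (1 : ℝ) ≤ e := by exact_mod_cast he
  constructor
  · rintro ⟨k, hk⟩
    have h1 : (⌊y⌋ : ℝ) = e * k := by rw [hk]; push_cast; ring
    have h2 := Int.floor_le y
    have h3 := Int.lt_floor_add_one y
    rw [h1] at h2 h3
    have h4 : Int.fract (y / e) = y / e - k := by
      rw [Int.fract_eq_iff]
      refine ⟨?_, ?_, k, by ring⟩
      · rw [sub_nonneg, le_div_iff₀ he']
        linarith
      · rw [sub_lt_iff_lt_add, div_lt_iff₀ he']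
        nlinarith
    rw [h4, sub_lt_iff_lt_add, div_lt_iff₀ he', add_mul, one_div_mul_cancel he'.ne']
    linarith
  · intro h
    refine ⟨⌊y / e⌋, ?_⟩
    rw [← Int.self_sub_floor, sub_lt_iff_lt_add, div_lt_iff₀ he', add_mul,
      one_div_mul_cancel he'.ne'] at h
    have h2 := Int.floor_le (y / e)
    rw [le_div_iff₀ he'] at h2
    rw [Int.floor_eq_iff]
    push_cast
    constructor
    · linarith
    · linarith

private theorem Equi6_floor {e : ℕ} (he : 1 ≤ e) {y : ℝ} (hy : 0 ≤ y) :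
    e ∣ ⌊y⌋₊ ↔ Int.fract (y / e) < 1 / e := by
  rw [← Equi6_dvd he y, ← Int.natCast_floor_eq_floor hy]
  exact Int.natCast_dvd_natCast.symm

private theorem Equi6_ceil {e : ℕ} (he : 1 ≤ e) {y : ℝ} (hy : 0 ≤ y) :
    e ∣ ⌈y⌉₊ ↔ Int.fract (-y / e) < 1 / e := by
  rw [← Equi6_dvd he (-y), Int.floor_neg, dvd_neg, ← Int.natCast_ceil_eq_ceil hy]
  exact Int.natCast_dvd_natCast.symm

/-- the linear forms are large -/
private theorem Equi6_lin {X η κ1 : ℝ} (hη : 0 < η) (hX : 1 ≤ X)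
    (h1 : 1 / κ1 ≤ X ^ (5 * η)) (h2 : 2 ≤ X ^ (7 * η / 8)) (hκ : 0 < κ1) {m m' : ℕ}
    (hm : κ1 * X ≤ (m : ℝ)) (hm' : κ1 * X ≤ (m' : ℝ)) (hNE : MCC.NE X η m m') {d e : ℕ} (hd : 1 ≤ d)
    (he : 1 ≤ e) (hdX : (d : ℝ) ≤ X ^ (η / 16)) (heX : (e : ℝ) ≤ X ^ (η / 16)) {p q : ℤ}
    (hp : |(p : ℝ)| ≤ X ^ (η / 2)) (hq : |(q : ℝ)| ≤ X ^ (η / 2)) (hpq : p ≠ 0 ∨ q ≠ 0) :
    2 * X ^ (1 - 6 * η) ≤ |(p : ℝ) * m / d + q * m' / e| := by
  have hXp : 0 < X := by linarith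
  have hd' : (1 : ℝ) ≤ d := by exact_mod_cast hd
  have he' : (1 : ℝ) ≤ e := by exact_mod_cast he
  have hκX : X ^ (1 - 5 * η) ≤ κ1 * X := by
    have h3 : X ^ (1 - 5 * η) * X ^ (5 * η) = X := by
      rw [← Real.rpow_add hXp]
      have : 1 - 5 * η + 5 * η = 1 := by ring
      rw [this, Real.rpow_one]
    have h4 : X ^ (1 - 5 * η) * (1 / κ1) ≤ X := by
      calc X ^ (1 - 5 * η) * (1 / κ1) ≤ X ^ (1 - 5 * η) * X ^ (5 * η) := by gcongr
        _ = X := h3
    rw [mul_one_div, div_le_iff₀ hκ] at h4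
    linarith
  have hmpos : (0 : ℝ) ≤ m := Nat.cast_nonneg m
  have hmpos' : (0 : ℝ) ≤ m' := Nat.cast_nonneg m'
  -- the numerator
  have hA : X ^ (1 - 5 * η) ≤ |(p : ℝ) * e * m + q * d * m'| := by
    refine le_trans ?_ (le_refl _)
    have key : ∀ x : ℤ, x ≠ 0 → (1 : ℝ) ≤ |(x : ℝ)| := by
      intro x hx
      have := Int.one_le_abs hx
      exact_mod_cast this
    have hbig : ∀ (x : ℤ) (k : ℕ) (l : ℝ), x ≠ 0 → 1 ≤ k → κ1 * X ≤ l →
        X ^ (1 - 5 * η) ≤ |(x : ℝ)| * k * l := by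
      intro x k l hx hk hl
      have h3 := key x hx
      have h4 : (1 : ℝ) ≤ k := by exact_mod_cast hk
      have h5 : 0 ≤ l := le_trans (by positivity) hl
      calc X ^ (1 - 5 * η) ≤ κ1 * X := hκX
        _ ≤ l := hl
        _ = 1 * 1 * l := by ring
        _ ≤ |(x : ℝ)| * k * l := by gcongr
    by_cases hp0 : p = 0
    · have hq0 : q ≠ 0 := by
        rcases hpq with h | h
        · exact absurd hp0 h
        · exact h
      rw [hp0]
      have h3 : |((0 : ℤ) : ℝ) * e * m + q * d * m'| = |(q : ℝ)| * d * m' := by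
        rw [Int.cast_zero, zero_mul, zero_mul, zero_add, abs_mul, abs_mul, abs_of_nonneg hmpos',
          abs_of_nonneg (by linarith : (0 : ℝ) ≤ d)]
      rw [h3]
      exact hbig q d m' hq0 hd hm'
    by_cases hq0 : q = 0
    · rw [hq0]
      have h3 : |(p : ℝ) * e * m + ((0 : ℤ) : ℝ) * d * m'| = |(p : ℝ)| * e * m := by
        rw [Int.cast_zero, zero_mul, zero_mul, add_zero, abs_mul, abs_mul, abs_of_nonneg hmpos,
          abs_of_nonneg (by linarith : (0 : ℝ) ≤ e)]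
      rw [h3]
      exact hbig p e m hp0 he hm
    have hP : (p.natAbs : ℝ) = |(p : ℝ)| := by
      rw [Nat.cast_natAbs, Int.cast_abs]
    have hQ : (q.natAbs : ℝ) = |(q : ℝ)| := by
      rw [Nat.cast_natAbs, Int.cast_abs]
    have hmul : ∀ k : ℕ, (k : ℝ) ≤ X ^ (η / 16) → ∀ x : ℝ, 0 ≤ x → x ≤ X ^ (η / 2) → x * k ≤ X ^ η := by
      intro k hk x hx0 hx
      calc x * k ≤ X ^ (η / 2) * X ^ (η / 16) := by gcongr
        _ = X ^ (η / 2 + η / 16) := (Real.rpow_add hXp _ _).symm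
        _ ≤ X ^ η := Real.rpow_le_rpow_of_exponent_le hX (by linarith)
    have hne := hNE (p.natAbs * e) (q.natAbs * d)
      (Nat.mul_pos (Int.natAbs_pos.2 hp0) he) (Nat.mul_pos (Int.natAbs_pos.2 hq0) hd)
      (by
        push_cast
        rw [hP]
        exact hmul e heX _ (abs_nonneg _) hp)
      (by
        push_cast
        rw [hQ]
        exact hmul d hdX _ (abs_nonneg _) hq)
    push_cast at hne
    rw [hP, hQ] at hne
    rcases lt_or_gt_of_ne hp0 with hp1 | hp1 <;> rcases lt_or_gt_of_ne hq0 with hq1 | hq1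
    · have hp2 : (p : ℝ) < 0 := by exact_mod_cast hp1
      have hq2 : (q : ℝ) < 0 := by exact_mod_cast hq1
      have h3 := hbig p e m hp0 he hm
      have h4 : 0 ≤ |(q : ℝ)| * d * m' := by positivity
      rw [abs_of_neg hp2] at h3
      rw [abs_of_neg hq2] at h4
      have h5 := neg_le_abs ((p : ℝ) * e * m + q * d * m')
      linarith
    · have hp2 : (p : ℝ) < 0 := by exact_mod_cast hp1
      have hq2 : 0 < (q : ℝ) := by exact_mod_cast hq1
      rw [abs_of_neg hp2, abs_of_pos hq2] at hne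
      have h5 : |-(p : ℝ) * e * m - q * d * m'| = |(p : ℝ) * e * m + q * d * m'| := by
        rw [← abs_neg]
        congr 1
        ring
      rw [← h5]
      exact hne
    · have hp2 : 0 < (p : ℝ) := by exact_mod_cast hp1
      have hq2 : (q : ℝ) < 0 := by exact_mod_cast hq1
      rw [abs_of_pos hp2, abs_of_neg hq2] at hne
      have h5 : |(p : ℝ) * e * m - -(q : ℝ) * d * m'| = |(p : ℝ) * e * m + q * d * m'| := by
        congr 1
        ring
      rw [← h5]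
      exact hne
    · have hp2 : 0 < (p : ℝ) := by exact_mod_cast hp1
      have hq2 : 0 < (q : ℝ) := by exact_mod_cast hq1
      have h3 := hbig p e m hp0 he hm
      have h4 : 0 ≤ |(q : ℝ)| * d * m' := by positivity
      rw [abs_of_pos hp2] at h3
      rw [abs_of_pos hq2] at h4
      have h5 := le_abs_self ((p : ℝ) * e * m + q * d * m')
      linarith
  have h3 : (p : ℝ) * m / d + q * m' / e = ((p : ℝ) * e * m + q * d * m') / (d * e) := by
    have hd0 : (d : ℝ) ≠ 0 := by linarith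
    have he0 : (e : ℝ) ≠ 0 := by linarith
    field_simp
  have hde : (0 : ℝ) < d * e := by positivity
  rw [h3, abs_div, abs_of_pos hde, le_div_iff₀ hde]
  refine le_trans ?_ hA
  have h4 : (d : ℝ) * e ≤ X ^ (η / 8) := by
    calc (d : ℝ) * e ≤ X ^ (η / 16) * X ^ (η / 16) := by gcongr
      _ = X ^ (η / 8) := by
        rw [← Real.rpow_add hXp]
        congr 1
        ring
  calc 2 * X ^ (1 - 6 * η) * (d * e) ≤ X ^ (7 * η / 8) * X ^ (1 - 6 * η) * X ^ (η / 8) := by gcongr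
    _ = X ^ (1 - 5 * η) := by
      rw [← Real.rpow_add hXp, ← Real.rpow_add hXp]
      congr 1
      ring

theorem equi6 {η : ℝ} (hη : 0 < η) (hη1 : η ≤ 1 / 40) {a b κ1 κ2 : ℝ} (β γ : ℝ) (ha : 0 < a) (hab : a < b)
    (hκ : 0 < κ1) :
    ∃ X0 : ℝ, ∀ X : ℝ, X0 ≤ X → ∀ m m' : ℕ, κ1 * X ≤ (m : ℝ) → (m : ℝ) ≤ κ2 * X →
      κ1 * X ≤ (m' : ℝ) → (m' : ℝ) ≤ κ2 * X → MCC.NE X η m m' → ∀ d : Fin 6 → ℕ, (∀ i, 1 ≤ d i) →
      (∀ i, (d i : ℝ) ≤ X ^ (η / 16)) →
      |(volume {t : ℝ | t ∈ Set.Icc a b ∧ ∀ i, d i ∣ six β γ m m' i t}).toReal - (b - a) / ∏ i, (d i : ℝ)| ≤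
        X ^ (-(η / 5)) := by
  obtain ⟨C1, hC1, hF⟩ := equi_fejer 6
  have hb : 0 < b := ha.trans hab
  obtain ⟨C2, hC2, hO⟩ := osc3 hb
  have hev : ∀ (c s : ℝ), 0 < s → ∀ᶠ X : ℝ in atTop, c ≤ X ^ s := fun c s hs =>
    (tendsto_rpow_atTop hs).eventually_ge_atTop c
  have e1 : ∀ᶠ X : ℝ in atTop, 1 ≤ X := eventually_ge_atTop 1
  have e2 : ∀ᶠ X : ℝ in atTop, |β| / (a * κ1) ≤ X := eventually_ge_atTop _
  have e2' : ∀ᶠ X : ℝ in atTop, |β| / κ1 ≤ X := eventually_ge_atTop _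
  have e2'' : ∀ᶠ X : ℝ in atTop, (b * |β| + |γ|) / (a ^ 2 * κ1) ≤ X := eventually_ge_atTop _
  have e3 := hev (1 / κ1) (5 * η) (by positivity)
  have e4 := hev 2 (7 * η / 8) (by positivity)
  have e5 := hev (2 * |β|) (1 - 6 * η - η / 2) (by linarith)
  have e6 := hev 2 (η / 4) (by positivity)
  have e7 := hev (4 * (C1 * (b - a))) (η / 20) (by positivity)
  have e8 := hev (2 * (C1 * C2)) (1 / 3 - 5 * η - η / 5) (by linarith)
  obtain ⟨X0, hX0⟩ := eventually_atTop.1 (e1.and (e2.and (e2'.and (e2''.and (e3.and (e4.and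
    (e5.and (e6.and (e7.and e8)))))))))
  refine ⟨X0, fun X hX m m' hm1 hm2 hm1' hm2' hNE d hd hD => ?_⟩
  obtain ⟨g1, g2, g2', g2'', g3, g4, g5, g6, g7, g8⟩ := hX0 X hX
  have hXp : 0 < X := by linarith
  have hκX : 0 < κ1 * X := by positivity
  have hβ : |β| ≤ a * (κ1 * X) := by
    have h6 : |β| ≤ X * (a * κ1) := (div_le_iff₀ (by positivity)).1 g2
    linarith
  have hβ' : |β| ≤ κ1 * X := by
    have h6 : |β| ≤ X * κ1 := (div_le_iff₀ (by positivity)).1 g2'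
    linarith
  have hβ'' : b * |β| + |γ| ≤ a ^ 2 * (κ1 * X) := by
    have h6 : b * |β| + |γ| ≤ X * (a ^ 2 * κ1) := (div_le_iff₀ (by positivity)).1 g2''
    linarith
  have hpos : ∀ n : ℕ, κ1 * X ≤ (n : ℝ) → ∀ t, a ≤ t → 0 ≤ t * n + β := by
    intro n hn t ht
    have h6 : a * (κ1 * X) ≤ t * n := mul_le_mul ht hn hκX.le (by linarith)
    have h7 := neg_abs_le β
    linarith
  have hpos' : ∀ n : ℕ, κ1 * X ≤ (n : ℝ) → ∀ t, a ≤ t → 0 ≤ ((n : ℝ) - β) / t := by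
    intro n hn t ht
    have h7 := le_abs_self β
    exact div_nonneg (by linarith) (by linarith)
  have hpos'' : ∀ n : ℕ, κ1 * X ≤ (n : ℝ) → ∀ t, a ≤ t → t ≤ b →
      0 ≤ t ^ 2 * n + t * β + γ := by
    intro n hn t ht htb
    have h5 : a ^ 2 ≤ t ^ 2 := pow_le_pow_left₀ ha.le ht 2
    have h6 : a ^ 2 * (κ1 * X) ≤ t ^ 2 * n := mul_le_mul h5 hn hκX.le (by positivity)
    have h7 := neg_abs_le γ
    have ht0 : 0 ≤ t := by linarith
    have h8 : t * |β| ≤ b * |β| := mul_le_mul_of_nonneg_right htb (abs_nonneg β)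
    have h9 : -(t * |β|) ≤ t * β := by
      have := mul_le_mul_of_nonneg_left (neg_abs_le β) ht0
      linarith
    linarith
  -- the set
  obtain ⟨f, hf⟩ : ∃ f : Fin 6 → ℝ → ℝ, f = ![fun t => (t * m + β) / d 0,
    fun t => -(((m : ℝ) - β) / t) / d 1, fun t => (t ^ 2 * m + t * β + γ) / d 2,
    fun t => (t * m' + β) / d 3, fun t => -(((m' : ℝ) - β) / t) / d 4,
    fun t => (t ^ 2 * m' + t * β + γ) / d 5] := ⟨_, rfl⟩
  obtain ⟨θ, hθ⟩ : ∃ θ : Fin 6 → ℝ, θ = fun i => 1 / (d i : ℝ) := ⟨_, rfl⟩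
  have f0 : f 0 = fun t => (t * m + β) / d 0 := by rw [hf]; rfl
  have f1 : f 1 = fun t => -(((m : ℝ) - β) / t) / d 1 := by rw [hf]; rfl
  have f2 : f 2 = fun t => (t ^ 2 * m + t * β + γ) / d 2 := by rw [hf]; rfl
  have f3 : f 3 = fun t => (t * m' + β) / d 3 := by rw [hf]; rfl
  have f4 : f 4 = fun t => -(((m' : ℝ) - β) / t) / d 4 := by rw [hf]; rfl
  have f5 : f 5 = fun t => (t ^ 2 * m' + t * β + γ) / d 5 := by rw [hf]; rfl
  have ti : ∀ i, θ i = 1 / (d i : ℝ) := fun i => by rw [hθ]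
  have hset : {t : ℝ | t ∈ Set.Icc a b ∧ ∀ i, d i ∣ six β γ m m' i t} =
      {t : ℝ | t ∈ Set.Icc a b ∧ ∀ i, Int.fract (f i t) < θ i} := by
    ext t
    simp only [Set.mem_ofPred_eq]
    refine and_congr_right fun ht => forall_congr' fun i => ?_
    fin_cases i
    · show d 0 ∣ ⌊t * m + β⌋₊ ↔ Int.fract (f 0 t) < θ 0
      rw [f0, ti, Equi6_floor (hd 0) (hpos m hm1 t ht.1)]
    · show d 1 ∣ ⌈((m : ℝ) - β) / t⌉₊ ↔ Int.fract (f 1 t) < θ 1
      rw [f1, ti, Equi6_ceil (hd 1) (hpos' m hm1 t ht.1)]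
    · show d 2 ∣ ⌊t ^ 2 * m + t * β + γ⌋₊ ↔ Int.fract (f 2 t) < θ 2
      rw [f2, ti, Equi6_floor (hd 2) (hpos'' m hm1 t ht.1 ht.2)]
    · show d 3 ∣ ⌊t * m' + β⌋₊ ↔ Int.fract (f 3 t) < θ 3
      rw [f3, ti, Equi6_floor (hd 3) (hpos m' hm1' t ht.1)]
    · show d 4 ∣ ⌈((m' : ℝ) - β) / t⌉₊ ↔ Int.fract (f 4 t) < θ 4
      rw [f4, ti, Equi6_ceil (hd 4) (hpos' m' hm1' t ht.1)]
    · show d 5 ∣ ⌊t ^ 2 * m' + t * β + γ⌋₊ ↔ Int.fract (f 5 t) < θ 5
      rw [f5, ti, Equi6_floor (hd 5) (hpos'' m' hm1' t ht.1 ht.2)]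
  have hd' : ∀ i, (1 : ℝ) ≤ d i := fun i => by exact_mod_cast hd i
  obtain ⟨n, hn⟩ : ∃ n : ℕ, n = ⌊X ^ (η / 4)⌋₊ := ⟨_, rfl⟩
  have hY1 : (1 : ℝ) ≤ X ^ (η / 4) := by linarith
  have hn0 : 1 ≤ n := by
    rw [hn]
    exact Nat.floor_pos.2 hY1
  have hn1 : (n : ℝ) ≤ X ^ (η / 4) := by
    rw [hn]
    exact Nat.floor_le (by positivity)
  have hn2 : X ^ (η / 4) / 2 ≤ n := by
    have h1 : X ^ (η / 4) < n + 1 := by
      rw [hn]
      exact Nat.lt_floor_add_one _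
    linarith
  have hnr : (0 : ℝ) < n := by exact_mod_cast hn0
  have hnsq : (n : ℝ) ^ 2 ≤ X ^ (η / 2) := by
    calc (n : ℝ) ^ 2 ≤ (X ^ (η / 4)) ^ 2 := by gcongr
      _ = X ^ (η / 2) := by
        rw [← Real.rpow_natCast, ← Real.rpow_mul hXp.le]
        congr 1
        push_cast
        ring
  have hU1 : (1 : ℝ) ≤ X ^ (1 - 6 * η) := Real.one_le_rpow g1 (by linarith)
  have hU0 : (0 : ℝ) < X ^ (1 - 6 * η) := by positivity
  have hmain := hF n a b (C2 / (X ^ (1 - 6 * η)) ^ (1 / 3 : ℝ)) f θ hn0 hab.le (by positivity)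
    (by
      intro i
      fin_cases i
      · show Measurable (f 0)
        rw [f0]
        fun_prop
      · show Measurable (f 1)
        rw [f1]
        fun_prop
      · show Measurable (f 2)
        rw [f2]
        fun_prop
      · show Measurable (f 3)
        rw [f3]
        fun_prop
      · show Measurable (f 4)
        rw [f4]
        fun_prop
      · show Measurable (f 5)
        rw [f5]
        fun_prop)
    (by
      intro i
      rw [ti]
      positivity)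
    (by
      intro i
      rw [ti]
      exact (div_le_one (by linarith [hd' i])).2 (hd' i))
    (by
      intro h hh0 hhn
      have hh : ∀ i, |(h i : ℝ)| ≤ X ^ (η / 2) := fun i => (hhn i).trans hnsq
      obtain ⟨s, hs⟩ : ∃ s : ℝ, s = (h 2 : ℝ) * m / d 2 + h 5 * m' / d 5 := ⟨_, rfl⟩
      obtain ⟨u, hu⟩ : ∃ u : ℝ, u = (h 0 : ℝ) * m / d 0 + h 3 * m' / d 3 +
        β * (h 2 / d 2 + h 5 / d 5) := ⟨_, rfl⟩
      obtain ⟨v, hv⟩ : ∃ v : ℝ, v = -((h 1 : ℝ) * m / d 1 + h 4 * m' / d 4) +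
        (h 1 * β / d 1 + h 4 * β / d 4) := ⟨_, rfl⟩
      obtain ⟨c, hc⟩ : ∃ c : ℝ, c = (h 0 : ℝ) * β / d 0 + h 3 * β / d 3 +
        (h 2 * γ / d 2 + h 5 * γ / d 5) := ⟨_, rfl⟩
      have hsum : ∀ t : ℝ, ∑ i, (h i : ℝ) * f i t = u * t + v / t + s * t ^ 2 + c := by
        intro t
        rw [Fin.sum_univ_six, f0, f1, f2, f3, f4, f5, hu, hv, hc, hs]
        ring
      have hs1 : (h 2 ≠ 0 ∨ h 5 ≠ 0) → X ^ (1 - 6 * η) ≤ |s| := by
        intro h1
        have h2 := Equi6_lin hη g1 g3 g4 hκ hm1 hm1' hNE (hd 2) (hd 5) (hD 2) (hD 5) (hh 2) (hh 5) h1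
        rw [hs]
        linarith
      have hv1 : (h 1 ≠ 0 ∨ h 4 ≠ 0) → X ^ (1 - 6 * η) ≤ |v| := by
        intro h1
        have h2 := Equi6_lin hη g1 g3 g4 hκ hm1 hm1' hNE (hd 1) (hd 4) (hD 1) (hD 4) (hh 1) (hh 4) h1
        have h3 : |(h 1 : ℝ) * β / d 1 + h 4 * β / d 4| ≤ X ^ (1 - 6 * η) := by
          have h4 : ∀ (x : ℝ) (k : ℕ), |x| ≤ X ^ (η / 2) → 1 ≤ k → |x * β / k| ≤ X ^ (η / 2) * |β| := by
            intro x k hx hk
            have hk' : (1 : ℝ) ≤ k := by exact_mod_cast hk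
            rw [abs_div, abs_mul, abs_of_nonneg (by linarith : (0 : ℝ) ≤ k)]
            calc |x| * |β| / k ≤ |x| * |β| := div_le_self (by positivity) hk'
              _ ≤ X ^ (η / 2) * |β| := by gcongr
          calc |(h 1 : ℝ) * β / d 1 + h 4 * β / d 4| ≤ |(h 1 : ℝ) * β / d 1| + |(h 4 : ℝ) * β / d 4| :=
                abs_add_le _ _
            _ ≤ X ^ (η / 2) * |β| + X ^ (η / 2) * |β| :=
                add_le_add (h4 _ _ (hh 1) (hd 1)) (h4 _ _ (hh 4) (hd 4))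
            _ = X ^ (η / 2) * (2 * |β|) := by ring
            _ ≤ X ^ (η / 2) * X ^ (1 - 6 * η - η / 2) := by gcongr
            _ = X ^ (1 - 6 * η) := by
                rw [← Real.rpow_add hXp]
                congr 1
                ring
        have h5 : |(h 1 : ℝ) * m / d 1 + h 4 * m' / d 4| ≤
            |v| + |(h 1 : ℝ) * β / d 1 + h 4 * β / d 4| := by
          have h6 : (h 1 : ℝ) * m / d 1 + h 4 * m' / d 4 = -v + (h 1 * β / d 1 + h 4 * β / d 4) := by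
            rw [hv]
            ring
          rw [h6]
          refine (abs_add_le _ _).trans ?_
          rw [abs_neg]
        linarith
      have hu1 : (h 0 ≠ 0 ∨ h 3 ≠ 0) → h 2 = 0 → h 5 = 0 → X ^ (1 - 6 * η) ≤ |u| := by
        intro h1 h6 h7
        have h2 := Equi6_lin hη g1 g3 g4 hκ hm1 hm1' hNE (hd 0) (hd 3) (hD 0) (hD 3) (hh 0) (hh 3) h1
        have h3 : u = (h 0 : ℝ) * m / d 0 + h 3 * m' / d 3 := by
          rw [hu, h6, h7]
          simp
        rw [h3]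
        linarith
      have hfin := hO a b u v s c (X ^ (1 - 6 * η)) ha hab.le le_rfl hU1
        (by
          by_cases h1 : h 1 ≠ 0 ∨ h 4 ≠ 0
          · exact Or.inr (hv1 h1)
          · push Not at h1
            left
            rw [hv, h1.1, h1.2]
            simp)
        (by
          by_cases h1 : h 2 ≠ 0 ∨ h 5 ≠ 0
          · exact Or.inr (hs1 h1)
          · push Not at h1
            left
            rw [hs, h1.1, h1.2]
            simp)
        (by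
          intro hv0 hs0
          have k1 : ¬ (h 1 ≠ 0 ∨ h 4 ≠ 0) := by
            intro h1
            have h2 := hv1 h1
            rw [hv0, abs_zero] at h2
            linarith
          have k2 : ¬ (h 2 ≠ 0 ∨ h 5 ≠ 0) := by
            intro h1
            have h2 := hs1 h1
            rw [hs0, abs_zero] at h2
            linarith
          push Not at k1 k2
          refine hu1 ?_ k2.1 k2.2
          by_contra hno
          push Not at hno
          apply hh0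
          funext i
          fin_cases i
          · exact hno.1
          · exact k1.1
          · exact k2.1
          · exact hno.2
          · exact k1.2
          · exact k2.2)
      refine le_trans (le_of_eq ?_) hfin
      congr 1
      refine intervalIntegral.integral_congr fun t _ => ?_
      rw [hsum t])
  rw [hset]
  have hprod : (b - a) * ∏ i, θ i = (b - a) / ∏ i, (d i : ℝ) := by
    rw [hθ]
    simp only [one_div, Finset.prod_inv_distrib]
    rw [div_eq_mul_inv]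
  rw [hprod] at hmain
  refine hmain.trans ?_
  have hX5 : 0 < X ^ (-(η / 5)) := by positivity
  have h1 : C1 * ((b - a) / n) ≤ X ^ (-(η / 5)) / 2 := by
    have h3 : (b - a) / n ≤ (b - a) / (X ^ (η / 4) / 2) := by
      have : 0 ≤ b - a := by linarith
      gcongr
    have h4 : X ^ (η / 20) * X ^ (-(η / 4)) = X ^ (-(η / 5)) := by
      rw [← Real.rpow_add hXp]
      congr 1
      ring
    have h5 : (b - a) / (X ^ (η / 4) / 2) = 2 * (b - a) * X ^ (-(η / 4)) := by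
      rw [Real.rpow_neg hXp.le]
      field_simp
    calc C1 * ((b - a) / n) ≤ C1 * (2 * (b - a) * X ^ (-(η / 4))) := by
          rw [← h5]
          gcongr
      _ = 4 * (C1 * (b - a)) * X ^ (-(η / 4)) / 2 := by ring
      _ ≤ X ^ (η / 20) * X ^ (-(η / 4)) / 2 := by gcongr
      _ = X ^ (-(η / 5)) / 2 := by rw [h4]
  have h2 : C1 * ((n : ℝ) ^ (2 * 6) * (C2 / (X ^ (1 - 6 * η)) ^ (1 / 3 : ℝ))) ≤
      X ^ (-(η / 5)) / 2 := by
    have h3 : (X ^ (1 - 6 * η)) ^ (1 / 3 : ℝ) = X ^ (1 / 3 - 2 * η) := by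
      rw [← Real.rpow_mul hXp.le]
      congr 1
      ring
    have h4 : (n : ℝ) ^ (2 * 6) ≤ X ^ (3 * η) := by
      calc (n : ℝ) ^ (2 * 6) ≤ (X ^ (η / 4)) ^ (2 * 6) := by gcongr
        _ = X ^ (3 * η) := by
          rw [← Real.rpow_natCast, ← Real.rpow_mul hXp.le]
          congr 1
          push_cast
          ring
    rw [h3]
    have h5 : C2 / X ^ (1 / 3 - 2 * η) = C2 * X ^ (-(1 / 3 - 2 * η)) := by
      rw [Real.rpow_neg hXp.le]
      rfl
    rw [h5]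
    have h6 : X ^ (1 / 3 - 5 * η - η / 5) * (X ^ (3 * η) * X ^ (-(1 / 3 - 2 * η))) = X ^ (-(η / 5)) := by
      rw [← Real.rpow_add hXp, ← Real.rpow_add hXp]
      congr 1
      ring
    calc C1 * ((n : ℝ) ^ (2 * 6) * (C2 * X ^ (-(1 / 3 - 2 * η))))
        ≤ C1 * (X ^ (3 * η) * (C2 * X ^ (-(1 / 3 - 2 * η)))) := by gcongr
      _ = 2 * (C1 * C2) * (X ^ (3 * η) * X ^ (-(1 / 3 - 2 * η))) / 2 := by ring
      _ ≤ X ^ (1 / 3 - 5 * η - η / 5) * (X ^ (3 * η) * X ^ (-(1 / 3 - 2 * η))) / 2 := by gcongr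
      _ = X ^ (-(η / 5)) / 2 := by rw [h6]
  rw [mul_add]
  linarith

end SMD
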