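import Pool.Agent.SMD.MainQ4
import Pool.Agent.SMC.FinQ

/-!
# SMD.FinQ4: the theorem for chains of length 4

PROOF. As `Pool/Agent/SMC/FinQ.lean` (copy): `ae_oneQ` with `main_pos4`, `cntR4`, `w^4`; `facts` for `Rob4`: `T α β' p = m`, `T α β' m = l`, `T α β' l = r` and
`StartsExact α β' p 4`; the measurability of `cntR4`; the density theorem; `final2` with `k = 4` only (`count α β 4 X`, no shift of the start needed:
`cntR4 ε β w α ≤ count α β' 4 X` as soon as `e^(w+2) ≤ X`).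
-/

namespace SMD

open MeasureTheory Filter SMC

/-- One step of the map, with a margin. -/
private theorem T_eqQ4 {ε β β' α : ℝ} {q m : ℕ} (hβ : |β' - β| < ε) (h1 : (m : ℝ) + ε ≤ α * q + β)
    (h2 : α * q + β ≤ m + 1 - ε) : T α β' q = m := by
  have h3 := abs_lt.1 hβ
  have h4 : (m : ℝ) ≤ α * q + β' := by linarith [h3.1]
  have h5 : α * q + β' < m + 1 := by linarith [h3.2]
  have h0 : (0 : ℝ) ≤ α * q + β' := le_trans (Nat.cast_nonneg m) h4
  exact (Nat.floor_eq_iff h0).2 ⟨h4, h5⟩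

private theorem rob_measQ4 (ε β : ℝ) (p m l r : ℕ) : MeasurableSet {t : ℝ | Rob4 ε β t p m l r} := by
  have e : {t : ℝ | Rob4 ε β t p m l r} = {t : ℝ | p.Prime} ∩ ({t : ℝ | m.Prime} ∩ ({t : ℝ | l.Prime} ∩
      ({t : ℝ | r.Prime} ∩ ({t : ℝ | (m : ℝ) + ε ≤ t * p + β} ∩ ({t : ℝ | t * p + β ≤ m + 1 - ε} ∩
      ({t : ℝ | (l : ℝ) + ε ≤ t * m + β} ∩ ({t : ℝ | t * m + β ≤ l + 1 - ε} ∩
      ({t : ℝ | (r : ℝ) + ε ≤ t * l + β} ∩ ({t : ℝ | t * l + β ≤ r + 1 - ε} ∩
      ⋃ s : ℕ, ({t : ℝ | Even s} ∩ ({t : ℝ | 4 ≤ s} ∩ ({t : ℝ | (s : ℝ) + ε ≤ t * r + β} ∩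
        {t : ℝ | t * r + β ≤ s + 1 - ε})))))))))))) := by
    ext t
    simp only [Set.mem_ofPred_eq, Rob4, Ch4, Ch, Set.mem_inter_iff, Set.mem_iUnion]
  rw [e]
  have m1 : ∀ (a b c : ℝ), MeasurableSet {t : ℝ | c ≤ t * a + b} := fun a b c =>
    measurableSet_le measurable_const (by fun_prop)
  have m2 : ∀ (a b c : ℝ), MeasurableSet {t : ℝ | t * a + b ≤ c} := fun a b c =>
    measurableSet_le (by fun_prop) measurable_const
  refine (MeasurableSet.const _).inter ((MeasurableSet.const _).inter ((MeasurableSet.const _).inter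
    ((MeasurableSet.const _).inter ((m1 _ _ _).inter ((m2 _ _ _).inter ((m1 _ _ _).inter ((m2 _ _ _).inter
      ((m1 _ _ _).inter ((m2 _ _ _).inter
      (MeasurableSet.iUnion fun s => ?_))))))))))
  exact (MeasurableSet.const _).inter ((MeasurableSet.const _).inter ((m1 _ _ _).inter (m2 _ _ _)))

private theorem cnt_meas4 (ε β w : ℝ) : Measurable fun t : ℝ => (cntR4 ε β w t : ℝ) := by
  classical
  have e : (fun t : ℝ => (cntR4 ε β w t : ℝ)) = fun t : ℝ => ∑ p ∈ Finset.Icc 1 ⌊Real.exp (w + 2)⌋₊,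
      Set.indicator {t : ℝ | ∃ m l r : ℕ, Rob4 ε β t p m l r} (fun _ => (1 : ℝ)) t := by
    funext t
    unfold cntR4
    rw [Finset.card_filter]
    push_cast
    refine Finset.sum_congr rfl fun p _ => ?_
    by_cases h : ∃ m l r : ℕ, Rob4 ε β t p m l r
    · rw [if_pos h, Set.indicator_of_mem (show t ∈ {t : ℝ | ∃ m l r : ℕ, Rob4 ε β t p m l r} from h)]
    · rw [if_neg h, Set.indicator_of_notMem (show t ∉ {t : ℝ | ∃ m l r : ℕ, Rob4 ε β t p m l r} from h)]
  rw [e]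
  refine Finset.measurable_sum _ fun p _ => measurable_const.indicator ?_
  have e2 : {t : ℝ | ∃ m l r : ℕ, Rob4 ε β t p m l r} =
      ⋃ m : ℕ, ⋃ l : ℕ, ⋃ r : ℕ, {t : ℝ | Rob4 ε β t p m l r} := by
    ext t
    simp only [Set.mem_ofPred_eq, Set.mem_iUnion]
  rw [e2]
  exact MeasurableSet.iUnion fun m => MeasurableSet.iUnion fun l => MeasurableSet.iUnion fun r =>
    rob_measQ4 ε β p m l r

private theorem ae_oneQ4 {A B ε : ℝ} (hA : 1 < A) (hAB : A < B) (hε : 0 < ε) (hε1 : ε ≤ 1 / 4)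
    (hε2 : ε ≤ (A - 1) / (8 * (A + 1))) : ∃ c1 : ℝ, 0 < c1 ∧ ∀ β : ℝ,
    ∀ᵐ α : ℝ, A ≤ α → α ≤ B → ∃ᶠ n : ℕ in atTop,
      c1 * (Real.exp (n : ℝ) / (n : ℝ) ^ 4) ≤ (cntR4 ε β (n : ℝ) α : ℝ) := by
  obtain ⟨c1, c, hc1, hc, hmain⟩ := main_pos4 hA hAB hε hε1 hε2
  refine ⟨c1, hc1, fun β => ?_⟩
  obtain ⟨ρ0, hρ0, hpos⟩ := hmain β
  let G : ℕ → Set ℝ := fun n => {t : ℝ | c1 * (Real.exp (n : ℝ) / (n : ℝ) ^ 4) ≤
    (cntR4 ε β (n : ℝ) t : ℝ)}
  have hG : ∀ n, MeasurableSet (G n) := fun n =>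
    measurableSet_le measurable_const (cnt_meas4 ε β (n : ℝ))
  let E : ℕ → Set ℝ := fun N => {t : ℝ | ∃ n : ℕ, N ≤ n ∧ t ∈ G n}
  have hE : ∀ n, MeasurableSet (E n) := by
    intro N
    have e : E N = ⋃ n : ℕ, ({t : ℝ | N ≤ n} ∩ G n) := by
      ext t
      simp only [E, Set.mem_ofPred_eq, Set.mem_iUnion, Set.mem_inter_iff]
    rw [e]
    exact MeasurableSet.iUnion fun n => (MeasurableSet.const _).inter (hG n)
  have hanti : Antitone E := by
    intro n n' hnn t ht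
    obtain ⟨p, h1, h2⟩ := ht
    exact ⟨p, hnn.trans h1, h2⟩
  have hS : MeasurableSet (⋂ n, E n) := MeasurableSet.iInter hE
  have hball : ∀ μ ρ : ℝ, A ≤ μ → μ ≤ B → 0 < ρ → ρ ≤ ρ0 →
      ENNReal.ofReal (c * ρ) ≤ volume ((⋂ n, E n) ∩ Metric.closedBall μ ρ) := by
    intro μ ρ h1 h2 h3 h4
    have e1 : (⋂ n, E n) ∩ Metric.closedBall μ ρ = ⋂ n, (E n ∩ Metric.closedBall μ ρ) := by
      rw [Set.iInter_inter]
    have e2 : volume (⋂ n, (E n ∩ Metric.closedBall μ ρ)) =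
        ⨅ n, volume (E n ∩ Metric.closedBall μ ρ) := by
      refine Antitone.measure_iInter ?_ ?_ ?_
      · intro n n' hnn
        exact Set.inter_subset_inter_left _ (hanti hnn)
      · intro n
        exact ((hE n).inter measurableSet_closedBall).nullMeasurableSet
      · refine ⟨0, ((measure_mono Set.inter_subset_right).trans_lt ?_).ne⟩
        exact measure_closedBall_lt_top
    rw [e1, e2]
    refine le_iInf fun N => ?_
    have hev := tendsto_natCast_atTop_atTop.eventually (hpos μ ρ h1 h2 h3 h4)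
    obtain ⟨n, hn, hnN⟩ := (hev.and (eventually_ge_atTop N)).exists
    refine hn.trans (measure_mono ?_)
    rintro t ⟨h5, h6⟩
    refine ⟨⟨n, hnN, h6⟩, ?_⟩
    rw [Metric.mem_closedBall, Real.dist_eq]
    exact h5
  filter_upwards [Besicovitch.ae_tendsto_measure_inter_div_of_measurableSet
    (volume : Measure ℝ) hS] with x hx hxA hxB
  by_contra hcon
  have hxS : x ∉ ⋂ n, E n := by
    intro hmem
    apply hcon
    rw [frequently_atTop]
    intro N
    exact Set.mem_iInter.1 hmem N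
  rw [Set.indicator_of_notMem hxS] at hx
  have hev : ∀ᶠ r : ℝ in nhdsWithin 0 (Set.Ioi 0), ENNReal.ofReal (c / 2) ≤
      volume ((⋂ n, E n) ∩ Metric.closedBall x r) / volume (Metric.closedBall x r) := by
    have h1 : ∀ᶠ r : ℝ in nhdsWithin 0 (Set.Ioi 0), r < ρ0 := nhdsWithin_le_nhds (Iio_mem_nhds hρ0)
    filter_upwards [h1, self_mem_nhdsWithin] with r hr hr0
    have hr0' : 0 < r := hr0
    have hh := hball x r hxA hxB hr0' hr.le
    rw [Real.volume_closedBall]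
    rw [ENNReal.le_div_iff_mul_le]
    · rw [← ENNReal.ofReal_mul (by positivity)]
      have e : c / 2 * (2 * r) = c * r := by ring
      rw [e]
      exact hh
    · left
      exact (ENNReal.ofReal_pos.2 (by linarith)).ne'
    · left
      exact ENNReal.ofReal_ne_top
  have hle : ENNReal.ofReal (c / 2) ≤ 0 := ge_of_tendsto hx hev
  exact absurd hle (not_le.2 (ENNReal.ofReal_pos.2 (by linarith)))

/-- A robust chain of length four starts a chain of exact length four. -/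
private theorem starts4 {ε β β' α : ℝ} (hβ : |β' - β| < ε) {p m l r : ℕ} (h : Rob4 ε β α p m l r) :
    StartsExact α β' p 4 := by
  obtain ⟨hpp, hmp, hlp, hrp, h1, h2, h3, h4, h7, h8, s, hs, hs4, h5, h6⟩ := h
  have t1 := T_eqQ4 hβ h1 h2
  have t2 := T_eqQ4 hβ h3 h4
  have t3 := T_eqQ4 hβ h7 h8
  have t4 := T_eqQ4 hβ h5 h6
  have hsn : ¬ s.Prime := by
    intro hsp
    have := (hsp.even_iff).1 hs
    omega
  have e4 : (T α β')^[4] p = s := by
    rw [Function.iterate_succ_apply, Function.iterate_succ_apply, Function.iterate_succ_apply,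
      Function.iterate_one, t1, t2, t3, t4]
  refine ⟨?_, ?_, ?_⟩
  · intro i hi
    have : i = 0 ∨ i = 1 ∨ i = 2 ∨ i = 3 := by omega
    rcases this with rfl | rfl | rfl | rfl
    · exact hpp
    · rw [Function.iterate_one, t1]; exact hmp
    · rw [Function.iterate_succ_apply, Function.iterate_one, t1, t2]; exact hlp
    · rw [Function.iterate_succ_apply, Function.iterate_succ_apply, Function.iterate_one, t1, t2, t3]
      exact hrp
  · rw [e4]; omega
  · rw [e4]; exact hsn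

private theorem cnt_le4 {ε β β' α : ℝ} (hβ : |β' - β| < ε) (w : ℝ) {X : ℕ}
    (hX : Real.exp (w + 2) ≤ X) : cntR4 ε β w α ≤ count α β' 4 X := by
  classical
  have hexp := Real.exp_pos (w + 2)
  unfold cntR4 count
  refine Finset.card_le_card ?_
  intro p hp
  rw [Finset.mem_filter, Finset.mem_Icc] at hp
  obtain ⟨⟨hp1, hp2⟩, m, l, r, hr⟩ := hp
  have hp3 : (p : ℝ) ≤ Real.exp (w + 2) := (Nat.le_floor_iff hexp.le).1 hp2
  rw [Finset.mem_filter, Finset.mem_Icc]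
  refine ⟨⟨hp1, ?_⟩, starts4 hβ hr⟩
  exact_mod_cast hp3.trans hX

theorem final4 : ∀ᵐ α : ℝ, 1 < α → ∃ c : ℝ, 0 < c ∧ ∀ β : ℝ,
    ∃ᶠ X : ℕ in atTop, c * (X / Real.log X ^ 4) ≤ (count α β 4 X : ℝ) := by
  let A : ℕ → ℝ := fun k => 1 + 1 / ((k : ℝ) + 1)
  let B : ℕ → ℝ := fun k => (k : ℝ) + 3
  let e : ℕ → ℝ := fun k => min (1 / 4) ((A k - 1) / (8 * (A k + 1)))
  have hA : ∀ k, 1 < A k := fun k => by
    have : (0 : ℝ) < 1 / ((k : ℝ) + 1) := by positivity
    simp only [A]; linarith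
  have hAB : ∀ k, A k < B k := fun k => by
    have h1 : (1 : ℝ) / ((k : ℝ) + 1) ≤ 1 := by
      rw [div_le_one (by positivity)]
      have : (0 : ℝ) ≤ k := Nat.cast_nonneg k
      linarith
    have : (0 : ℝ) ≤ k := Nat.cast_nonneg k
    simp only [A, B]; linarith
  have he : ∀ k, 0 < e k := fun k => by
    have h1 := hA k
    refine lt_min (by norm_num) (div_pos (by linarith) (by linarith))
  choose c1 hc1 hae using fun k => ae_oneQ4 (hA k) (hAB k) (he k) (min_le_left _ _) (min_le_right _ _)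
  have key : ∀ᵐ α : ℝ, ∀ (k : ℕ) (j : ℤ), A k ≤ α → α ≤ B k → ∃ᶠ n : ℕ in atTop,
      c1 k * (Real.exp (n : ℝ) / (n : ℝ) ^ 4) ≤ (cntR4 (e k) (e k / 2 * j) (n : ℝ) α : ℝ) := by
    rw [ae_all_iff]
    intro k
    rw [ae_all_iff]
    intro j
    exact hae k _
  filter_upwards [key] with α hα h1
  obtain ⟨k1, hk1⟩ := exists_nat_gt (1 / (α - 1))
  obtain ⟨k2, hk2⟩ := exists_nat_gt α
  let k := max k1 k2
  have hk1' : (k1 : ℝ) ≤ k := by exact_mod_cast le_max_left k1 k2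
  have hk2' : (k2 : ℝ) ≤ k := by exact_mod_cast le_max_right k1 k2
  have hAk : A k ≤ α := by
    have h2 : 0 < α - 1 := by linarith
    have h3 : 1 / (α - 1) < (k : ℝ) + 1 := by linarith
    have h4 : 1 / ((k : ℝ) + 1) < α - 1 := by
      rw [div_lt_comm₀ (by positivity) h2]
      exact h3
    simp only [A]; linarith
  have hBk : α ≤ B k := by simp only [B]; linarith
  have hek := he k
  refine ⟨c1 k / 16, div_pos (hc1 k) (by norm_num), fun β' => ?_⟩
  let j : ℤ := round (β' / (e k / 2))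
  have hj : |β' - e k / 2 * j| < e k := by
    have h2 := abs_sub_round (β' / (e k / 2))
    have h3 : β' - e k / 2 * j = (e k / 2) * (β' / (e k / 2) - j) := by
      field_simp
    rw [h3, abs_mul, abs_of_pos (by linarith : (0 : ℝ) < e k / 2)]
    have h4 : (e k / 2) * |β' / (e k / 2) - j| ≤ (e k / 2) * (1 / 2) :=
      mul_le_mul_of_nonneg_left h2 (by linarith)
    linarith
  have hfreq := hα k j hAk hBk
  let X : ℕ → ℕ := fun n => ⌈Real.exp ((n : ℝ) + 2)⌉₊
  have hXlow : ∀ n : ℕ, Real.exp ((n : ℝ) + 2) ≤ X n := fun n => Nat.le_ceil _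
  have hXn : ∀ n : ℕ, Real.exp (n : ℝ) ≤ X n := by
    intro n
    refine le_trans ?_ (hXlow n)
    exact Real.exp_le_exp.2 (by linarith)
  have hXt : Tendsto X atTop atTop := by
    have h2 : Tendsto (fun n : ℕ => ((X n : ℕ) : ℝ)) atTop atTop :=
      tendsto_atTop_mono hXn (Real.tendsto_exp_atTop.comp tendsto_natCast_atTop_atTop)
    exact tendsto_natCast_atTop_iff.1 h2
  refine hXt.frequently ?_
  refine (hfreq.and_eventually (eventually_ge_atTop 1)).mono ?_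
  rintro n ⟨h2, hn1⟩
  have hn0 : (0 : ℝ) < n := by exact_mod_cast hn1
  have h4 : (cntR4 (e k) (e k / 2 * j) (n : ℝ) α : ℝ) ≤ (count α β' 4 (X n) : ℝ) := by
    exact_mod_cast cnt_le4 hj (n : ℝ) (hXlow n)
  refine le_trans (le_trans ?_ h2) h4
  have h5 : ((X n : ℕ) : ℝ) ≤ 16 * Real.exp (n : ℝ) := by
    have h6 : ((X n : ℕ) : ℝ) < Real.exp ((n : ℝ) + 2) + 1 :=
      Nat.ceil_lt_add_one (by positivity)
    have h7 : Real.exp ((n : ℝ) + 2) ≤ 8 * Real.exp (n : ℝ) := by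
      rw [Real.exp_add, mul_comm]
      refine mul_le_mul_of_nonneg_right ?_ (Real.exp_pos _).le
      have h8 : Real.exp 2 = Real.exp 1 * Real.exp 1 := by
        rw [← Real.exp_add]; norm_num
      have h9 := Real.exp_one_lt_d9
      have h10 := Real.exp_pos 1
      rw [h8]
      nlinarith
    have h8 : (1 : ℝ) ≤ Real.exp (n : ℝ) := Real.one_le_exp hn0.le
    linarith
  have h6 : (n : ℝ) ≤ Real.log (X n : ℕ) := by
    rw [Real.le_log_iff_exp_le]
    · exact hXn n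
    · exact lt_of_lt_of_le (Real.exp_pos _) (hXn n)
  have h7 : ((X n : ℕ) : ℝ) / Real.log (X n : ℕ) ^ 4 ≤ 16 * Real.exp (n : ℝ) / (n : ℝ) ^ 4 := by
    refine div_le_div₀ (by positivity) h5 (by positivity) ?_
    exact pow_le_pow_left₀ hn0.le h6 4
  calc c1 k / 16 * (((X n : ℕ) : ℝ) / Real.log (X n : ℕ) ^ 4)
      ≤ c1 k / 16 * (16 * Real.exp (n : ℝ) / (n : ℝ) ^ 4) :=
        mul_le_mul_of_nonneg_left h7 (div_pos (hc1 k) (by norm_num)).le
    _ = c1 k * (Real.exp (n : ℝ) / (n : ℝ) ^ 4) := by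
        ring

end SMD
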