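import Pool.Agent.SMD.GeoC
import Pool.Agent.SMC.GeoB

/-!
# SMD.GeoB4: the quadruples of the box give intervals of multipliers

PROOF. `H = 1/2 - β`, `h1 = H(1-1/μ)/μ`, `h2 = H(1-1/μ)(2/μ + 1/μ²)`. Let `(κ1, η1)` be the constants of `SMC.geoB`, `κ2` that of `geoC`;
`κ = min (κ1/(3B)) κ2`, `η0 = η1/(e^2 4 B^3)` or smaller; `σ0 = min (σ1/6) σ2` (`σ1` from `SMC.geoB`, `σ2` from `geoC`).
Write `x0 = log p`, `x1 = log m`, `x2 = log l`, `x3 = log r`, `v1 = x0 - 2x1 + x2`, `v2 = 2x0 - 3x1 + x3`, so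
`x1 - 2x2 + x3 = v2 - 2 v1` and `|e^w (v2 - 2v1) - H(1-1/μ)/μ²| ≤ 12κ`; `|v1|, |v2| ≤ K e^(-w)`.
Apply `SMC.geoB` to `(m, l, r)` with `w' = w + log μ` (shift of an eventual statement) and `6σ`: `|x1 - w'| ≤ 4σ`; `x2 - w' - log μ = 2(x1 - w') - (x0 - w) + v1`, so
`|..| ≤ 12σ + K e^(-w) ≤ 24σ` for large `w`; `x3 - w' - 2 log μ = 3(x1 - w') - 2(x0 - w) + v2`, `|..| ≤ 20σ + K e^(-w) ≤ 24σ`; and
`|e^(w') (x1 + x3 - 2x2) - H(1-1/μ)/μ| = μ |e^w (v2 - 2v1) - H(1-1/μ)/μ²| ≤ 12κB ≤ 4κ1`. This gives `α1`, `α2` with `η1/(4 r) ≤ α2 - α1`,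
`|α - μ| ≤ 20B·6σ` and `Ch ε β α m l r`; `r ≤ e^(w + 3 log μ + 20σ + 1) ≤ B^3 e^(w+3)`. `Ch ε β α m l r` contains
`l + ε ≤ α m + β ≤ l + 1 - ε`, so `geoC` (for `(p, m, l)`) gives the remaining condition of `Ch4`.
-/

namespace SMD

open Filter SMC

theorem geoB4 {A B ε : ℝ} (hA : 1 < A) (hAB : A < B) (hε : 0 < ε) (hε1 : ε ≤ 1 / 4)
    (hε2 : ε ≤ (A - 1) / (8 * (A + 1))) : ∃ κ η0 : ℝ, 0 < κ ∧ 0 < η0 ∧ ∀ β : ℝ, ∃ σ0 : ℝ, 0 < σ0 ∧ σ0 ≤ 1 / 12 ∧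
    ∀ μ σ : ℝ, A ≤ μ → μ ≤ B → 0 < σ → σ ≤ σ0 → ∀ᶠ w : ℝ in atTop, ∀ p m l r : ℕ, 0 < p → 0 < m → 0 < l → 0 < r →
      |Real.log p - w| ≤ 4 * σ → |Real.log m - w - Real.log μ| ≤ 4 * σ →
      |Real.exp w * (Real.log p - 2 * Real.log m + Real.log l) - (1 / 2 - β) * (1 - 1 / μ) / μ| ≤ 4 * κ →
      |Real.exp w * (2 * Real.log p - 3 * Real.log m + Real.log r) -
        (1 / 2 - β) * (1 - 1 / μ) * (2 / μ + 1 / μ ^ 2)| ≤ 4 * κ →
      ∃ α1 α2 : ℝ, η0 * Real.exp (-w) ≤ α2 - α1 ∧ ∀ α ∈ Set.Icc α1 α2, |α - μ| ≤ 120 * B * σ ∧ Ch4 ε β α p m l r := by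
  obtain ⟨κ1, η1, hκ1, hη1, H1⟩ := SMC.geoB hA hAB hε hε1 hε2
  obtain ⟨κ2, hκ2, H2⟩ := geoC hA hAB hε hε1
  have hA0 : 0 < A := by linarith
  have hB0 : 0 < B := by linarith
  refine ⟨min (κ1 / (3 * B)) κ2, η1 / (4 * (B ^ 3 * Real.exp 3)), lt_min (by positivity) hκ2,
    by positivity, fun β => ?_⟩
  obtain ⟨κ, hκdef⟩ : ∃ κ, κ = min (κ1 / (3 * B)) κ2 := ⟨_, rfl⟩
  rw [← hκdef]
  have hκ0 : 0 < κ := by
    rw [hκdef]
    exact lt_min (by positivity) hκ2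
  have hκa : 3 * B * κ ≤ κ1 := by
    have h : κ ≤ κ1 / (3 * B) := by
      rw [hκdef]
      exact min_le_left _ _
    rw [le_div_iff₀ (by positivity)] at h
    linarith
  have hκb : κ ≤ κ2 := by
    rw [hκdef]
    exact min_le_right _ _
  obtain ⟨σ1, hσ1, hσ1', G1⟩ := H1 β
  obtain ⟨σ2, hσ2, hσ2', G2⟩ := H2 β
  refine ⟨min (σ1 / 6) σ2, lt_min (by positivity) hσ2, (min_le_right _ _).trans hσ2', ?_⟩
  intro μ σ hμA hμB hσ hσ0
  have hσa : 6 * σ ≤ σ1 := by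
    have := hσ0.trans (min_le_left _ _)
    linarith
  have hσb : σ ≤ σ2 := hσ0.trans (min_le_right _ _)
  have hσc : σ ≤ 1 / 12 := hσb.trans hσ2'
  have hμ0 : 0 < μ := by linarith
  have hμ1 : 1 ≤ μ := by linarith
  obtain ⟨h1, hh1⟩ : ∃ h1, h1 = (1 / 2 - β) * (1 - 1 / μ) / μ := ⟨_, rfl⟩
  obtain ⟨h2, hh2⟩ : ∃ h2, h2 = (1 / 2 - β) * (1 - 1 / μ) * (2 / μ + 1 / μ ^ 2) := ⟨_, rfl⟩
  have hrel : μ * (h2 - 2 * h1) = (1 / 2 - β) * (1 - 1 / μ) / μ := by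
    rw [hh1, hh2]
    field_simp
    ring
  rw [← hh1, ← hh2]
  have ev1 := (tendsto_atTop_add_const_right atTop (Real.log μ) tendsto_id).eventually
    (G1 μ (6 * σ) hμA hμB (by positivity) hσa)
  have ev2 := G2 μ σ hμA hμB hσ hσb
  obtain ⟨K, hK⟩ : ∃ K, K = |h1| + |h2| + 4 * κ := ⟨_, rfl⟩
  have ev3 : ∀ᶠ w : ℝ in atTop, Real.exp (-w) * K ≤ 4 * σ := by
    have : Tendsto (fun w : ℝ => Real.exp (-w) * K) atTop (nhds (0 * K)) :=
      Real.tendsto_exp_neg_atTop_nhds_zero.mul_const _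
    rw [zero_mul] at this
    exact this.eventually_le_const (by positivity)
  filter_upwards [ev1, ev2, ev3] with w hw1 hw2 hw3 p m l r hp hm hl hr hx0 hx1 hv1 hv2
  simp only [id] at hw1
  rw [← hh1] at hw2
  have hew := Real.exp_pos w
  have hen : Real.exp (-w) * Real.exp w = 1 := by
    rw [← Real.exp_add]
    simp
  -- small second differences
  have hsmall : ∀ v h : ℝ, |Real.exp w * v - h| ≤ 4 * κ → |h| ≤ |h1| + |h2| → |v| ≤ 4 * σ := by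
    intro v h hv hh
    have e1 : |Real.exp w * v| ≤ K := by
      have e2 : Real.exp w * v = (Real.exp w * v - h) + h := by ring
      rw [e2, hK]
      exact (abs_add_le _ _).trans (by linarith)
    have e3 : v = Real.exp (-w) * (Real.exp w * v) := by
      rw [← mul_assoc, hen, one_mul]
    rw [e3, abs_mul, abs_of_pos (Real.exp_pos _)]
    exact (mul_le_mul_of_nonneg_left e1 (Real.exp_pos _).le).trans hw3
  have hs1 := hsmall _ _ hv1 (by linarith [abs_nonneg h2])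
  have hs2 := hsmall _ _ hv2 (by linarith [abs_nonneg h1])
  have a0 := abs_le.1 hx0
  have a1 := abs_le.1 hx1
  have b1 := abs_le.1 hs1
  have b2 := abs_le.1 hs2
  have c1 := abs_le.1 hv1
  have c2 := abs_le.1 hv2
  -- the last triple
  have hthird : |Real.exp (w + Real.log μ) * (Real.log m + Real.log r - 2 * Real.log l) -
      (1 / 2 - β) * (1 - 1 / μ) / μ| ≤ 4 * κ1 := by
    rw [Real.exp_add, Real.exp_log hμ0, ← hrel]
    have e1 : Real.exp w * μ * (Real.log m + Real.log r - 2 * Real.log l) - μ * (h2 - 2 * h1) =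
        μ * ((Real.exp w * (2 * Real.log p - 3 * Real.log m + Real.log r) - h2) -
          2 * (Real.exp w * (Real.log p - 2 * Real.log m + Real.log l) - h1)) := by ring
    rw [e1, abs_mul, abs_of_pos hμ0]
    have e2 : |(Real.exp w * (2 * Real.log p - 3 * Real.log m + Real.log r) - h2) -
          2 * (Real.exp w * (Real.log p - 2 * Real.log m + Real.log l) - h1)| ≤ 12 * κ := by
      rw [abs_le]
      constructor <;> linarith [c1.1, c1.2, c2.1, c2.2]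
    calc μ * _ ≤ B * (12 * κ) := mul_le_mul hμB e2 (abs_nonneg _) hB0.le
      _ = 4 * (3 * B * κ) := by ring
      _ ≤ 4 * κ1 := by linarith
  obtain ⟨α1, α2, hα, hall⟩ := hw1 m l r hm hl hr
    (by
      rw [abs_le]
      constructor <;> linarith [a1.1, a1.2])
    (by
      rw [abs_le]
      constructor <;> linarith [a0.1, a0.2, a1.1, a1.2, b1.1, b1.2])
    (by
      rw [abs_le]
      constructor <;> linarith [a0.1, a0.2, a1.1, a1.2, b2.1, b2.2])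
    hthird
  refine ⟨α1, α2, le_trans ?_ hα, fun α hαm => ?_⟩
  · have hrR : (0 : ℝ) < r := by exact_mod_cast hr
    have hle : (r : ℝ) ≤ B ^ 3 * Real.exp 3 * Real.exp w := by
      have e1 : Real.log r ≤ w + Real.log μ + Real.log μ + Real.log μ + 3 := by
        linarith [a0.1, a0.2, a1.1, a1.2, b2.1, b2.2]
      have e2 : (r : ℝ) ≤ Real.exp (w + Real.log μ + Real.log μ + Real.log μ + 3) := by
        rw [← Real.exp_log hrR]
        exact Real.exp_le_exp.2 e1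
      rw [Real.exp_add, Real.exp_add, Real.exp_add, Real.exp_add, Real.exp_log hμ0] at e2
      have e3 : μ ^ 3 ≤ B ^ 3 := pow_le_pow_left₀ hμ0.le hμB 3
      calc (r : ℝ) ≤ Real.exp w * μ * μ * μ * Real.exp 3 := e2
        _ = μ ^ 3 * (Real.exp 3 * Real.exp w) := by ring
        _ ≤ B ^ 3 * (Real.exp 3 * Real.exp w) := by gcongr
        _ = B ^ 3 * Real.exp 3 * Real.exp w := by ring
    have e4 : η1 / (4 * (B ^ 3 * Real.exp 3)) * Real.exp (-w) =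
        η1 / (4 * (B ^ 3 * Real.exp 3 * Real.exp w)) := by
      rw [Real.exp_neg]
      field_simp
    rw [e4]
    apply div_le_div_of_nonneg_left hη1.le (by positivity)
    linarith
  · obtain ⟨g1, g2⟩ := hall α hαm
    refine ⟨by linarith, ?_⟩
    have g3 := g2.1
    have g4 := g2.2.1
    obtain ⟨g5, g6⟩ := hw2 p m l hp hm hl hx0 hx1 (hv1.trans (by linarith)) α g3 g4
    exact ⟨g5, g6, g2⟩

end SMD
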