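import Pool.Agent.SMD.Defs

/-!
# SMD.GeoC: one more step of the chain backwards

If `(p, m, l)` is nearly a geometric progression (two conditions of size `4σ`, `4κ`), then for EVERY `α` for which `α m + β` is in `[l + ε, l + 1 - ε]`
the number `α p + β` is in `[m + ε, m + 1 - ε]`.

PROOF. This is the part `h1` of `core` in `Pool/Agent/SMC/GeoB.lean` together with the part `hpm'` of the proof of `geo` in `Pool/Agent/SMC/Geo.lean`. `H = 1/2 - β`.
`|α - (l+H)/m| ≤ (1/2 - ε)/m`, so `|αp + β - (m + 1/2)| = |(α - (m+H)/p)| p ≤ (1/2-ε) p/m + |(l+H)/m - (m+H)/p| p`, and it is enough to have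
`D = |(l+H)/m - (m+H)/p| p = |m (e^v - 1) - H (1 - p/m)| ≤ (1/2 - ε)(1 - p/m)`, `v = log p + log l - 2 log m = (h + 4κθ) e^(-w)`, `|θ| ≤ 1`,
`h = H(1-1/μ)/μ`. With `x = log p - w`, `y = log m - w - log μ`, `|x|, |y| ≤ 4σ`: `m = μ e^(w+y)`, `p/m = e^(x-y)/μ`, `m v = e^y H(1-1/μ) + 4κθ μ e^y`,
`|m (e^v - 1 - v)| ≤ m v² → 0`, and `|e^y (1-1/μ) - 1 + e^(x-y)/μ| ≤ 24σ`; so `D ≤ 24σ|H| + 8κB + (small) ≤ 3 (1-1/A)/32 < (1-1/A)/8` for
`κ = (1-1/A)/(256B)`, small `σ`, large `w`, while the right hand side is `≥ (1/4)(1 - e^(8σ)/A) ≥ (1-1/A)/8`.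
-/

namespace SMD

open Filter SMC


private lemma geoC_exp_sub_one_abs {t : ℝ} (ht : |t| ≤ 1) : |Real.exp t - 1| ≤ 2 * |t| :=
  Real.abs_exp_sub_one_le ht

private lemma geoC_exp_sub_one_sub_abs {t : ℝ} (ht : |t| ≤ 1) : |Real.exp t - 1 - t| ≤ t ^ 2 :=
  Real.abs_exp_sub_one_sub_id_le ht

/-- The core: the inequality between the two centres. -/
private lemma geoC_core {A B : ℝ} (hA : 1 < A) (hAB : A < B) {ε : ℝ} (hε1 : ε ≤ 1 / 4)
    {κ : ℝ} (hκ : 8 * B * κ ≤ (1 - 1 / A) / 32) {β μ σ w : ℝ} (hμA : A ≤ μ) (hμB : μ ≤ B)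
    (hσ : 0 < σ) (hσ1 : σ ≤ 1 / 12) (hσ2 : 32 * B * σ ≤ A - 1) (hσ3 : 24 * σ * |1 / 2 - β| ≤ (1 - 1 / A) / 32)
    (hσ4 : 32 * σ ≤ 1 - 1 / A)
    (hw1 : Real.exp (-w) * (|1 / 2 - β| + 4 * κ) ≤ 1)
    (hw2 : 2 * B * (|1 / 2 - β| + 4 * κ) ^ 2 * Real.exp (-w) ≤ (1 - 1 / A) / 32)
    {p m l : ℕ} (hp : 0 < p) (hm : 0 < m) (hl : 0 < l)
    (hx : |Real.log p - w| ≤ 4 * σ) (hy : |Real.log m - w - Real.log μ| ≤ 4 * σ)
    (hv : |Real.exp w * (Real.log p + Real.log l - 2 * Real.log m) - (1 / 2 - β) * (1 - 1 / μ) / μ| ≤ 4 * κ) :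
    |((l : ℝ) + (1 / 2 - β)) / m - ((m : ℝ) + (1 / 2 - β)) / p| * p ≤ (1 / 2 - ε) * (1 - (p : ℝ) / m) := by
  have hA0 : 0 < A := by linarith
  have hμ1 : 1 < μ := lt_of_lt_of_le hA hμA
  have hμ0 : 0 < μ := by linarith
  have hB1 : 1 < B := by linarith
  have hB0 : 0 < B := by linarith
  have hpR : (0 : ℝ) < p := by exact_mod_cast hp
  have hmR : (0 : ℝ) < m := by exact_mod_cast hm
  have hlR : (0 : ℝ) < l := by exact_mod_cast hl
  obtain ⟨x, hxdef⟩ : ∃ x, x = Real.log p - w := ⟨_, rfl⟩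
  obtain ⟨y, hydef⟩ : ∃ y, y = Real.log m - w - Real.log μ := ⟨_, rfl⟩
  obtain ⟨v, hvdef⟩ : ∃ v, v = Real.log p + Real.log l - 2 * Real.log m := ⟨_, rfl⟩
  rw [← hxdef] at hx
  rw [← hydef] at hy
  rw [← hvdef] at hv
  have hlogμ : Real.exp (Real.log μ) = μ := Real.exp_log hμ0
  have hp' : (p : ℝ) = Real.exp (w + x) := by
    rw [hxdef, show w + (Real.log p - w) = Real.log p by ring, Real.exp_log hpR]
  have hm' : (m : ℝ) = μ * Real.exp (w + y) := by
    rw [hydef, ← hlogμ, ← Real.exp_add, hlogμ,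
      show Real.log μ + (w + (Real.log m - w - Real.log μ)) = Real.log m by ring, Real.exp_log hmR]
  obtain ⟨hx1, hx2⟩ := abs_le.1 hx
  obtain ⟨hy1, hy2⟩ := abs_le.1 hy
  -- ratios
  have hpm : (p : ℝ) / m = Real.exp (x - y) / μ := by
    rw [hp', hm', div_eq_div_iff (by positivity) (by positivity),
      show w + x = (x - y) + (w + y) by ring, Real.exp_add]
    ring
  have hmexp : Real.exp v = (l : ℝ) * p / (m : ℝ) ^ 2 := by
    rw [hvdef, Real.exp_sub, Real.exp_add, Real.exp_log hpR, Real.exp_log hlR,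
      show 2 * Real.log (m : ℝ) = Real.log m + Real.log m by ring, Real.exp_add, Real.exp_log hmR]
    ring
  have hxy : |x - y| ≤ 8 * σ := by rw [abs_le]; constructor <;> linarith
  have hxy1 : |x - y| ≤ 1 := by linarith
  have hy1' : |y| ≤ 1 := by linarith
  have hexy : |Real.exp (x - y) - 1| ≤ 16 * σ := (geoC_exp_sub_one_abs hxy1).trans (by linarith)
  have hey : |Real.exp y - 1| ≤ 8 * σ := (geoC_exp_sub_one_abs hy1').trans (by linarith)
  obtain ⟨hexy1, hexy2⟩ := abs_le.1 hexy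
  obtain ⟨hey1, hey2⟩ := abs_le.1 hey
  have ha : 0 < 1 - 1 / A := by
    have : 1 / A < 1 := by rw [div_lt_one hA0]; exact hA
    linarith
  have hσAB : σ ≤ (A - 1) / 32 := by
    have h1 : 1 * σ ≤ B * σ := mul_le_mul_of_nonneg_right hB1.le hσ.le
    linarith
  -- p < m
  have hpm1 : (p : ℝ) / m < 1 := by
    rw [hpm, div_lt_one hμ0]; linarith
  have hpmN : p < m := by
    have : (p : ℝ) < m := by rwa [div_lt_one hmR] at hpm1
    exact_mod_cast this
  have hpm2 : 1 - (p : ℝ) / m ≥ (1 - 1 / A) / 2 := by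
    have h1 : (p : ℝ) / m ≤ (1 + 16 * σ) / A := by
      rw [hpm]
      exact (div_le_div_of_nonneg_right (by linarith) hμ0.le).trans
        (div_le_div_of_nonneg_left (by linarith) hA0 hμA)
    have h2 : (1 + 16 * σ) / A ≤ 1 / A + 16 * σ := by
      rw [add_div]
      have : 16 * σ / A ≤ 16 * σ := div_le_self (by linarith) hA.le
      linarith
    linarith
  -- h1 of geo
  obtain ⟨H, hH⟩ : ∃ H, H = 1 / 2 - β := ⟨_, rfl⟩
  rw [← hH] at hw1 hw2 hσ3 hv
  obtain ⟨E, hE⟩ : ∃ E, E = Real.exp w * v - H * (1 - 1 / μ) / μ := ⟨_, rfl⟩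
  rw [← hE] at hv
  have hEv : Real.exp w * v = H * (1 - 1 / μ) / μ + E := by rw [hE]; ring
  have hμinv0 : 0 < 1 / μ := by positivity
  have hμinv1 : 1 / μ ≤ 1 := by rw [div_le_one hμ0]; exact hμ1.le
  have hh : |H * (1 - 1 / μ) / μ| ≤ |H| := by
    rw [abs_div, abs_mul, abs_of_pos hμ0, abs_of_nonneg (by linarith : (0 : ℝ) ≤ 1 - 1 / μ)]
    rw [div_le_iff₀ hμ0]
    have : |H| * (1 - 1 / μ) ≤ |H| * 1 := mul_le_mul_of_nonneg_left (by linarith) (abs_nonneg _)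
    have h2 : |H| * 1 ≤ |H| * μ := mul_le_mul_of_nonneg_left hμ1.le (abs_nonneg _)
    linarith
  have hewv : |Real.exp w * v| ≤ |H| + 4 * κ := by
    rw [hEv]
    exact (abs_add_le _ _).trans (by linarith)
  have hvv : v = Real.exp (-w) * (Real.exp w * v) := by
    rw [← mul_assoc, ← Real.exp_add]; simp
  have hv1 : |v| ≤ 1 := by
    rw [hvv, abs_mul, abs_of_pos (Real.exp_pos _)]
    exact (mul_le_mul_of_nonneg_left hewv (Real.exp_pos _).le).trans hw1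
  have hey2' : Real.exp y ≤ 2 := by linarith
  have heypos := Real.exp_pos y
  have hT1 : |(m : ℝ) * (Real.exp v - 1 - v)| ≤ (1 - 1 / A) / 32 := by
    rw [abs_mul, abs_of_pos hmR]
    have h1 : (m : ℝ) * |Real.exp v - 1 - v| ≤ m * v ^ 2 :=
      mul_le_mul_of_nonneg_left (geoC_exp_sub_one_sub_abs hv1) hmR.le
    have h2' : (m : ℝ) * v ^ 2 = μ * Real.exp y * (Real.exp w * v) ^ 2 * Real.exp (-w) := by
      rw [hm', Real.exp_add, Real.exp_neg]
      field_simp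
    have h3' : (Real.exp w * v) ^ 2 ≤ (|H| + 4 * κ) ^ 2 := by
      rw [← sq_abs (Real.exp w * v)]
      exact pow_le_pow_left₀ (abs_nonneg _) hewv 2
    have h4 : μ * Real.exp y * (Real.exp w * v) ^ 2 * Real.exp (-w) ≤
        2 * B * (|H| + 4 * κ) ^ 2 * Real.exp (-w) := by
      apply mul_le_mul_of_nonneg_right _ (Real.exp_pos _).le
      apply mul_le_mul _ h3' (sq_nonneg _) (by positivity)
      have := mul_le_mul hμB hey2' heypos.le hB0.le
      linarith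
    rw [h2'] at h1
    linarith
  have hmv : (m : ℝ) * v = Real.exp y * H * (1 - 1 / μ) + μ * Real.exp y * E := by
    have : (m : ℝ) * v = μ * Real.exp y * (Real.exp w * v) := by
      rw [hm', Real.exp_add]; ring
    rw [this, hEv]
    field_simp
  have hD : (((l : ℝ) + H) / m - ((m : ℝ) + H) / p) * p =
      (m : ℝ) * (Real.exp v - 1 - v) + H * ((Real.exp y - 1) * (1 - 1 / μ) + (Real.exp (x - y) - 1) * (1 / μ)) +
        μ * Real.exp y * E := by
    have h1 : (((l : ℝ) + H) / m - ((m : ℝ) + H) / p) * p = m * (Real.exp v - 1) - H * (1 - (p : ℝ) / m) := by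
      rw [hmexp]
      field_simp
      ring
    rw [h1, hpm]
    have h2'' : (m : ℝ) * (Real.exp v - 1) = m * (Real.exp v - 1 - v) + m * v := by ring
    rw [h2'', hmv]
    ring
  have hT2 : |H * ((Real.exp y - 1) * (1 - 1 / μ) + (Real.exp (x - y) - 1) * (1 / μ))| ≤ (1 - 1 / A) / 32 := by
    rw [abs_mul]
    have h1 : |(Real.exp y - 1) * (1 - 1 / μ) + (Real.exp (x - y) - 1) * (1 / μ)| ≤ 24 * σ := by
      refine (abs_add_le _ _).trans ?_
      rw [abs_mul, abs_mul, abs_of_nonneg (by linarith : (0 : ℝ) ≤ 1 - 1 / μ), abs_of_pos hμinv0]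
      have e1 : |Real.exp y - 1| * (1 - 1 / μ) ≤ 8 * σ * 1 :=
        mul_le_mul hey (by linarith) (by linarith) (by linarith)
      have e2 : |Real.exp (x - y) - 1| * (1 / μ) ≤ 16 * σ * 1 :=
        mul_le_mul hexy hμinv1 hμinv0.le (by linarith)
      linarith
    have h2''' : |H| * |(Real.exp y - 1) * (1 - 1 / μ) + (Real.exp (x - y) - 1) * (1 / μ)| ≤ |H| * (24 * σ) :=
      mul_le_mul_of_nonneg_left h1 (abs_nonneg _)
    have : |H| * (24 * σ) = 24 * σ * |H| := by ring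
    linarith
  have hT3 : |μ * Real.exp y * E| ≤ (1 - 1 / A) / 32 := by
    rw [abs_mul, abs_mul, abs_of_pos hμ0, abs_of_pos heypos]
    have h1 : μ * Real.exp y ≤ B * 2 := mul_le_mul hμB hey2' heypos.le hB0.le
    have h2' : μ * Real.exp y * |E| ≤ B * 2 * (4 * κ) :=
      mul_le_mul h1 hv (abs_nonneg _) (by positivity)
    linarith
  rw [← hH]
  have e1 : |((l : ℝ) + H) / m - ((m : ℝ) + H) / p| * p =
      |(((l : ℝ) + H) / m - ((m : ℝ) + H) / p) * p| := by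
    rw [abs_mul, abs_of_pos hpR]
  rw [e1, hD]
  have e2 := abs_add_le ((m : ℝ) * (Real.exp v - 1 - v) +
    H * ((Real.exp y - 1) * (1 - 1 / μ) + (Real.exp (x - y) - 1) * (1 / μ))) (μ * Real.exp y * E)
  have e3 := abs_add_le ((m : ℝ) * (Real.exp v - 1 - v))
    (H * ((Real.exp y - 1) * (1 - 1 / μ) + (Real.exp (x - y) - 1) * (1 / μ)))
  have e4 : (1 / 4 : ℝ) * ((1 - 1 / A) / 2) ≤ (1 / 2 - ε) * (1 - (p : ℝ) / m) :=
    mul_le_mul (by linarith) hpm2 (by linarith) (by linarith)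
  linarith

theorem geoC {A B ε : ℝ} (hA : 1 < A) (hAB : A < B) (hε : 0 < ε) (hε1 : ε ≤ 1 / 4) :
    ∃ κ : ℝ, 0 < κ ∧ ∀ β : ℝ, ∃ σ0 : ℝ, 0 < σ0 ∧ σ0 ≤ 1 / 12 ∧
    ∀ μ σ : ℝ, A ≤ μ → μ ≤ B → 0 < σ → σ ≤ σ0 → ∀ᶠ w : ℝ in atTop, ∀ p m l : ℕ, 0 < p → 0 < m → 0 < l →
      |Real.log p - w| ≤ 4 * σ → |Real.log m - w - Real.log μ| ≤ 4 * σ →
      |Real.exp w * (Real.log p - 2 * Real.log m + Real.log l) - (1 / 2 - β) * (1 - 1 / μ) / μ| ≤ 4 * κ →
      ∀ α : ℝ, (l : ℝ) + ε ≤ α * m + β → α * m + β ≤ l + 1 - ε →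
        (m : ℝ) + ε ≤ α * p + β ∧ α * p + β ≤ m + 1 - ε := by
  have hA0 : 0 < A := by linarith
  have hB0 : 0 < B := by linarith
  have ha : 0 < 1 - 1 / A := by
    have : 1 / A < 1 := by rw [div_lt_one hA0]; exact hA
    linarith
  refine ⟨(1 - 1 / A) / (256 * B), by positivity, fun β => ?_⟩
  obtain ⟨κ, hκdef⟩ : ∃ κ, κ = (1 - 1 / A) / (256 * B) := ⟨_, rfl⟩
  rw [← hκdef]
  have hκ0 : 0 < κ := by rw [hκdef]; positivity
  have hκ : 8 * B * κ ≤ (1 - 1 / A) / 32 := by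
    rw [hκdef]
    apply le_of_eq
    field_simp
    ring
  obtain ⟨K, hK⟩ : ∃ K, K = |1 / 2 - β| := ⟨_, rfl⟩
  have hK0 : 0 ≤ K := by rw [hK]; exact abs_nonneg _
  refine ⟨min (min (1 / 12) ((A - 1) / (32 * B))) (min ((1 - 1 / A) / (800 * (K + 1))) ((1 - 1 / A) / 40)),
    lt_min (lt_min (by norm_num) (div_pos (by linarith) (by positivity)))
      (lt_min (by positivity) (by positivity)), (min_le_left _ _).trans (min_le_left _ _), ?_⟩
  intro μ σ hμA hμB hσ hσ0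
  have hσ1 : σ ≤ 1 / 12 := hσ0.trans ((min_le_left _ _).trans (min_le_left _ _))
  have hσ2 : 32 * B * σ ≤ A - 1 := by
    have := hσ0.trans ((min_le_left _ _).trans (min_le_right _ _))
    rw [le_div_iff₀ (by positivity)] at this
    linarith
  have hσ3 : 24 * σ * K ≤ (1 - 1 / A) / 32 := by
    have := hσ0.trans ((min_le_right _ _).trans (min_le_left _ _))
    rw [le_div_iff₀ (by positivity)] at this
    have e1 : σ * (800 * (K + 1)) = 800 * (σ * K) + 800 * σ := by ring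
    have e2 : 24 * σ * K = 24 * (σ * K) := by ring
    have e3 : 0 ≤ σ * K := mul_nonneg hσ.le hK0
    linarith
  have hσ4 : 32 * σ ≤ 1 - 1 / A := by
    have := hσ0.trans ((min_le_right _ _).trans (min_le_right _ _))
    linarith
  have hneg : Tendsto (fun w : ℝ => Real.exp (-w)) atTop (nhds 0) := Real.tendsto_exp_neg_atTop_nhds_zero
  have hw1 : ∀ᶠ w : ℝ in atTop, Real.exp (-w) * (K + 4 * κ) ≤ 1 := by
    have : Tendsto (fun w : ℝ => Real.exp (-w) * (K + 4 * κ)) atTop (nhds (0 * (K + 4 * κ))) :=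
      hneg.mul_const _
    rw [zero_mul] at this
    exact this.eventually_le_const one_pos
  have hw2 : ∀ᶠ w : ℝ in atTop, 2 * B * (K + 4 * κ) ^ 2 * Real.exp (-w) ≤ (1 - 1 / A) / 32 := by
    have : Tendsto (fun w : ℝ => 2 * B * (K + 4 * κ) ^ 2 * Real.exp (-w)) atTop
        (nhds (2 * B * (K + 4 * κ) ^ 2 * 0)) := hneg.const_mul _
    rw [mul_zero] at this
    exact this.eventually_le_const (by positivity)
  filter_upwards [hw1, hw2] with w hw1 hw2 p m l hp hm hl hx hy hv α hα1 hα2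
  rw [hK] at hw1 hw2 hσ3
  have hv' : |Real.exp w * (Real.log p + Real.log l - 2 * Real.log m) - (1 / 2 - β) * (1 - 1 / μ) / μ| ≤ 4 * κ := by
    rw [show Real.log (p : ℝ) + Real.log l - 2 * Real.log m = Real.log p - 2 * Real.log m + Real.log l by ring]
    exact hv
  have h1 := geoC_core (ε := ε) hA hAB hε1 hκ hμA hμB hσ hσ1 hσ2 hσ3 hσ4 hw1 hw2 hp hm hl hx hy hv'
  have hP : (0 : ℝ) < p := by exact_mod_cast hp
  have hM : (0 : ℝ) < m := by exact_mod_cast hm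
  have hc : |α - ((l : ℝ) + (1 / 2 - β)) / m| ≤ (1 / 2 - ε) / m := by
    have e : α - ((l : ℝ) + (1 / 2 - β)) / m = (α * m - ((l : ℝ) + (1 / 2 - β))) / m := by
      field_simp
    rw [e, abs_div, abs_of_pos hM]
    apply div_le_div_of_nonneg_right _ hM.le
    rw [abs_le]
    constructor <;> linarith
  have hpm' : |α * p + β - (m + 1 / 2)| ≤ 1 / 2 - ε := by
    have e : α * p + β - (m + 1 / 2) = (α - ((m : ℝ) + (1 / 2 - β)) / p) * p := by
      field_simp; ring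
    rw [e, abs_mul, abs_of_pos hP]
    have ht := abs_sub_le α (((l : ℝ) + (1 / 2 - β)) / m) (((m : ℝ) + (1 / 2 - β)) / p)
    have h4 : |α - ((m : ℝ) + (1 / 2 - β)) / p| * p ≤ (1 / 2 - ε) / m * p +
        |((l : ℝ) + (1 / 2 - β)) / m - ((m : ℝ) + (1 / 2 - β)) / p| * p := by
      rw [← add_mul]
      apply mul_le_mul_of_nonneg_right _ hP.le
      linarith
    have e2 : (1 / 2 - ε) / m * p = (1 / 2 - ε) * ((p : ℝ) / m) := by ring
    rw [e2] at h4
    have e3 : (1 / 2 - ε) * (1 - (p : ℝ) / m) = (1 / 2 - ε) - (1 / 2 - ε) * ((p : ℝ) / m) := by ring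
    rw [e3] at h1
    linarith
  rw [abs_le] at hpm'
  constructor
  · linarith [hpm'.1]
  · linarith [hpm'.2]

end SMD
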