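import Pool.Agent.SMD.PQc
import Pool.Agent.SMD.GeoB4
import Pool.Agent.SMD.SecM4

/-!
# SMD.MainQ4: many chains of length 4 for a positive proportion of the multipliers in every interval

PROOF. As `Pool/Agent/SMC/MainQ.lean` (copy; the private lemmas `MainQ_cs`, `MainQ_ch_det` (for both triples `(p,m,l)`, `(m,l,r)` of the chain), ...).
`κ, η0` from `geoB4`, `σ0` for `β`; `σ = ρ/(120 B)`, `ρ0 = min (120 B σ0) ((A-1)/2)`, also `ρ0 ≤ 1`; `h1 = (1/2-β)(1-1/μ)/μ`,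
`h2 = (1/2-β)(1-1/μ)(2/μ+1/μ²)`; `w` large. `J = ⌊1/(9σ)⌋₊ ≥ 1`, centres `w_j = w + 9σj`, `j < J` (so `w_j ≤ w + 1`). The sets
`PQ σ κ w_j μ h1 h2` are pairwise disjoint (`|log p - w_j| ≤ 4σ`). For `q = (p, m, l, r)` in one of them let `I_q = [α1, α2]` be the interval of `geoB4` (for
`w_j`): `|α - μ| ≤ 120Bσ = ρ` and `Rob4 ε β α p m l r` for `α ∈ I_q`, length `≥ η0 e^(-w_j) ≥ η0 e^(-w-1)`. `G(t) = ∑_q 1[t ∈ I_q]`. Then
(1) `∫ G ≥ J · c κ² σ² e^(2w)/(w+1)^4 · η0 e^(-w-1) ≥ c' σ e^w/w^4` (`pq_count` for each of the finitely many `j` and large `w`; `J ≥ 1/(18σ)`).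
(2) `G(t) ≤ ∑_{i ≤ J0} (N4 β (β - i) (1/12) w μ t + N4 β (β - i) (1/12) (w + 1/2) μ t + N4 β (β - i) (1/12) (w+1) μ t)`, `J0 = ⌈B⌉₊ + 2`: for
`t ∈ I_q` the numbers `l = ⌊t m + β⌋₊`, `p = ⌈(m-β)/t⌉₊`, `r = ⌊t l + β⌋₊` are determined by `m`; `t m + β - 1 < l ≤ t m + β`, so
`t² m + t β + β - t < t l + β ≤ t² m + t β + β` and `r = ⌊t² m + t β + β⌋ - i = ⌊t² m + t β + (β - i)⌋₊` with `0 ≤ i ≤ t + 1 ≤ J0`; different
`q` with `t ∈ I_q` have different `m`, and `log m - log μ ∈ [w - 4σ, w + 1 + 4σ]` is covered by the three windows of half width `1/3`. So by `sec_m4`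
(`σ = 1/12`, `a = μ - ρ ≥ (1+A)/2`, `b = μ + ρ`; Cauchy-Schwarz for the `3 (J0+1)` terms) `∫_{|t-μ|≤ρ} G² ≤ C ρ e^(2w)/w^8`.
(3) `G` vanishes outside `|t-μ| ≤ ρ`. Let `θ = M1/(4ρ) ≥ c1 e^w/w^4`, `M1` the lower bound of `∫ G`, `A1 = {t : |t-μ| ≤ ρ, G(t) ≥ θ}`.
`vol A1 ≥ (M1/2)²/∫G² ≥ c2 ρ`.
(4) `G(t)` is at most `cntR4 ε β w t` (`p` determines `m = ⌊tp+β⌋₊`, `l` and `r`, so different `q` with `t ∈ I_q` have different `p`).
-/

namespace SMD

open MeasureTheory Filter SMC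

/-- Chain data of length four: everything is determined by `m`. -/
private theorem MainQ4_det {ε β t : ℝ} {p m l r : ℕ} (hε : 0 < ε) (ht : 1 < t) (hp : p ≠ 0)
    (h : Ch4 ε β t p m l r) : ⌊t * p + β⌋₊ = m ∧ ⌊t * m + β⌋₊ = l ∧ ⌈((m : ℝ) - β) / t⌉₊ = p ∧
      ∃ i : ℕ, (i : ℝ) < t + 1 ∧ ⌊t ^ 2 * m + t * β + (β - i)⌋₊ = r := by
  obtain ⟨h1, h2, h3, h4, h5, h6, -⟩ := h
  have ht0 : 0 < t := by linarith
  have hl0 : (0 : ℝ) ≤ l := Nat.cast_nonneg l
  have hr0 : (0 : ℝ) ≤ r := Nat.cast_nonneg r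
  have hm0 : (0 : ℝ) ≤ m := Nat.cast_nonneg m
  refine ⟨?_, ?_, ?_, ?_⟩
  · rw [Nat.floor_eq_iff (by linarith)]
    constructor <;> linarith
  · rw [Nat.floor_eq_iff (by linarith)]
    constructor <;> linarith
  · rw [Nat.ceil_eq_iff hp]
    have hp1 : 1 ≤ p := Nat.one_le_iff_ne_zero.mpr hp
    constructor
    · rw [Nat.cast_sub hp1, Nat.cast_one, lt_div_iff₀ ht0]
      nlinarith
    · rw [div_le_iff₀ ht0]
      nlinarith
  · have e1 : (r : ℝ) ≤ t ^ 2 * m + t * β + β := by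
      have : t * l ≤ t * (t * m + β) := mul_le_mul_of_nonneg_left (by linarith) ht0.le
      nlinarith
    have e2 : t ^ 2 * m + t * β + β < r + (t + 1) := by
      have : t * (t * m + β) ≤ t * (l + 1 - ε) := mul_le_mul_of_nonneg_left h4 ht0.le
      nlinarith
    have e3 : 0 ≤ t ^ 2 * m + t * β + β - r := by linarith
    refine ⟨⌊t ^ 2 * m + t * β + β - r⌋₊, ?_, ?_⟩
    · exact lt_of_le_of_lt (Nat.floor_le e3) (by linarith)
    · have e4 := Nat.floor_le e3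
      have e5 := Nat.lt_floor_add_one (t ^ 2 * m + t * β + β - r)
      rw [Nat.floor_eq_iff (by linarith)]
      constructor <;> linarith

/-- Two chains with the same `m` (and the same window) are equal. -/
private theorem MainQ4_inj {ε β t : ℝ} (hε : 0 < ε) (ht : 1 < t) {x x' : Sigma fun _ : ℕ => ℕ × ℕ × ℕ × ℕ}
    (hp : x.2.1 ≠ 0) (hp' : x'.2.1 ≠ 0) (h : Ch4 ε β t x.2.1 x.2.2.1 x.2.2.2.1 x.2.2.2.2)
    (h' : Ch4 ε β t x'.2.1 x'.2.2.1 x'.2.2.2.1 x'.2.2.2.2) (hm : x.2.2.1 = x'.2.2.1) (hj : x.1 = x'.1) :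
    x = x' := by
  obtain ⟨j, p, m, l, r⟩ := x
  obtain ⟨j', p', m', l', r'⟩ := x'
  simp only at hp hp' h h' hm hj
  subst hj
  subst hm
  obtain ⟨-, h7, h8, -⟩ := MainQ4_det hε ht hp h
  obtain ⟨-, h7', h8', -⟩ := MainQ4_det hε ht hp' h'
  have e1 : p = p' := h8.symm.trans h8'
  have e2 : l = l' := h7.symm.trans h7'
  subst e1
  subst e2
  obtain ⟨-, -, -, -, h5, h6, -⟩ := h
  obtain ⟨-, -, -, -, h5', h6', -⟩ := h'
  have e3 : r = r' := by
    have e4 : (r : ℝ) < r' + 1 := by linarith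
    have e5 : (r' : ℝ) < r + 1 := by linarith
    have e6 : r < r' + 1 := by exact_mod_cast e4
    have e7 : r' < r + 1 := by exact_mod_cast e5
    omega
  subst e3
  rfl

private theorem MainQ4_cs (f : ℝ → ENNReal) (hf : Measurable f) (U : Set ℝ) (hU : MeasurableSet U)
    (h0 : ∀ t, t ∉ U → f t = 0) :
    (∫⁻ t, f t) ^ 2 ≤ (∫⁻ t, f t ^ 2) * volume U := by
  have h1 : ∫⁻ t, f t = ∫⁻ t, (f * U.indicator (fun _ => (1 : ENNReal))) t := by
    congr 1
    funext t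
    simp only [Pi.mul_apply]
    by_cases ht : t ∈ U
    · simp [ht]
    · simp [ht, h0 t ht]
  have h2 := ENNReal.lintegral_mul_le_Lp_mul_Lq (volume : Measure ℝ)
    (p := 2) (q := 2) (by
      rw [Real.holderConjugate_iff]
      norm_num) (f := f) (g := U.indicator (fun _ => (1 : ENNReal))) hf.aemeasurable
    ((measurable_const.indicator hU).aemeasurable)
  rw [← h1] at h2
  have h3 : ∫⁻ t, (U.indicator (fun _ => (1 : ENNReal)) t) ^ (2 : ℝ) = volume U := by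
    have : (fun t => (U.indicator (fun _ => (1 : ENNReal)) t) ^ (2 : ℝ)) =
        U.indicator (fun _ => (1 : ENNReal)) := by
      funext t
      by_cases ht : t ∈ U <;> simp [ht]
    rw [this, lintegral_indicator hU]
    simp
  rw [h3] at h2
  have h4 : (∫⁻ t, f t ^ (2 : ℝ)) = ∫⁻ t, f t ^ 2 := by
    congr 1
    funext t
    exact_mod_cast ENNReal.rpow_natCast (f t) 2
  rw [h4] at h2
  calc (∫⁻ t, f t) ^ 2 ≤ ((∫⁻ t, f t ^ 2) ^ ((1 : ℝ) / 2) * (volume U) ^ ((1 : ℝ) / 2)) ^ 2 :=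
        pow_le_pow_left' h2 2
    _ = (∫⁻ t, f t ^ 2) * volume U := by
        rw [mul_pow, ← ENNReal.rpow_natCast, ← ENNReal.rpow_natCast, ← ENNReal.rpow_mul,
          ← ENNReal.rpow_mul]
        norm_num

theorem main_pos4 {A B ε : ℝ} (hA : 1 < A) (hAB : A < B) (hε : 0 < ε) (hε1 : ε ≤ 1 / 4)
    (hε2 : ε ≤ (A - 1) / (8 * (A + 1))) : ∃ c1 c2 : ℝ, 0 < c1 ∧ 0 < c2 ∧ ∀ β : ℝ, ∃ ρ0 : ℝ, 0 < ρ0 ∧
    ∀ μ ρ : ℝ, A ≤ μ → μ ≤ B → 0 < ρ → ρ ≤ ρ0 → ∀ᶠ w : ℝ in atTop,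
      ENNReal.ofReal (c2 * ρ) ≤
        volume {t : ℝ | |t - μ| ≤ ρ ∧ c1 * (Real.exp w / w ^ 4) ≤ (cntR4 ε β w t : ℝ)} := by
  classical
  obtain ⟨κ, η0, hκ, hη0, hgeo⟩ := geoB4 hA hAB hε hε1 hε2
  obtain ⟨c0, hc0, hcount⟩ := pq_count
  have hB1 : 1 ≤ B := by linarith
  have hB0 : 0 < B := by linarith
  obtain ⟨C, hC, hsec⟩ := sec_m4 hB1
  obtain ⟨K0, hK0⟩ : ∃ K0 : ℕ, K0 = ⌈2 * B⌉₊ + 2 := ⟨_, rfl⟩
  have hKB : 2 * B + 2 ≤ (K0 : ℝ) := by
    rw [hK0]
    push_cast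
    linarith [Nat.le_ceil (2 * B)]
  refine ⟨c0 * κ ^ 2 * η0 / (414720 * B), (c0 * κ ^ 2 * η0) ^ 2 / (103680 ^ 2 * 4 * B ^ 2 * C * (K0 + 1) ^ 2),
    by positivity, by positivity, fun β => ?_⟩
  obtain ⟨σ0, hσ0, hσ12, hg⟩ := hgeo β
  refine ⟨min (120 * B * σ0) ((A - 1) / 2), lt_min (by positivity) (by linarith),
    fun μ ρ hAμ hμB hρ hρ0 => ?_⟩
  have hρ1 : ρ ≤ 120 * B * σ0 := hρ0.trans (min_le_left _ _)
  have hρ2 : ρ ≤ (A - 1) / 2 := hρ0.trans (min_le_right _ _)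
  obtain ⟨σ, hσdef⟩ : ∃ σ : ℝ, σ = ρ / (120 * B) := ⟨_, rfl⟩
  have hσρ : 120 * B * σ = ρ := by
    rw [hσdef]
    field_simp
  have hσ : 0 < σ := by
    rw [hσdef]
    positivity
  have hσσ0 : σ ≤ σ0 := by
    by_contra hcon
    push Not at hcon
    have : 120 * B * σ0 < 120 * B * σ := by
      apply mul_lt_mul_of_pos_left hcon
      positivity
    linarith
  have hσ12' : σ ≤ 1 / 12 := hσσ0.trans hσ12
  have hμ1 : 1 ≤ μ := by linarith
  have hμ0 : 0 < μ := by linarith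
  obtain ⟨h1', hh1⟩ : ∃ h : ℝ, h = (1 / 2 - β) * (1 - 1 / μ) / μ := ⟨_, rfl⟩
  obtain ⟨h2', hh2⟩ : ∃ h : ℝ, h = (1 / 2 - β) * (1 - 1 / μ) * (2 / μ + 1 / μ ^ 2) := ⟨_, rfl⟩
  obtain ⟨J, hJ⟩ : ∃ J : ℕ, J = ⌊1 / (9 * σ)⌋₊ := ⟨_, rfl⟩
  have hx1 : 1 ≤ 1 / (9 * σ) := by
    rw [le_div_iff₀ (by positivity)]
    linarith
  have hJ1 : (J : ℝ) ≤ 1 / (9 * σ) := by
    rw [hJ]
    exact Nat.floor_le (by linarith)
  have hJ0 : (1 : ℝ) ≤ J := by
    rw [hJ]
    exact_mod_cast (Nat.one_le_floor_iff _).2 hx1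
  have hJ2 : 1 / (18 * σ) ≤ J := by
    have h1 : 1 / (9 * σ) < (J : ℝ) + 1 := by
      rw [hJ]
      exact Nat.lt_floor_add_one _
    have h2 : 1 / (18 * σ) = (1 / (9 * σ)) / 2 := by
      field_simp
      ring
    rw [h2]
    linarith
  have hJ3 : 9 * σ * J ≤ 1 := by
    rw [le_div_iff₀ (by positivity)] at hJ1
    linarith
  obtain ⟨I, hI⟩ : ∃ I : Finset (ℕ × ℕ), I = Finset.range (K0 + 1) ×ˢ Finset.range 3 := ⟨_, rfl⟩
  have hIc : (I.card : ℝ) = 3 * (K0 + 1) := by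
    rw [hI, Finset.card_product, Finset.card_range, Finset.card_range]
    push_cast
    ring
  have hshift : ∀ (P : ℝ → Prop) (c : ℝ), (∀ᶠ w in atTop, P w) → ∀ᶠ w in atTop, P (w + c) :=
    fun P c hP => (tendsto_atTop_add_const_right atTop c tendsto_id).eventually hP
  have ev1 := (Filter.eventually_all_finset (Finset.range J)).2
    (fun j _ => hshift _ (9 * σ * (j : ℝ)) (hg μ σ hAμ hμB hσ hσσ0))
  have ev2 := (Filter.eventually_all_finset (Finset.range J)).2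
    (fun j _ => hshift _ (9 * σ * (j : ℝ)) (hcount σ κ μ h1' h2' hσ hσ12' hκ hμ1))
  have ev3 := (Filter.eventually_all_finset I).2
    (fun x _ => hshift _ ((x.2 : ℝ) / 2) (hsec β (β - x.1) (μ - ρ) (μ + ρ) μ (1 / 12) (by linarith) (by linarith)
      hμ1 hμB (by norm_num) le_rfl))
  filter_upwards [ev1, ev2, ev3, eventually_ge_atTop (1 : ℝ)] with w hw1 hw2 hw3 hw0
  have hwp : 0 < w := by linarith
  have hj1 : ∀ j ∈ Finset.range J, 9 * σ * (j : ℝ) + 9 * σ ≤ 1 := by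
    intro j hj
    have h1 : (j : ℝ) + 1 ≤ J := by exact_mod_cast Finset.mem_range.1 hj
    have h2 : 9 * σ * ((j : ℝ) + 1) ≤ 9 * σ * J := mul_le_mul_of_nonneg_left h1 (by positivity)
    linarith
  have hj0 : ∀ j : ℕ, 0 ≤ 9 * σ * (j : ℝ) := fun j => by positivity
  -- the intervals
  have key : ∀ j : ℕ, j ∈ Finset.range J → ∀ q : ℕ × ℕ × ℕ × ℕ, q ∈ PQ σ κ (w + 9 * σ * (j : ℝ)) μ h1' h2' →
      ∃ α1 α2 : ℝ, η0 * Real.exp (-(w + 9 * σ * (j : ℝ))) ≤ α2 - α1 ∧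
      ∀ α ∈ Set.Icc α1 α2, |α - μ| ≤ 120 * B * σ ∧ Ch4 ε β α q.1 q.2.1 q.2.2.1 q.2.2.2 := by
    rintro j hj ⟨p, m, l, r⟩ ⟨hp, hm, hl, hr, h1, h2, h3, h4⟩
    refine hw1 j hj p m l r hp.pos hm.pos hl.pos hr.pos h1 h2 ?_ ?_
    · rw [← hh1]
      exact h3
    · rw [← hh2]
      exact h4
  choose! a1 a2 hlen hin using key
  have hSf : ∀ j : ℕ, ∃ S : Finset (ℕ × ℕ × ℕ × ℕ), j ∈ Finset.range J →
      (∀ q, q ∈ S ↔ q ∈ PQ σ κ (w + 9 * σ * (j : ℝ)) μ h1' h2') ∧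
      (S.card : ℝ) = ((PQ σ κ (w + 9 * σ * (j : ℝ)) μ h1' h2').ncard : ℝ) := by
    intro j
    by_cases hj : j ∈ Finset.range J
    · obtain ⟨hfin, -⟩ := hw2 j hj
      refine ⟨hfin.toFinset, fun _ => ⟨fun q => hfin.mem_toFinset, ?_⟩⟩
      rw [Set.ncard_eq_toFinset_card _ hfin]
    · exact ⟨∅, fun hj' => absurd hj' hj⟩
  choose Sf hSf using hSf
  obtain ⟨S, hS⟩ : ∃ S : Finset (Sigma fun _ : ℕ => ℕ × ℕ × ℕ × ℕ), S = (Finset.range J).sigma Sf :=
    ⟨_, rfl⟩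
  have hSmem : ∀ x, x ∈ S → x.1 ∈ Finset.range J ∧ x.2 ∈ PQ σ κ (w + 9 * σ * (x.1 : ℝ)) μ h1' h2' := by
    intro x hx
    rw [hS, Finset.mem_sigma] at hx
    exact ⟨hx.1, ((hSf x.1 hx.1).1 x.2).1 hx.2⟩
  have hSj : ∀ x ∈ S, ∀ x' ∈ S, x.2.1 = x'.2.1 → x.1 = x'.1 := by
    intro x hx x' hx' hxx
    obtain ⟨-, hq⟩ := hSmem x hx
    obtain ⟨-, hq'⟩ := hSmem x' hx'
    have h1 := abs_le.1 hq.2.2.2.2.1
    have h2 := abs_le.1 hq'.2.2.2.2.1
    rw [hxx] at h1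
    have h3 : 9 * σ * (x.1 : ℝ) - 9 * σ * (x'.1 : ℝ) ≤ 8 * σ := by linarith [h1.1, h2.2]
    have h4 : 9 * σ * (x'.1 : ℝ) - 9 * σ * (x.1 : ℝ) ≤ 8 * σ := by linarith [h1.2, h2.1]
    have h5 : (x.1 : ℝ) - x'.1 < 1 := by nlinarith
    have h6 : (x'.1 : ℝ) - x.1 < 1 := by nlinarith
    have h7 : x.1 < x'.1 + 1 := by
      have : (x.1 : ℝ) < x'.1 + 1 := by linarith
      exact_mod_cast this
    have h8 : x'.1 < x.1 + 1 := by
      have : (x'.1 : ℝ) < x.1 + 1 := by linarith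
      exact_mod_cast this
    omega
  obtain ⟨G, hG⟩ : ∃ G : ℝ → ENNReal, G = fun t =>
      ∑ x ∈ S, (Set.Icc (a1 x.1 x.2) (a2 x.1 x.2)).indicator (fun _ => (1 : ENNReal)) t :=
    ⟨_, rfl⟩
  have hGm : Measurable G := by
    rw [hG]
    exact Finset.measurable_sum _ (fun q _ => measurable_const.indicator measurableSet_Icc)
  have hGc : ∀ t, G t =
      ((S.filter (fun x => t ∈ Set.Icc (a1 x.1 x.2) (a2 x.1 x.2))).card : ENNReal) := by
    intro t
    rw [hG]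
    simp only [Set.indicator_apply]
    rw [Finset.sum_ite, Finset.sum_const_zero, add_zero, Finset.sum_const, nsmul_eq_mul, mul_one]
  have hG0 : ∀ t, t ∉ Set.Icc (μ - ρ) (μ + ρ) → G t = 0 := by
    intro t ht
    rw [hG]
    refine Finset.sum_eq_zero (fun x hx => ?_)
    refine Set.indicator_of_notMem (fun hmem => ht ?_) _
    obtain ⟨hj, hq⟩ := hSmem x hx
    have h1 := (hin x.1 hj x.2 hq t hmem).1
    rw [hσρ] at h1
    have h2 := abs_le.1 h1
    constructor <;> linarith [h2.1, h2.2]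
  -- (4) `G ≤ cntR4`
  have hGR : ∀ t, t ∈ Set.Icc (μ - ρ) (μ + ρ) → G t ≤ (cntR4 ε β w t : ENNReal) := by
    intro t htI
    have ht1 : 1 < t := by linarith [htI.1]
    rw [hGc t]
    have : (S.filter (fun x => t ∈ Set.Icc (a1 x.1 x.2) (a2 x.1 x.2))).card ≤ cntR4 ε β w t := by
      unfold cntR4
      refine Finset.card_le_card_of_injOn (fun x => x.2.1) ?_ ?_
      · intro x hx
        simp only [Finset.coe_filter, Set.mem_ofPred_eq] at hx
        obtain ⟨hxS, hxt⟩ := hx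
        obtain ⟨hj, hq⟩ := hSmem x hxS
        obtain ⟨-, h2⟩ := hin x.1 hj x.2 hq t hxt
        obtain ⟨hp, hm, hl, hr, h3, h4, h5, h6⟩ := hq
        simp only [Finset.coe_filter, Set.mem_ofPred_eq, Finset.mem_Icc]
        refine ⟨⟨hp.one_le, ?_⟩, x.2.2.1, x.2.2.2.1, x.2.2.2.2, hp, hm, hl, hr, h2⟩
        rw [Nat.le_floor_iff (Real.exp_pos _).le]
        have hpp : (0 : ℝ) < x.2.1 := by exact_mod_cast hp.pos
        rw [← Real.exp_log hpp]
        apply Real.exp_le_exp.mpr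
        have := (abs_le.mp h3).2
        have := hj1 x.1 hj
        linarith
      · intro x hx x' hx' hxx
        simp only [Finset.coe_filter, Set.mem_ofPred_eq] at hx hx'
        obtain ⟨hxS, hxt⟩ := hx
        obtain ⟨hxS', hxt'⟩ := hx'
        obtain ⟨hj, hq1⟩ := hSmem x hxS
        obtain ⟨hj', hq2⟩ := hSmem x' hxS'
        obtain ⟨-, h2⟩ := hin x.1 hj x.2 hq1 t hxt
        obtain ⟨-, h2'⟩ := hin x'.1 hj' x'.2 hq2 t hxt'
        obtain ⟨hm1, -⟩ := MainQ4_det hε ht1 hq1.1.ne_zero h2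
        obtain ⟨hm2, -⟩ := MainQ4_det hε ht1 hq2.1.ne_zero h2'
        have hpp : x.2.1 = x'.2.1 := hxx
        have hmm : x.2.2.1 = x'.2.2.1 := by
          rw [← hm1, ← hm2, hpp]
        exact MainQ4_inj hε ht1 hq1.1.ne_zero hq2.1.ne_zero h2 h2' hmm (hSj x hxS x' hxS' hpp)
    exact_mod_cast this
  -- (2) `G ≤` sum of the `N4`
  have hGN : ∀ t, t ∈ Set.Icc (μ - ρ) (μ + ρ) →
      G t ≤ ((∑ x ∈ I, N4 β (β - x.1) (1 / 12) (w + (x.2 : ℝ) / 2) μ t : ℕ) : ENNReal) := by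
    intro t htI
    have ht1 : 1 < t := by linarith [htI.1]
    have htB : t ≤ 2 * B := by linarith [htI.2]
    rw [hGc t]
    have : (S.filter (fun x => t ∈ Set.Icc (a1 x.1 x.2) (a2 x.1 x.2))).card ≤
        ∑ x ∈ I, N4 β (β - x.1) (1 / 12) (w + (x.2 : ℝ) / 2) μ t := by
      unfold N4
      refine le_trans ?_ Finset.card_biUnion_le
      refine Finset.card_le_card_of_injOn (fun x => x.2.2.1) ?_ ?_
      · intro x hx
        simp only [Finset.coe_filter, Set.mem_ofPred_eq] at hx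
        obtain ⟨hxS, hxt⟩ := hx
        obtain ⟨hj, hq⟩ := hSmem x hxS
        obtain ⟨-, h2⟩ := hin x.1 hj x.2 hq t hxt
        obtain ⟨hp, hm, hl, hr, h3, h4, h5, h6⟩ := hq
        obtain ⟨-, h7, h8, i, hi, h9⟩ := MainQ4_det hε ht1 hp.ne_zero h2
        have hiK : i ∈ Finset.range (K0 + 1) := by
          rw [Finset.mem_range]
          have : (i : ℝ) < K0 := by linarith
          have : i < K0 := by exact_mod_cast this
          omega
        have hmp : (0 : ℝ) < x.2.2.1 := by exact_mod_cast hm.pos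
        have hcl : ∀ j' : ℕ, j' < 3 → |Real.log x.2.2.1 - (w + (j' : ℝ) / 2) - Real.log μ| ≤ 4 * (1 / 12) →
            x.2.2.1 ∈ I.biUnion fun y => (Finset.Icc 1 ⌊Real.exp (w + (y.2 : ℝ) / 2 + Real.log μ + 4 * (1 / 12))⌋₊).filter
              fun m : ℕ => m.Prime ∧ |Real.log m - (w + (y.2 : ℝ) / 2) - Real.log μ| ≤ 4 * (1 / 12) ∧
              (⌊t * m + β⌋₊).Prime ∧ (⌈(m - β) / t⌉₊).Prime ∧ (⌊t ^ 2 * m + t * β + (β - y.1)⌋₊).Prime := by
          intro j' hj' hw'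
          rw [Finset.mem_biUnion]
          refine ⟨(i, j'), ?_, ?_⟩
          · rw [hI, Finset.mem_product]
            exact ⟨hiK, Finset.mem_range.2 hj'⟩
          rw [Finset.mem_filter, Finset.mem_Icc]
          refine ⟨⟨hm.one_le, ?_⟩, hm, hw', ?_, ?_, ?_⟩
          · rw [Nat.le_floor_iff (Real.exp_pos _).le, ← Real.exp_log hmp]
            apply Real.exp_le_exp.mpr
            have := (abs_le.mp hw').2
            linarith
          · rw [h7]
            exact hl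
          · rw [h8]
            exact hp
          · rw [h9]
            exact hr
        have e1 := abs_le.1 h4
        have e2 := hj1 x.1 hj
        have e3 := hj0 x.1
        rw [Finset.mem_coe]
        rcases le_total (Real.log x.2.2.1 - Real.log μ) (w + 1 / 3) with h9 | h9
        · refine hcl 0 (by norm_num) ?_
          rw [abs_le]
          push_cast
          constructor <;> linarith [e1.1, e1.2]
        · rcases le_total (Real.log x.2.2.1 - Real.log μ) (w + 5 / 6) with h10 | h10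
          · refine hcl 1 (by norm_num) ?_
            rw [abs_le]
            push_cast
            constructor <;> linarith [e1.1, e1.2]
          · refine hcl 2 (by norm_num) ?_
            rw [abs_le]
            push_cast
            constructor <;> linarith [e1.1, e1.2]
      · intro x hx x' hx' hxx
        simp only [Finset.coe_filter, Set.mem_ofPred_eq] at hx hx'
        obtain ⟨hxS, hxt⟩ := hx
        obtain ⟨hxS', hxt'⟩ := hx'
        obtain ⟨hj, hq1⟩ := hSmem x hxS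
        obtain ⟨hj', hq2⟩ := hSmem x' hxS'
        obtain ⟨-, h2⟩ := hin x.1 hj x.2 hq1 t hxt
        obtain ⟨-, h2'⟩ := hin x'.1 hj' x'.2 hq2 t hxt'
        obtain ⟨-, -, hp1, -⟩ := MainQ4_det hε ht1 hq1.1.ne_zero h2
        obtain ⟨-, -, hp2, -⟩ := MainQ4_det hε ht1 hq2.1.ne_zero h2'
        have hmm : x.2.2.1 = x'.2.2.1 := hxx
        have hpp : x.2.1 = x'.2.1 := by
          rw [← hp1, ← hp2, hmm]
        exact MainQ4_inj hε ht1 hq1.1.ne_zero hq2.1.ne_zero h2 h2' hmm (hSj x hxS x' hxS' hpp)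
    exact_mod_cast this
  have hGNN : ∀ t, G t ^ 2 ≤ (Set.Icc (μ - ρ) (μ + ρ)).indicator
      (fun t => (I.card : ENNReal) * ∑ x ∈ I, (N4 β (β - x.1) (1 / 12) (w + (x.2 : ℝ) / 2) μ t : ENNReal) ^ 2) t := by
    intro t
    by_cases htI : t ∈ Set.Icc (μ - ρ) (μ + ρ)
    · rw [Set.indicator_of_mem htI]
      refine le_trans (pow_le_pow_left' (hGN t htI) 2) ?_
      have h1 := sq_sum_le_card_mul_sum_sq (s := I)
        (f := fun x => N4 β (β - x.1) (1 / 12) (w + (x.2 : ℝ) / 2) μ t)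
      have h2 : (((∑ x ∈ I, N4 β (β - x.1) (1 / 12) (w + (x.2 : ℝ) / 2) μ t) ^ 2 : ℕ) : ENNReal) ≤
          ((I.card * ∑ x ∈ I, N4 β (β - x.1) (1 / 12) (w + (x.2 : ℝ) / 2) μ t ^ 2 : ℕ) : ENNReal) := by
        exact_mod_cast h1
      push_cast at h2
      push_cast
      exact h2
    · rw [hG0 t htI]
      simp
  -- the second moment
  obtain ⟨F, hF⟩ : ∃ F : ℝ, F = C * (K0 + 1) ^ 2 * ρ * Real.exp (2 * w) / w ^ 8 := ⟨_, rfl⟩
  have hF0 : 0 < F := by
    rw [hF]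
    positivity
  have hsecb : ∀ x ∈ I, ∫⁻ t in Set.Icc (μ - ρ) (μ + ρ),
      (N4 β (β - x.1) (1 / 12) (w + (x.2 : ℝ) / 2) μ t : ENNReal) ^ 2 ≤
        ENNReal.ofReal (F / (9 * (K0 + 1) ^ 2)) := by
    intro x hx
    refine (hw3 x hx).trans (ENNReal.ofReal_le_ofReal ?_)
    have hx2 : (x.2 : ℝ) ≤ 2 := by
      rw [hI, Finset.mem_product, Finset.mem_range, Finset.mem_range] at hx
      have : x.2 ≤ 2 := by omega
      exact_mod_cast this
    have hx0 : (0 : ℝ) ≤ x.2 := Nat.cast_nonneg _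
    obtain ⟨w', hw'⟩ : ∃ w' : ℝ, w' = w + (x.2 : ℝ) / 2 := ⟨_, rfl⟩
    rw [← hw']
    have h1 : w ≤ w' := by rw [hw']; linarith
    have h2 : w' ≤ w + 1 := by rw [hw']; linarith
    have e1 : Real.exp (2 * w') ≤ 8 * Real.exp (2 * w) := by
      have e2 : Real.exp (2 * w') ≤ Real.exp (2 * w) * Real.exp 2 := by
        rw [← Real.exp_add]
        exact Real.exp_le_exp.2 (by linarith)
      have e3 : Real.exp 2 ≤ 8 := by
        have e4 : Real.exp 2 = Real.exp 1 * Real.exp 1 := by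
          rw [← Real.exp_add]; norm_num
        have e5 := Real.exp_one_lt_d9
        have e6 := Real.exp_pos 1
        rw [e4]
        nlinarith
      have e7 := Real.exp_pos (2 * w)
      nlinarith
    have e8 : w ^ 8 ≤ w' ^ 8 := pow_le_pow_left₀ hwp.le h1 8
    have e9 : (μ + ρ) - (μ - ρ) = 2 * ρ := by ring
    rw [e9, hF]
    calc C * (1 / 12) ^ 2 * (2 * ρ) * Real.exp (2 * w') / w' ^ 8
        ≤ C * (1 / 12) ^ 2 * (2 * ρ) * (8 * Real.exp (2 * w)) / w ^ 8 := by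
          gcongr
      _ = C * (K0 + 1) ^ 2 * ρ * Real.exp (2 * w) / w ^ 8 / (9 * (K0 + 1) ^ 2) := by
          field_simp
          ring
  have hG2 : ∫⁻ t, G t ^ 2 ≤ ENNReal.ofReal F := by
    have hNm : ∀ x ∈ I, Measurable fun t : ℝ =>
        (N4 β (β - x.1) (1 / 12) (w + (x.2 : ℝ) / 2) μ t : ENNReal) ^ 2 := fun x _ =>
      ((measurable_of_countable (fun n : ℕ => (n : ENNReal))).comp (N4_meas _ _ _ _ _)).pow_const 2
    calc ∫⁻ t, G t ^ 2 ≤ ∫⁻ t, (Set.Icc (μ - ρ) (μ + ρ)).indicator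
          (fun t => (I.card : ENNReal) *
            ∑ x ∈ I, (N4 β (β - x.1) (1 / 12) (w + (x.2 : ℝ) / 2) μ t : ENNReal) ^ 2) t := lintegral_mono hGNN
      _ = ∫⁻ t in Set.Icc (μ - ρ) (μ + ρ), (I.card : ENNReal) *
            ∑ x ∈ I, (N4 β (β - x.1) (1 / 12) (w + (x.2 : ℝ) / 2) μ t : ENNReal) ^ 2 :=
          lintegral_indicator measurableSet_Icc _
      _ = (I.card : ENNReal) * ∑ x ∈ I, ∫⁻ t in Set.Icc (μ - ρ) (μ + ρ),
            (N4 β (β - x.1) (1 / 12) (w + (x.2 : ℝ) / 2) μ t : ENNReal) ^ 2 := by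
          rw [lintegral_const_mul _ (Finset.measurable_sum _ hNm), lintegral_finsetSum _ hNm]
      _ ≤ (I.card : ENNReal) * ∑ _x ∈ I, ENNReal.ofReal (F / (9 * (K0 + 1) ^ 2)) := by
          gcongr with x hx
          exact hsecb x hx
      _ = ENNReal.ofReal F := by
          rw [Finset.sum_const, nsmul_eq_mul, ← ENNReal.ofReal_natCast, ← ENNReal.ofReal_mul (Nat.cast_nonneg _),
            ← ENNReal.ofReal_mul (Nat.cast_nonneg _)]
          congr 1
          rw [hIc]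
          field_simp
          ring
  -- the first moment
  obtain ⟨δ, hδ⟩ : ∃ δ : ℝ, δ = η0 / (3 * Real.exp w) := ⟨_, rfl⟩
  have hδ0 : 0 < δ := by
    rw [hδ]
    positivity
  have hlen' : ∀ x ∈ S, δ ≤ a2 x.1 x.2 - a1 x.1 x.2 := by
    intro x hx
    obtain ⟨hj, hq⟩ := hSmem x hx
    refine le_trans ?_ (hlen x.1 hj x.2 hq)
    have h1 : Real.exp (-(w + 1)) ≤ Real.exp (-(w + 9 * σ * (x.1 : ℝ))) := by
      apply Real.exp_le_exp.2
      have := hj1 x.1 hj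
      linarith
    have h2 : 1 / (3 * Real.exp w) ≤ Real.exp (-(w + 1)) := by
      rw [Real.exp_neg, Real.exp_add, one_div]
      apply inv_anti₀ (by positivity)
      have h3 : Real.exp 1 ≤ 3 := by
        have := Real.exp_one_lt_d9
        linarith
      have := Real.exp_pos w
      nlinarith
    rw [hδ, div_eq_mul_one_div]
    exact mul_le_mul_of_nonneg_left (h2.trans h1) hη0.le
  have hG1 : ENNReal.ofReal (S.card * δ) ≤ ∫⁻ t, G t := by
    have h1 : ∫⁻ t, G t = ∑ x ∈ S, volume (Set.Icc (a1 x.1 x.2) (a2 x.1 x.2)) := by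
      rw [hG]
      rw [lintegral_finsetSum _ (fun q _ => measurable_const.indicator measurableSet_Icc)]
      refine Finset.sum_congr rfl (fun q _ => ?_)
      rw [lintegral_indicator measurableSet_Icc]
      simp
    rw [h1]
    have h2 : ENNReal.ofReal (S.card * δ) = ∑ x ∈ S, ENNReal.ofReal δ := by
      rw [Finset.sum_const, nsmul_eq_mul, ENNReal.ofReal_mul (by positivity),
        ENNReal.ofReal_natCast]
    rw [h2]
    refine Finset.sum_le_sum (fun q hq => ?_)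
    rw [Real.volume_Icc]
    exact ENNReal.ofReal_le_ofReal (hlen' q hq)
  obtain ⟨N0, hN0⟩ : ∃ N0 : ℝ, N0 = c0 * κ ^ 2 * σ ^ 2 * Real.exp (2 * w) / (16 * w ^ 4) := ⟨_, rfl⟩
  have hN0p : 0 < N0 := by
    rw [hN0]
    positivity
  have hScard : (J : ℝ) * N0 ≤ S.card := by
    rw [hS, Finset.card_sigma, Nat.cast_sum]
    have h1 : (J : ℝ) * N0 = ∑ j ∈ Finset.range J, N0 := by
      rw [Finset.sum_const, Finset.card_range, nsmul_eq_mul]
    rw [h1]
    refine Finset.sum_le_sum (fun j hj => ?_)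
    rw [(hSf j hj).2]
    refine le_trans ?_ (hw2 j hj).2
    have e1 := hj1 j hj
    have e2 := hj0 j
    have e3 : (w + 9 * σ * (j : ℝ)) ^ 4 ≤ 16 * w ^ 4 := by
      have : (w + 9 * σ * (j : ℝ)) ^ 4 ≤ (2 * w) ^ 4 :=
        pow_le_pow_left₀ (by linarith) (by linarith) 4
      calc (w + 9 * σ * (j : ℝ)) ^ 4 ≤ (2 * w) ^ 4 := this
        _ = 16 * w ^ 4 := by ring
    have e4 : 0 < w + 9 * σ * (j : ℝ) := by linarith
    have e5 : Real.exp (2 * w) ≤ Real.exp (2 * (w + 9 * σ * (j : ℝ))) :=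
      Real.exp_le_exp.2 (by linarith)
    rw [hN0]
    gcongr
  obtain ⟨M1, hM1⟩ : ∃ M1 : ℝ, M1 = c0 * κ ^ 2 * η0 * ρ * Real.exp w / (103680 * B * w ^ 4) :=
    ⟨_, rfl⟩
  have hM1p : 0 < M1 := by
    rw [hM1]
    positivity
  have hM1S : M1 ≤ S.card * δ := by
    have h1 : M1 = 1 / (18 * σ) * N0 * δ := by
      rw [hM1, hN0, hδ]
      have he : Real.exp (2 * w) = Real.exp w ^ 2 := by
        rw [← Real.exp_nat_mul]
        norm_num
      rw [he, ← hσρ]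
      have := Real.exp_pos w
      field_simp
      ring
    rw [h1]
    refine mul_le_mul_of_nonneg_right (le_trans ?_ hScard) hδ0.le
    exact mul_le_mul_of_nonneg_right hJ2 hN0p.le
  -- (3)
  obtain ⟨θ, hθ⟩ : ∃ θ : ℝ, θ = c0 * κ ^ 2 * η0 / (414720 * B) * (Real.exp w / w ^ 4) := ⟨_, rfl⟩
  have hθ0 : 0 < θ := by
    rw [hθ]
    positivity
  have hθM : θ * (2 * ρ) = M1 / 2 := by
    rw [hθ, hM1]
    field_simp
    ring
  rw [← hθ]
  obtain ⟨A1, hA1⟩ : ∃ A1 : Set ℝ, A1 = Set.Icc (μ - ρ) (μ + ρ) ∩ {t | ENNReal.ofReal θ ≤ G t} :=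
    ⟨_, rfl⟩
  have hA1m : MeasurableSet A1 := by
    rw [hA1]
    exact measurableSet_Icc.inter (measurableSet_le measurable_const hGm)
  have hsplit : ∀ t, G t ≤ (Set.Icc (μ - ρ) (μ + ρ)).indicator (fun _ => ENNReal.ofReal θ) t +
      A1.indicator G t := by
    intro t
    by_cases htI : t ∈ Set.Icc (μ - ρ) (μ + ρ)
    · by_cases htA : ENNReal.ofReal θ ≤ G t
      · have : t ∈ A1 := by
          rw [hA1]
          exact ⟨htI, htA⟩
        rw [Set.indicator_of_mem this]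
        exact le_add_self
      · rw [Set.indicator_of_mem htI]
        exact (not_le.1 htA).le.trans le_self_add
    · rw [hG0 t htI]
      exact bot_le
  have hI1 : ENNReal.ofReal (M1 / 2) ≤ ∫⁻ t, A1.indicator G t := by
    have h1 : ∫⁻ t, G t ≤ ENNReal.ofReal (M1 / 2) + ∫⁻ t, A1.indicator G t := by
      refine (lintegral_mono hsplit).trans ?_
      rw [lintegral_add_left (measurable_const.indicator measurableSet_Icc),
        lintegral_indicator measurableSet_Icc]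
      refine add_le_add_left (le_of_eq ?_) _
      rw [setLIntegral_const, Real.volume_Icc, ← ENNReal.ofReal_mul hθ0.le, ← hθM]
      congr 1
      ring
    have h2 : ENNReal.ofReal M1 = ENNReal.ofReal (M1 / 2) + ENNReal.ofReal (M1 / 2) := by
      rw [← ENNReal.ofReal_add (by positivity) (by positivity)]
      congr 1
      ring
    have h3 : ENNReal.ofReal (M1 / 2) + ENNReal.ofReal (M1 / 2) ≤
        ENNReal.ofReal (M1 / 2) + ∫⁻ t, A1.indicator G t := by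
      rw [← h2]
      exact (ENNReal.ofReal_le_ofReal hM1S).trans (hG1.trans h1)
    exact (ENNReal.add_le_add_iff_left ENNReal.ofReal_ne_top).1 h3
  have hcs := MainQ4_cs (A1.indicator G) (hGm.indicator hA1m) A1 hA1m
    (fun t ht => Set.indicator_of_notMem ht _)
  have hI2 : ∫⁻ t, (A1.indicator G t) ^ 2 ≤ ENNReal.ofReal F := by
    refine (lintegral_mono (fun t => ?_)).trans hG2
    refine pow_le_pow_left' ?_ 2
    exact Set.indicator_le_self' (fun _ _ => bot_le) t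
  have h1 : ENNReal.ofReal ((M1 / 2) ^ 2) ≤ ENNReal.ofReal F * volume A1 := by
    calc ENNReal.ofReal ((M1 / 2) ^ 2) = (ENNReal.ofReal (M1 / 2)) ^ 2 := by
          rw [ENNReal.ofReal_pow (by positivity)]
      _ ≤ (∫⁻ t, A1.indicator G t) ^ 2 := pow_le_pow_left' hI1 2
      _ ≤ (∫⁻ t, (A1.indicator G t) ^ 2) * volume A1 := hcs
      _ ≤ ENNReal.ofReal F * volume A1 := by
          gcongr
  have h2 : ENNReal.ofReal ((M1 / 2) ^ 2 / F) ≤ volume A1 := by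
    rw [ENNReal.ofReal_div_of_pos hF0]
    exact ENNReal.div_le_of_le_mul' h1
  have h3 : A1 ⊆ {t : ℝ | |t - μ| ≤ ρ ∧ θ ≤ (cntR4 ε β w t : ℝ)} := by
    intro t ht
    rw [hA1] at ht
    obtain ⟨htI, htG⟩ := ht
    refine ⟨?_, ?_⟩
    · rw [abs_le]
      constructor <;> linarith [htI.1, htI.2]
    · have h4 : ENNReal.ofReal θ ≤ ENNReal.ofReal (cntR4 ε β w t : ℝ) := by
        rw [ENNReal.ofReal_natCast]
        exact le_trans htG (hGR t htI)
      exact (ENNReal.ofReal_le_ofReal_iff (Nat.cast_nonneg _)).1 h4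
  refine le_trans (ENNReal.ofReal_le_ofReal (le_of_eq ?_)) (h2.trans (measure_mono h3))
  rw [hM1, hF]
  have he : Real.exp (2 * w) = Real.exp w ^ 2 := by
    rw [← Real.exp_nat_mul]
    norm_num
  rw [he]
  have := Real.exp_pos w
  field_simp
  ring

end SMD
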