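import Pool.Agent.SMD.BoxQ
import Pool.Agent.HLA.T4L

/-!
# SMD.PQc: the number of prime quadruples in the box

PROOF. Localization: outside the box `BX4 σ κ` the exponent `ex4 σ (κ/4)` is `> 8` (the quadratic form
`l1² + l2² - (2 l1 + 3 l2)²/14` is `≥ (l1² + l2²)/14`) and it is `2 ex4 (√2 σ) (√2 κ/4)`, so the sum of the weights over the box is at least
`T4 σ (κ/4) - e^(-4) T4 (√2 σ) (√2 κ/4)`, and by `t4_lim` `e^(2w)` times this has a positive limit. Then `pq_of_box`.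
-/

namespace SMD

open MeasureTheory ArithmeticFunction Filter SMC HLA

private theorem ex4_half {σ κ : ℝ} (w μ h1 h2 : ℝ) (q : ℕ × ℕ × ℕ × ℕ) :
    ex4 (Real.sqrt 2 * σ) (Real.sqrt 2 * κ) w μ h1 h2 q = ex4 σ κ w μ h1 h2 q / 2 := by
  unfold ex4
  have h2 : Real.sqrt 2 ^ 2 = 2 := Real.sq_sqrt (by norm_num)
  rw [mul_pow, mul_pow, h2]
  have e1 : 2 * (2 * σ ^ 2) = 2 * σ ^ 2 * 2 := by ring
  have e2 : 2 * (2 * κ ^ 2) = 2 * κ ^ 2 * 2 := by ring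
  rw [e1, e2, ← div_div, ← div_div]
  ring

private theorem sq_big {x s : ℝ} (hs : 0 < s) (hx : 4 * s < |x|) : 8 < x ^ 2 / (2 * s ^ 2) := by
  rw [lt_div_iff₀ (by positivity)]
  have h1 : (4 * s) ^ 2 < x ^ 2 := by
    rw [← sq_abs x]
    exact pow_lt_pow_left₀ hx (by positivity) (by norm_num)
  nlinarith

private theorem quad_ge (a b : ℝ) : (a ^ 2 + b ^ 2) / 14 ≤ a ^ 2 + b ^ 2 - (2 * a + 3 * b) ^ 2 / 14 := by
  nlinarith [sq_nonneg (3 * a - 2 * b)]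

private theorem quad_big {a b k : ℝ} (hk : 0 < k) (h : 4 * k < |a| ∨ 4 * k < |b|) :
    8 < (a ^ 2 + b ^ 2 - (2 * a + 3 * b) ^ 2 / 14) / (2 * (k / 4) ^ 2) := by
  rw [lt_div_iff₀ (by positivity)]
  have h1 := quad_ge a b
  have h2 : (4 * k) ^ 2 < a ^ 2 + b ^ 2 := by
    rcases h with h | h
    · have : (4 * k) ^ 2 < a ^ 2 := by
        rw [← sq_abs a]
        exact pow_lt_pow_left₀ h (by positivity) (by norm_num)
      nlinarith [sq_nonneg b]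
    · have : (4 * k) ^ 2 < b ^ 2 := by
        rw [← sq_abs b]
        exact pow_lt_pow_left₀ h (by positivity) (by norm_num)
      nlinarith [sq_nonneg a]
  nlinarith

private theorem ex4_nonneg (σ κ w μ h1 h2 : ℝ) (q : ℕ × ℕ × ℕ × ℕ) : 0 ≤ ex4 σ κ w μ h1 h2 q := by
  unfold ex4
  refine add_nonneg (by positivity) (div_nonneg ?_ (by positivity))
  refine le_trans ?_ (quad_ge _ _)
  positivity

private theorem ex4_big {σ κ w μ h1 h2 : ℝ} (hσ : 0 < σ) (hκ : 0 < κ) {q : ℕ × ℕ × ℕ × ℕ}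
    (p1 : 1 ≤ q.1) (p2 : 1 ≤ q.2.1) (p3 : 1 ≤ q.2.2.1) (p4 : 1 ≤ q.2.2.2)
    (hq : q ∉ BX4 σ κ w μ h1 h2) : 8 < ex4 σ (κ / 4) w μ h1 h2 q := by
  have n1 : 0 ≤ (Real.log q.1 - w) ^ 2 / (2 * σ ^ 2) := by positivity
  have n2 : 0 ≤ (Real.log q.2.1 - w - Real.log μ) ^ 2 / (2 * σ ^ 2) := by positivity
  have n3 : 0 ≤ (Real.log q.2.2.1 - w - 2 * Real.log μ) ^ 2 / (2 * σ ^ 2) := by positivity
  have n4 : 0 ≤ (Real.log q.2.2.2 - w - 3 * Real.log μ) ^ 2 / (2 * σ ^ 2) := by positivity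
  obtain ⟨a, ha⟩ : ∃ a, a = Real.exp w * (Real.log q.1 - 2 * Real.log q.2.1 + Real.log q.2.2.1) - h1 :=
    ⟨_, rfl⟩
  obtain ⟨b, hb⟩ : ∃ b, b = Real.exp w * (2 * Real.log q.1 - 3 * Real.log q.2.1 +
    Real.log q.2.2.2) - h2 := ⟨_, rfl⟩
  have n5 : 0 ≤ (a ^ 2 + b ^ 2 - (2 * a + 3 * b) ^ 2 / 14) / (2 * (κ / 4) ^ 2) :=
    div_nonneg (le_trans (by positivity) (quad_ge a b)) (by positivity)
  have key : ex4 σ (κ / 4) w μ h1 h2 q = (Real.log q.1 - w) ^ 2 / (2 * σ ^ 2) +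
      (Real.log q.2.1 - w - Real.log μ) ^ 2 / (2 * σ ^ 2) +
      (Real.log q.2.2.1 - w - 2 * Real.log μ) ^ 2 / (2 * σ ^ 2) +
      (Real.log q.2.2.2 - w - 3 * Real.log μ) ^ 2 / (2 * σ ^ 2) +
      (a ^ 2 + b ^ 2 - (2 * a + 3 * b) ^ 2 / 14) / (2 * (κ / 4) ^ 2) := by
    unfold ex4
    rw [← ha, ← hb, add_div, add_div, add_div]
  rw [key]
  by_cases c1 : |Real.log q.1 - w| ≤ 4 * σ
  · by_cases c2 : |Real.log q.2.1 - w - Real.log μ| ≤ 4 * σ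
    · by_cases c3 : |a| ≤ 4 * κ
      · by_cases c4 : |b| ≤ 4 * κ
        · rw [ha] at c3
          rw [hb] at c4
          exact absurd ⟨p1, p2, p3, p4, c1, c2, c3, c4⟩ hq
        · have := quad_big hκ (Or.inr (not_le.1 c4) : 4 * κ < |a| ∨ 4 * κ < |b|)
          linarith
      · have := quad_big hκ (Or.inl (not_le.1 c3) : 4 * κ < |a| ∨ 4 * κ < |b|)
        linarith
    · have := sq_big hσ (not_le.1 c2)
      linarith
  · have := sq_big hσ (not_le.1 c1)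
    linarith

private theorem tw_zero' : tw 0 = 0 := by
  simp [tw]

private theorem loc_term4 {σ κ w μ h1 h2 : ℝ} (hσ : 0 < σ) (hκ : 0 < κ) (q : ℕ × ℕ × ℕ × ℕ) :
    tw q.1 * tw q.2.1 * tw q.2.2.1 * tw q.2.2.2 * Real.exp (-ex4 σ (κ / 4) w μ h1 h2 q) ≤
      (if q ∈ (BX4_finite σ κ w μ h1 h2).toFinset then tw4 q else 0) +
      Real.exp (-4) * (tw q.1 * tw q.2.1 * tw q.2.2.1 * tw q.2.2.2 *
        Real.exp (-ex4 (Real.sqrt 2 * σ) (Real.sqrt 2 * (κ / 4)) w μ h1 h2 q)) := by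
  have ht := tw4_nonneg q
  rw [ex4_half]
  change tw4 q * _ ≤ _ + Real.exp (-4) * (tw4 q * _)
  by_cases hq : q ∈ BX4 σ κ w μ h1 h2
  · rw [if_pos ((BX4_finite σ κ w μ h1 h2).mem_toFinset.2 hq)]
    have h1' : Real.exp (-ex4 σ (κ / 4) w μ h1 h2 q) ≤ 1 := by
      rw [Real.exp_le_one_iff]
      linarith [ex4_nonneg σ (κ / 4) w μ h1 h2 q]
    have h2' : 0 ≤ Real.exp (-4) * (tw4 q * Real.exp (-(ex4 σ (κ / 4) w μ h1 h2 q / 2))) :=
      mul_nonneg (Real.exp_pos _).le (mul_nonneg ht (Real.exp_pos _).le)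
    have h3' := mul_le_mul_of_nonneg_left h1' ht
    linarith
  · rw [if_neg (fun h' => hq ((BX4_finite σ κ w μ h1 h2).mem_toFinset.1 h')), zero_add]
    by_cases z1 : q.1 = 0
    · have : tw4 q = 0 := by unfold tw4; rw [z1, tw_zero']; ring
      rw [this]; simp
    by_cases z2 : q.2.1 = 0
    · have : tw4 q = 0 := by unfold tw4; rw [z2, tw_zero']; ring
      rw [this]; simp
    by_cases z3 : q.2.2.1 = 0
    · have : tw4 q = 0 := by unfold tw4; rw [z3, tw_zero']; ring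
      rw [this]; simp
    by_cases z4 : q.2.2.2 = 0
    · have : tw4 q = 0 := by unfold tw4; rw [z4, tw_zero']; ring
      rw [this]; simp
    have hb := ex4_big hσ hκ (Nat.one_le_iff_ne_zero.2 z1) (Nat.one_le_iff_ne_zero.2 z2)
      (Nat.one_le_iff_ne_zero.2 z3) (Nat.one_le_iff_ne_zero.2 z4) hq
    have h1' : Real.exp (-ex4 σ (κ / 4) w μ h1 h2 q) ≤
        Real.exp (-4) * Real.exp (-(ex4 σ (κ / 4) w μ h1 h2 q / 2)) := by
      rw [← Real.exp_add]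
      apply Real.exp_le_exp.2
      linarith
    calc tw4 q * Real.exp (-ex4 σ (κ / 4) w μ h1 h2 q)
        ≤ tw4 q * (Real.exp (-4) * Real.exp (-(ex4 σ (κ / 4) w μ h1 h2 q / 2))) :=
          mul_le_mul_of_nonneg_left h1' ht
      _ = _ := by ring

private theorem loc_sum4 {σ κ w μ h1 h2 : ℝ} (hσ : 0 < σ) (hσ1 : σ ≤ 1 / 2) (hκ : 0 < κ) :
    T4 σ (κ / 4) w μ h1 h2 ≤ (∑ q ∈ (BX4_finite σ κ w μ h1 h2).toFinset, tw4 q) +
      Real.exp (-4) * T4 (Real.sqrt 2 * σ) (Real.sqrt 2 * (κ / 4)) w μ h1 h2 := by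
  have h2' : (0 : ℝ) < Real.sqrt 2 := by positivity
  have h2'' : Real.sqrt 2 ≤ 2 := by
    rw [Real.sqrt_le_left (by norm_num)]
    norm_num
  have s1 := t4_summable (σ := σ) (κ := κ / 4) w μ h1 h2 hσ (by linarith) (by positivity)
  have s2 := t4_summable (σ := Real.sqrt 2 * σ) (κ := Real.sqrt 2 * (κ / 4)) w μ h1 h2
    (by positivity) (by nlinarith) (by positivity)
  have s3 : HasSum (fun q : ℕ × ℕ × ℕ × ℕ =>
      if q ∈ (BX4_finite σ κ w μ h1 h2).toFinset then tw4 q else 0)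
      (∑ q ∈ (BX4_finite σ κ w μ h1 h2).toFinset, tw4 q) := by
    have e : (∑ q ∈ (BX4_finite σ κ w μ h1 h2).toFinset, tw4 q) =
        ∑ q ∈ (BX4_finite σ κ w μ h1 h2).toFinset,
          (if q ∈ (BX4_finite σ κ w μ h1 h2).toFinset then tw4 q else 0) :=
      Finset.sum_congr rfl (fun q hq => (if_pos hq).symm)
    rw [e]
    exact hasSum_sum_of_ne_finset_zero (fun b hb => if_neg hb)
  have s4 := s3.add (s2.hasSum.mul_left (Real.exp (-4)))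
  exact hasSum_le (fun q => loc_term4 hσ hκ q) s1.hasSum s4

private theorem cst4 {σ κ : ℝ} (hσ : 0 < σ) (hκ : 0 < κ) :
    3 * (κ ^ 2 * σ ^ 2 / 4) < 4 * Real.pi ^ 2 * (κ / 4) ^ 2 * σ ^ 2 * Real.sqrt (7 / 10) -
      Real.exp (-4) * (4 * Real.pi ^ 2 * (Real.sqrt 2 * (κ / 4)) ^ 2 *
        (Real.sqrt 2 * σ) ^ 2 * Real.sqrt (7 / 10)) := by
  have h2 : Real.sqrt 2 ^ 2 = 2 := Real.sq_sqrt (by norm_num)
  have he : Real.exp (-4) ≤ 1 / 16 := by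
    have h1 : (2 : ℝ) ≤ Real.exp 1 := by
      have := Real.add_one_le_exp (1 : ℝ)
      linarith
    have h4 : Real.exp 4 = Real.exp 1 ^ 4 := by
      rw [← Real.exp_nat_mul]
      norm_num
    rw [Real.exp_neg, h4, inv_le_comm₀ (by positivity) (by norm_num)]
    have := pow_le_pow_left₀ (by norm_num) h1 4
    norm_num at this ⊢
    exact this
  have he0 : 0 < Real.exp (-4) := Real.exp_pos _
  have hpi : (3 : ℝ) < Real.pi := Real.pi_gt_three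
  have hs : 4 / 5 ≤ Real.sqrt (7 / 10) := by
    apply Real.le_sqrt_of_sq_le
    norm_num
  obtain ⟨c, hc⟩ : ∃ c : ℝ, c = Real.pi ^ 2 * Real.sqrt (7 / 10) := ⟨_, rfl⟩
  have hc6 : 36 / 5 ≤ c := by
    rw [hc]
    have : (9 : ℝ) ≤ Real.pi ^ 2 := by nlinarith
    nlinarith
  have hks : 0 < κ ^ 2 * σ ^ 2 := by positivity
  have e1 : 4 * Real.pi ^ 2 * (κ / 4) ^ 2 * σ ^ 2 * Real.sqrt (7 / 10) = c * (κ ^ 2 * σ ^ 2) / 4 := by
    rw [hc]; ring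
  have e2 : Real.exp (-4) * (4 * Real.pi ^ 2 * (Real.sqrt 2 * (κ / 4)) ^ 2 *
        (Real.sqrt 2 * σ) ^ 2 * Real.sqrt (7 / 10)) = Real.exp (-4) * (c * (κ ^ 2 * σ ^ 2)) := by
    rw [mul_pow, mul_pow, h2, hc]; ring
  rw [e1, e2]
  have e3 : Real.exp (-4) * (c * (κ ^ 2 * σ ^ 2)) ≤ 1 / 16 * (c * (κ ^ 2 * σ ^ 2)) :=
    mul_le_mul_of_nonneg_right he (by positivity)
  have e4 : 36 / 5 * (κ ^ 2 * σ ^ 2) ≤ c * (κ ^ 2 * σ ^ 2) := mul_le_mul_of_nonneg_right hc6 hks.le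
  linarith

private theorem box_sum4 {σ κ μ h1 h2 : ℝ} (hσ : 0 < σ) (hσ1 : σ ≤ 1 / 2) (hκ : 0 < κ) (hμ : 1 ≤ μ) :
    ∀ᶠ w : ℝ in atTop, 3 * (κ ^ 2 * σ ^ 2 / 4) ≤ Real.exp (2 * w) *
      ∑ q ∈ (BX4_finite σ κ w μ h1 h2).toFinset, tw4 q := by
  have h2' : (0 : ℝ) < Real.sqrt 2 := by positivity
  have h2'' : Real.sqrt 2 ≤ 2 := by
    rw [Real.sqrt_le_left (by norm_num)]
    norm_num
  have t1 := t4_lim (σ := σ) (κ := κ / 4) (h1 := h1) (h2 := h2) hσ (by linarith : σ ≤ 1)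
    (by positivity) hμ
  have t2 := t4_lim (σ := Real.sqrt 2 * σ) (κ := Real.sqrt 2 * (κ / 4)) (h1 := h1) (h2 := h2)
    (by positivity) (by nlinarith) (by positivity) hμ
  have t3 := t1.sub (t2.const_mul (Real.exp (-4)))
  have t4 := t3.eventually (lt_mem_nhds (cst4 hσ hκ))
  filter_upwards [t4] with w hw
  have hl := loc_sum4 (w := w) (μ := μ) (h1 := h1) (h2 := h2) hσ hσ1 hκ
  have hl' := mul_le_mul_of_nonneg_left hl (Real.exp_pos (2 * w)).le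
  have e : Real.exp (2 * w) * ((∑ q ∈ (BX4_finite σ κ w μ h1 h2).toFinset, tw4 q) +
      Real.exp (-4) * T4 (Real.sqrt 2 * σ) (Real.sqrt 2 * (κ / 4)) w μ h1 h2) =
      Real.exp (2 * w) * (∑ q ∈ (BX4_finite σ κ w μ h1 h2).toFinset, tw4 q) +
      Real.exp (-4) * (Real.exp (2 * w) *
        T4 (Real.sqrt 2 * σ) (Real.sqrt 2 * (κ / 4)) w μ h1 h2) := by ring
  rw [e] at hl'
  linarith

theorem pq_count : ∃ c : ℝ, 0 < c ∧ ∀ σ κ μ h1 h2 : ℝ, 0 < σ → σ ≤ 1 / 12 → 0 < κ → 1 ≤ μ →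
    ∀ᶠ w : ℝ in atTop, (PQ σ κ w μ h1 h2).Finite ∧
      c * κ ^ 2 * σ ^ 2 * Real.exp (2 * w) / w ^ 4 ≤ ((PQ σ κ w μ h1 h2).ncard : ℝ) := by
  refine ⟨1 / (32 * Real.exp 8), by positivity, fun σ κ μ h1 h2 hσ hσ1 hκ hμ => ?_⟩
  have h := pq_of_box (σ := σ) (κ := κ) (μ := μ) (h1 := h1) (h2 := h2) (δ := κ ^ 2 * σ ^ 2 / 4)
    hσ hσ1 hκ hμ (by positivity) (box_sum4 hσ (by linarith) hκ hμ)
  filter_upwards [h] with w hw
  refine ⟨hw.1, le_trans (le_of_eq ?_) hw.2⟩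
  have := Real.exp_pos 8
  field_simp
  ring

end SMD
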