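import Pool.Agent.SMD.Equi6
import Pool.Agent.MRZ.SelMaj

/-!
# SMD.Pair6: the sieve bound of dimension six

PROOF. As `Pool/Agent/SMC/Pair4.lean` (copy: `Pair4_core`, `Pair4_sum`, with six factors instead of four): Selberg's weights `l` from `Pool.MRZ.sel_maj` with
`D = ⌊X^(η/360)⌋₊` (`D² ≤ X^(η/16)`, and `D^36 X^(-η/5) ≤ X^(-η/10)`). All six numbers are `> D` on `[a,b]` for large `X`. Main term
`(b-a) (∑ l_d/d)^6 ≤ (b-a) (C0/log D)^6`, the error is at most `D^36 X^(-η/5) ≤ X^(-η/10) ≤ (b-a) c/(log X)^6` for large `X`. `C` depends on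
`η` only. (`six β γ m m' i` is measurable: compositions of `Nat.floor`, `Nat.ceil` with measurable functions.)
-/

namespace SMD

open MeasureTheory Filter SMC

private theorem Pair6_meas_floor (m : ℕ) (β : ℝ) :
    Measurable fun t : ℝ => ⌊t * (m : ℝ) + β⌋₊ :=
  Nat.measurable_floor.comp ((measurable_id.mul_const _).add_const _)

private theorem Pair6_meas_ceil (m : ℕ) (β : ℝ) :
    Measurable fun t : ℝ => ⌈((m : ℝ) - β) / t⌉₊ :=
  Nat.measurable_ceil.comp (measurable_const.div measurable_id)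

private theorem Pair6_meas_sq (m : ℕ) (β γ : ℝ) :
    Measurable fun t : ℝ => ⌊t ^ 2 * (m : ℝ) + t * β + γ⌋₊ :=
  Nat.measurable_floor.comp ((((measurable_id.pow_const 2).mul_const _).add (measurable_id.mul_const _)).add_const _)

/-- the analytic part: integration of the majorant -/
private theorem Pair6_core {a b : ℝ} (N : Fin 6 → ℝ → ℕ) (hN : ∀ i, Measurable (N i)) (D : ℕ)
    (l : ℕ → ℝ)
    (hl1 : ∀ n, 1 ≤ n → 0 ≤ ∑ d ∈ (Finset.Icc 1 (D ^ 2)).filter (· ∣ n), l d)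
    (hl2 : ∀ p, p.Prime → D < p → 1 ≤ ∑ d ∈ (Finset.Icc 1 (D ^ 2)).filter (· ∣ p), l d)
    (hc : ∀ i, ∀ t ∈ Set.Icc a b, D < N i t) :
    (volume {t : ℝ | t ∈ Set.Icc a b ∧ ∀ i, (N i t).Prime}).toReal ≤
      ∑ x ∈ Fintype.piFinset (fun _ : Fin 6 => Finset.Icc 1 (D ^ 2)), (∏ i, l (x i)) *
        (volume {t : ℝ | t ∈ Set.Icc a b ∧ ∀ i, x i ∣ N i t}).toReal := by
  classical
  set E : (Fin 6 → ℕ) → Set ℝ := fun x => {t : ℝ | t ∈ Set.Icc a b ∧ ∀ i, x i ∣ N i t} with hE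
  set A : Set ℝ := {t : ℝ | t ∈ Set.Icc a b ∧ ∀ i, (N i t).Prime} with hA
  have hmeas : ∀ P : Fin 6 → ℕ → Prop, MeasurableSet {t : ℝ | ∀ i, P i (N i t)} := by
    intro P
    have h1 : {t : ℝ | ∀ i, P i (N i t)} = ⋂ i, (N i) ⁻¹' {n | P i n} := by
      ext t
      simp only [Set.mem_setOf_eq, Set.mem_iInter, Set.mem_preimage]
    rw [h1]
    exact MeasurableSet.iInter fun i => hN i MeasurableSet.of_discrete
  have hEm : ∀ x, MeasurableSet (E x) := fun x =>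
    measurableSet_Icc.inter (hmeas fun i n => x i ∣ n)
  have hAm : MeasurableSet A := measurableSet_Icc.inter (hmeas fun _ n => n.Prime)
  have hfin : volume (Set.Icc a b) < ⊤ := by
    rw [Real.volume_Icc]; exact ENNReal.ofReal_lt_top
  have hEf : ∀ x, volume (E x) < ⊤ := fun x =>
    lt_of_le_of_lt (measure_mono fun t ht => ht.1) hfin
  have hAf : volume A < ⊤ := lt_of_le_of_lt (measure_mono fun t ht => ht.1) hfin
  have hint : ∀ x, Integrable ((E x).indicator (1 : ℝ → ℝ)) volume := fun x =>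
    (integrable_indicator_iff (hEm x)).2 (integrableOn_const (hEf x).ne)
  have hintA : Integrable (A.indicator (1 : ℝ → ℝ)) volume :=
    (integrable_indicator_iff hAm).2 (integrableOn_const hAf.ne)
  have hval : ∀ x, ∫ t, (E x).indicator (1 : ℝ → ℝ) t = (volume (E x)).toReal := by
    intro x
    rw [integral_indicator_one (hEm x)]
    rfl
  have hvalA : ∫ t, A.indicator (1 : ℝ → ℝ) t = (volume A).toReal := by
    rw [integral_indicator_one hAm]
    rfl
  have hF : Integrable (fun t => ∑ x ∈ Fintype.piFinset (fun _ : Fin 6 => Finset.Icc 1 (D ^ 2)),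
      (∏ i, l (x i)) * (E x).indicator (1 : ℝ → ℝ) t) volume :=
    integrable_finsetSum _ fun x _ => (hint x).const_mul _
  have hle : ∀ t, A.indicator (1 : ℝ → ℝ) t ≤
      ∑ x ∈ Fintype.piFinset (fun _ : Fin 6 => Finset.Icc 1 (D ^ 2)),
      (∏ i, l (x i)) * (E x).indicator (1 : ℝ → ℝ) t := by
    intro t
    by_cases ht : t ∈ Set.Icc a b
    · have h1 : ∑ x ∈ Fintype.piFinset (fun _ : Fin 6 => Finset.Icc 1 (D ^ 2)),
          (∏ i, l (x i)) * (E x).indicator (1 : ℝ → ℝ) t =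
          ∏ i, ∑ d ∈ (Finset.Icc 1 (D ^ 2)).filter (· ∣ N i t), l d := by
        simp_rw [Finset.sum_filter]
        rw [Finset.prod_univ_sum]
        refine Finset.sum_congr rfl fun x _ => ?_
        by_cases hx : ∀ i, x i ∣ N i t
        · rw [Set.indicator_of_mem (show t ∈ E x from ⟨ht, hx⟩), Pi.one_apply, mul_one]
          exact Finset.prod_congr rfl fun i _ => (if_pos (hx i)).symm
        · rw [Set.indicator_of_notMem (fun h : t ∈ E x => hx h.2), mul_zero]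
          push Not at hx
          obtain ⟨i, hi⟩ := hx
          exact (Finset.prod_eq_zero (Finset.mem_univ i) (if_neg hi)).symm
      rw [h1]
      by_cases hA' : t ∈ A
      · rw [Set.indicator_of_mem hA']
        have h2 : ∏ _i : Fin 6, (1 : ℝ) ≤
            ∏ i, ∑ d ∈ (Finset.Icc 1 (D ^ 2)).filter (· ∣ N i t), l d :=
          Finset.prod_le_prod (fun _ _ => zero_le_one) fun i _ => hl2 _ (hA'.2 i) (hc i t ht)
        simpa using h2
      · rw [Set.indicator_of_notMem hA']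
        exact Finset.prod_nonneg fun i _ => hl1 _ (by have := hc i t ht; omega)
    · rw [Set.indicator_of_notMem (fun h : t ∈ A => ht h.1)]
      refine (Finset.sum_eq_zero fun x _ => ?_).ge
      rw [Set.indicator_of_notMem (fun h : t ∈ E x => ht h.1), mul_zero]
  calc (volume A).toReal = ∫ t, A.indicator (1 : ℝ → ℝ) t := hvalA.symm
    _ ≤ ∫ t, ∑ x ∈ Fintype.piFinset (fun _ : Fin 6 => Finset.Icc 1 (D ^ 2)),
      (∏ i, l (x i)) * (E x).indicator (1 : ℝ → ℝ) t := integral_mono hintA hF hle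
    _ = _ := by
      rw [integral_finsetSum _ fun x _ => (hint x).const_mul _]
      refine Finset.sum_congr rfl fun x _ => ?_
      rw [integral_const_mul, hval]

/-- the arithmetic part -/
private theorem Pair6_sum {D : ℕ} {l : ℕ → ℝ} {V : (Fin 6 → ℕ) → ℝ} {w ε : ℝ}
    (hε : 0 ≤ ε) (hl : ∀ d, |l d| ≤ (d : ℝ) ^ 2)
    (hV : ∀ x ∈ Fintype.piFinset (fun _ : Fin 6 => Finset.Icc 1 (D ^ 2)),
      |V x - w / ∏ i, (x i : ℝ)| ≤ ε) :
    ∑ x ∈ Fintype.piFinset (fun _ : Fin 6 => Finset.Icc 1 (D ^ 2)), (∏ i, l (x i)) * V x ≤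
      w * |∑ d ∈ Finset.Icc 1 (D ^ 2), l d / d| ^ 6 + (D : ℝ) ^ 36 * ε := by
  have h1 : ∀ x ∈ Fintype.piFinset (fun _ : Fin 6 => Finset.Icc 1 (D ^ 2)),
      (∏ i, l (x i)) * V x ≤ w * (∏ i, l (x i) / (x i : ℝ)) + (D : ℝ) ^ 24 * ε := by
    intro x hx
    have hx' : ∀ i, 1 ≤ x i ∧ x i ≤ D ^ 2 := fun i =>
      Finset.mem_Icc.1 (Fintype.mem_piFinset.1 hx i)
    have hbd : ∀ d : ℕ, d ≤ D ^ 2 → |l d| ≤ (D : ℝ) ^ 4 := by
      intro d hd
      refine (hl d).trans ?_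
      have : (d : ℝ) ≤ (D : ℝ) ^ 2 := by exact_mod_cast hd
      calc (d : ℝ) ^ 2 ≤ ((D : ℝ) ^ 2) ^ 2 := by gcongr
        _ = (D : ℝ) ^ 4 := by ring
    have h2 : (∏ i, l (x i)) * (V x - w / ∏ i, (x i : ℝ)) ≤ (D : ℝ) ^ 24 * ε := by
      refine (le_abs_self _).trans ?_
      rw [abs_mul, Finset.abs_prod]
      have h3 : ∏ i, |l (x i)| ≤ (D : ℝ) ^ 24 := by
        calc ∏ i, |l (x i)| ≤ ∏ _i : Fin 6, (D : ℝ) ^ 4 :=
              Finset.prod_le_prod (fun _ _ => abs_nonneg _) fun i _ => hbd _ (hx' i).2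
          _ = (D : ℝ) ^ 24 := by
              rw [Finset.prod_const, Finset.card_univ, Fintype.card_fin]
              ring
      exact mul_le_mul h3 (hV x hx) (abs_nonneg _) (by positivity)
    have h3 : (∏ i, l (x i)) * V x = (∏ i, l (x i)) * (V x - w / ∏ i, (x i : ℝ)) +
        w * (∏ i, l (x i) / (x i : ℝ)) := by
      rw [Finset.prod_div_distrib]
      ring
    rw [h3]
    linarith
  calc ∑ x ∈ Fintype.piFinset (fun _ : Fin 6 => Finset.Icc 1 (D ^ 2)), (∏ i, l (x i)) * V x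
      ≤ ∑ x ∈ Fintype.piFinset (fun _ : Fin 6 => Finset.Icc 1 (D ^ 2)),
        (w * (∏ i, l (x i) / (x i : ℝ)) + (D : ℝ) ^ 24 * ε) := Finset.sum_le_sum h1
    _ = w * |∑ d ∈ Finset.Icc 1 (D ^ 2), l d / d| ^ 6 + (D : ℝ) ^ 36 * ε := by
      have h4 : |∑ d ∈ Finset.Icc 1 (D ^ 2), l d / (d : ℝ)| ^ 6 =
          ∏ _i : Fin 6, ∑ d ∈ Finset.Icc 1 (D ^ 2), l d / (d : ℝ) := by
        rw [Finset.prod_const, Finset.card_univ, Fintype.card_fin]
        exact (even_iff_two_dvd.2 (by norm_num)).pow_abs _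
      rw [h4, Finset.prod_univ_sum, Finset.sum_add_distrib, ← Finset.mul_sum, Finset.sum_const,
        Fintype.card_piFinset]
      simp only [Nat.card_Icc, Nat.add_sub_cancel, Finset.prod_const, Finset.card_univ,
        Fintype.card_fin, nsmul_eq_mul]
      push_cast
      ring

private theorem Pair6_all (P : Fin 6 → Prop) : (∀ i, P i) ↔ P 0 ∧ P 1 ∧ P 2 ∧ P 3 ∧ P 4 ∧ P 5 := by
  constructor
  · intro h
    exact ⟨h 0, h 1, h 2, h 3, h 4, h 5⟩
  · rintro ⟨h0, h1, h2, h3, h4, h5⟩ i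
    fin_cases i
    exacts [h0, h1, h2, h3, h4, h5]

theorem pair6 {η : ℝ} (hη : 0 < η) (hη1 : η ≤ 1 / 40) : ∃ C : ℝ, 0 < C ∧ ∀ a b κ1 κ2 β γ : ℝ, 0 < a → a < b →
    0 < κ1 → ∃ X0 : ℝ, ∀ X : ℝ, X0 ≤ X → ∀ m m' : ℕ, κ1 * X ≤ (m : ℝ) → (m : ℝ) ≤ κ2 * X →
      κ1 * X ≤ (m' : ℝ) → (m' : ℝ) ≤ κ2 * X → MCC.NE X η m m' →
      volume {t : ℝ | t ∈ Set.Icc a b ∧ ∀ i, (six β γ m m' i t).Prime} ≤
        ENNReal.ofReal (C * (b - a) / Real.log X ^ 6) := by
  obtain ⟨C0, hC0, hsel⟩ := Pool.MRZ.sel_maj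
  refine ⟨2 * (720 * C0 / η) ^ 6, by positivity, ?_⟩
  intro a b κ1 κ2 β γ ha hab hκ
  have hb : 0 < b := ha.trans hab
  obtain ⟨X1, hX1⟩ := equi6 (κ2 := κ2) hη hη1 β γ ha hab hκ
  -- eventual inequalities
  have e1 : ∀ᶠ X : ℝ in atTop, 2 ≤ X ^ (η / 720) :=
    (tendsto_rpow_atTop (by positivity)).eventually_ge_atTop 2
  have e2g : ∀ c : ℝ, 0 < c → ∀ᶠ X : ℝ in atTop, X ^ (η / 360) ≤ c * X := by
    intro c hc
    have h : ∀ᶠ X : ℝ in atTop, 1 / c ≤ X ^ (1 - η / 360) :=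
      (tendsto_rpow_atTop (by linarith)).eventually_ge_atTop _
    filter_upwards [h, eventually_gt_atTop (0 : ℝ)] with X hX hX0
    have h1 : X = X ^ (η / 360) * X ^ (1 - η / 360) := by
      rw [← Real.rpow_add hX0]
      simp
    have h2 : 1 ≤ c * X ^ (1 - η / 360) := by
      rw [div_le_iff₀ hc] at hX
      linarith
    have h3 : 0 ≤ X ^ (η / 360) := by positivity
    calc X ^ (η / 360) = X ^ (η / 360) * 1 := (mul_one _).symm
      _ ≤ X ^ (η / 360) * (c * X ^ (1 - η / 360)) := by gcongr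
      _ = c * (X ^ (η / 360) * X ^ (1 - η / 360)) := by ring
      _ = c * X := by rw [← h1]
  have e2 := e2g (a * κ1 / 2) (by positivity)
  have e2' := e2g (κ1 / (2 * b)) (by positivity)
  have e2s := e2g (a ^ 2 * κ1 / 2) (by positivity)
  have e3 : ∀ᶠ X : ℝ in atTop, 1 - β < (a * κ1 / 2) * X :=
    (tendsto_id.const_mul_atTop (by positivity)).eventually_gt_atTop _
  have e3' : ∀ᶠ X : ℝ in atTop, β < (κ1 / 2) * X :=
    (tendsto_id.const_mul_atTop (by positivity)).eventually_gt_atTop _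
  have e3s : ∀ᶠ X : ℝ in atTop, 1 + b * |β| - γ < (a ^ 2 * κ1 / 2) * X :=
    (tendsto_id.const_mul_atTop (by positivity)).eventually_gt_atTop _
  have e4 : ∀ᶠ X : ℝ in atTop, X ^ (-(η / 10)) * Real.log X ^ 6 ≤
      (720 * C0 / η) ^ 6 * (b - a) := by
    have h : Tendsto (fun X : ℝ => Real.log X ^ 6 / X ^ (η / 10)) atTop (nhds 0) := by
      have h := (isLittleO_log_rpow_rpow_atTop (s := η / 10) (6 : ℝ)
        (by positivity)).tendsto_div_nhds_zero
      refine h.congr fun X => ?_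
      rw [show (6 : ℝ) = ((6 : ℕ) : ℝ) by norm_num, Real.rpow_natCast]
    have hpos : 0 < (720 * C0 / η) ^ 6 * (b - a) := by
      have : 0 < b - a := by linarith
      positivity
    filter_upwards [h.eventually_le_const hpos, eventually_gt_atTop (0 : ℝ)] with X hX hX0
    rw [Real.rpow_neg hX0.le, inv_mul_eq_div]
    exact hX
  obtain ⟨X2, hX2⟩ := (((e1.and e2).and (e3.and e4)).and (((eventually_gt_atTop (1 : ℝ)).and
    (e2'.and e3')).and (e2s.and e3s))).exists_forall_of_atTop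
  refine ⟨max X1 X2, fun X hX m m' hm1 hm2 hm1' hm2' hNE => ?_⟩
  obtain ⟨⟨⟨f1, f2⟩, f3, f4⟩, ⟨f5, f2', f3'⟩, f2s, f3s⟩ := hX2 X ((le_max_right _ _).trans hX)
  have hXpos : 0 < X := by linarith
  set D : ℕ := ⌊X ^ (η / 360)⌋₊ with hD
  have hsq : X ^ (η / 360) = (X ^ (η / 720)) ^ 2 := by
    rw [← Real.rpow_natCast, ← Real.rpow_mul hXpos.le]
    congr 1
    push_cast
    ring
  have hDle : (D : ℝ) ≤ X ^ (η / 360) := Nat.floor_le (by positivity)
  have hDge : X ^ (η / 720) ≤ (D : ℝ) := by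
    have h1 : X ^ (η / 360) < (D : ℝ) + 1 := Nat.lt_floor_add_one _
    rw [hsq] at h1
    nlinarith
  have hD2 : 2 ≤ D := by
    have : (2 : ℝ) ≤ D := f1.trans hDge
    exact_mod_cast this
  obtain ⟨l, hl0, hl1, hl2, hl3⟩ := hsel D hD2
  have hbig : ∀ n : ℕ, κ1 * X ≤ (n : ℝ) → ∀ t ∈ Set.Icc a b, D < ⌊t * (n : ℝ) + β⌋₊ := by
    intro n hn t ht
    rw [Nat.lt_iff_add_one_le]
    refine Nat.le_floor ?_
    push_cast
    have h1 : a * (κ1 * X) ≤ t * (n : ℝ) := by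
      have : 0 ≤ κ1 * X := by positivity
      exact mul_le_mul ht.1 hn this (ha.le.trans ht.1)
    nlinarith
  have hbig' : ∀ n : ℕ, κ1 * X ≤ (n : ℝ) → ∀ t ∈ Set.Icc a b, D < ⌈((n : ℝ) - β) / t⌉₊ := by
    intro n hn t ht
    rw [Nat.lt_ceil]
    have ht0 : 0 < t := ha.trans_le ht.1
    rw [lt_div_iff₀ ht0]
    have h1 : (D : ℝ) * t ≤ κ1 / (2 * b) * X * b := by
      have : (0 : ℝ) ≤ D := Nat.cast_nonneg _
      exact mul_le_mul (hDle.trans f2') ht.2 ht0.le (by positivity)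
    have h2 : κ1 / (2 * b) * X * b = κ1 / 2 * X := by
      field_simp
    rw [h2] at h1
    linarith
  have hbigs : ∀ n : ℕ, κ1 * X ≤ (n : ℝ) → ∀ t ∈ Set.Icc a b, D < ⌊t ^ 2 * (n : ℝ) + t * β + γ⌋₊ := by
    intro n hn t ht
    rw [Nat.lt_iff_add_one_le]
    refine Nat.le_floor ?_
    push_cast
    have ht0 : 0 < t := ha.trans_le ht.1
    have h1 : a ^ 2 * (κ1 * X) ≤ t ^ 2 * (n : ℝ) := by
      have : 0 ≤ κ1 * X := by positivity
      have h2 : a ^ 2 ≤ t ^ 2 := pow_le_pow_left₀ ha.le ht.1 2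
      exact mul_le_mul h2 hn this (by positivity)
    have h3 : -(b * |β|) ≤ t * β := by
      have h4 : |t * β| ≤ b * |β| := by
        rw [abs_mul, abs_of_pos ht0]
        exact mul_le_mul_of_nonneg_right ht.2 (abs_nonneg _)
      exact (abs_le.1 h4).1
    have h5 := hDle.trans f2s
    nlinarith
  set N : Fin 6 → ℝ → ℕ := six β γ m m' with hNdef
  have hNm : ∀ i, Measurable (N i) := by
    rw [Pair6_all]
    exact ⟨Pair6_meas_floor m β, Pair6_meas_ceil m β, Pair6_meas_sq m β γ, Pair6_meas_floor m' β,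
      Pair6_meas_ceil m' β, Pair6_meas_sq m' β γ⟩
  have hNc : ∀ i, ∀ t ∈ Set.Icc a b, D < N i t := by
    rw [Pair6_all]
    exact ⟨hbig m hm1, hbig' m hm1, hbigs m hm1, hbig m' hm1', hbig' m' hm1', hbigs m' hm1'⟩
  have hcore := Pair6_core (a := a) (b := b) N hNm D l hl1 hl2 hNc
  have hDX : ∀ d : ℕ, d ≤ D ^ 2 → (d : ℝ) ≤ X ^ (η / 16) := by
    intro d hd
    have h1 : (d : ℝ) ≤ (D : ℝ) ^ 2 := by exact_mod_cast hd
    refine h1.trans ?_
    calc (D : ℝ) ^ 2 ≤ (X ^ (η / 360)) ^ 2 := by gcongr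
      _ = X ^ (η / 180) := by
        rw [← Real.rpow_natCast, ← Real.rpow_mul hXpos.le]
        congr 1
        push_cast
        ring
      _ ≤ X ^ (η / 16) := Real.rpow_le_rpow_of_exponent_le f5.le (by linarith)
  have hsum := Pair6_sum (D := D) (l := l)
    (V := fun x => (volume {t : ℝ | t ∈ Set.Icc a b ∧ ∀ i, x i ∣ N i t}).toReal)
    (w := b - a) (ε := X ^ (-(η / 5))) (by positivity) hl0 (by
      intro x hx
      have hx' : ∀ i, 1 ≤ x i ∧ x i ≤ D ^ 2 := fun i =>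
        Finset.mem_Icc.1 (Fintype.mem_piFinset.1 hx i)
      exact hX1 X ((le_max_left _ _).trans hX) m m' hm1 hm2 hm1' hm2' hNE x (fun i => (hx' i).1)
        (fun i => hDX _ (hx' i).2))
  have hlogX : 0 < Real.log X := Real.log_pos f5
  have hlogD : η / 720 * Real.log X ≤ Real.log D := by
    rw [← Real.log_rpow hXpos]
    exact Real.log_le_log (by positivity) hDge
  have hmain : |∑ d ∈ Finset.Icc 1 (D ^ 2), l d / d| ≤ (720 * C0 / η) / Real.log X := by
    refine hl3.trans ?_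
    calc C0 / Real.log D ≤ C0 / (η / 720 * Real.log X) := by
          gcongr
      _ = (720 * C0 / η) / Real.log X := by
          field_simp
  have hD12 : (D : ℝ) ^ 36 * X ^ (-(η / 5)) ≤ X ^ (-(η / 10)) := by
    calc (D : ℝ) ^ 36 * X ^ (-(η / 5)) ≤ (X ^ (η / 360)) ^ 36 * X ^ (-(η / 5)) := by gcongr
      _ = X ^ (-(η / 10)) := by
        rw [← Real.rpow_natCast, ← Real.rpow_mul hXpos.le, ← Real.rpow_add hXpos]
        congr 1
        push_cast
        ring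
  have hfin : volume {t : ℝ | t ∈ Set.Icc a b ∧ ∀ i, (N i t).Prime} ≠ ⊤ := by
    refine ne_top_of_le_ne_top ?_ (measure_mono (fun t ht => ht.1 : _ ⊆ Set.Icc a b))
    rw [Real.volume_Icc]
    exact ENNReal.ofReal_ne_top
  rw [← ENNReal.ofReal_toReal hfin]
  refine ENNReal.ofReal_le_ofReal ?_
  refine (hcore.trans hsum).trans ?_
  have h1 : (b - a) * |∑ d ∈ Finset.Icc 1 (D ^ 2), l d / d| ^ 6 ≤
      (b - a) * ((720 * C0 / η) / Real.log X) ^ 6 := by
    have : 0 ≤ b - a := by linarith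
    gcongr
  have h2 : X ^ (-(η / 10)) ≤ (720 * C0 / η) ^ 6 * (b - a) / Real.log X ^ 6 := by
    rw [le_div_iff₀ (by positivity)]
    exact f4
  calc (b - a) * |∑ d ∈ Finset.Icc 1 (D ^ 2), l d / d| ^ 6 + (D : ℝ) ^ 36 * X ^ (-(η / 5))
      ≤ (b - a) * ((720 * C0 / η) / Real.log X) ^ 6 +
        (720 * C0 / η) ^ 6 * (b - a) / Real.log X ^ 6 := by
        linarith [hD12.trans h2]
    _ = 2 * (720 * C0 / η) ^ 6 * (b - a) / Real.log X ^ 6 := by
        field_simp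
        ring

end SMD
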